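import Pool.Agent.R296.SM.State

set_option autoImplicit false

/-! # Conversion of the conclusions to sums over the natural numbers -/

namespace Pool.Agent.R296.SM

open Finset MeasureTheory Filter Topology

noncomputable section

/-- the weight twisted by the character `θ` -/
def tws (f : ℕ → ℤ) (θ : UnitAddCircle) (n : ℕ) : ℂ := (f n : ℂ) * fourier (n : ℤ) θ

lemma norm_tws {f : ℕ → ℤ} (hf : ∀ n, |f n| ≤ 1) (θ : UnitAddCircle) (n : ℕ) : ‖tws f θ n‖ ≤ 1 := by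
  unfold tws
  rw [norm_mul, fourier_apply, Circle.norm_coe, mul_one, Complex.norm_intCast]
  exact_mod_cast hf n

lemma exp_fourier (n : ℕ) (θ : ℝ) : Complex.exp (2 * Real.pi * Complex.I * n * θ) =
    fourier (n : ℤ) (θ : UnitAddCircle) := by
  rw [fourier_coe_apply]
  simp

section

variable {K : Type*} [NormedAddCommGroup K] [NormedSpace ℂ K]

lemma conv_Ioc (f : ℕ → ℤ) (θ : ℝ) (w : ℤ → K) (y : ℕ → K) (hy : ∀ n : ℕ, w n = y n) (x H : ℕ) :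
    ∑ m ∈ Ioc x (x + H), ((f m : ℂ) * Complex.exp (2 * Real.pi * Complex.I * m * θ)) • y m =
      ∑ m ∈ Ioc (x : ℤ) (x + H), ext0 (tws f (θ : UnitAddCircle)) m • w m := by
  refine sum_nbij' (fun n : ℕ => (n : ℤ)) (fun m : ℤ => m.toNat) ?_ ?_ ?_ ?_ ?_
  · intro n hn
    rw [mem_Ioc] at hn ⊢
    omega
  · intro m hm
    rw [mem_Ioc] at hm ⊢
    omega
  · intro n _; simp
  · intro m hm
    rw [mem_Ioc] at hm
    omega
  · intro n hn
    rw [mem_Ioc] at hn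
    rw [exp_fourier, ← hy, ext0, if_pos (by omega), Int.toNat_natCast]
    rfl

lemma conv_Icc (f : ℕ → ℤ) (θ : ℝ) (w : ℤ → K) (y : ℕ → K) (hy : ∀ n : ℕ, w n = y n) (N : ℕ) :
    ∑ m ∈ Icc 1 N, ((f m : ℂ) * Complex.exp (2 * Real.pi * Complex.I * m * θ)) • y m =
      ∑ m ∈ Ioc (0 : ℤ) N, ext0 (tws f (θ : UnitAddCircle)) m • w m := by
  have h1 := conv_Ioc f θ w y hy 0 N
  rw [zero_add] at h1
  have h2 : ((0 : ℕ) : ℤ) = 0 := rfl
  rw [h2, zero_add] at h1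
  rw [← h1]
  rfl

end

section

variable {K : Type*} [NormedAddCommGroup K] [InnerProductSpace ℂ K] {𝓗 : Set (ℕ → ℂ)}

/-- without exceptional scales the windows may be as long as the interval -/
lemma Dj.win (h𝓗 : ∀ h ∈ 𝓗, ∀ n, ‖h n‖ ≤ 1) {w : ℤ → K} {M : ℝ} (hM : ∀ m, ‖w m‖ ≤ M) (hw : Dj ∅ 𝓗 w) (ε : ℝ)
    (hε : 0 < ε) : ∃ H₀ : ℕ, ∀ H : ℕ, H₀ ≤ H → ∀ N : ℕ, H ≤ N → ∀ h ∈ 𝓗,
      ∑ x ∈ range N, ‖∑ m ∈ Ioc (x : ℤ) (x + H), ext0 h m • w m‖ ^ 2 ≤ ε * H ^ 2 * N := by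
  have hM0 : 0 ≤ M := (norm_nonneg _).trans (hM 0)
  obtain ⟨H₁, h11, h1⟩ := hw ε hε
  obtain ⟨δ, hδ0, hδ1, hδ2⟩ : ∃ δ : ℝ, 0 < δ ∧ δ ≤ 1 ∧ δ ≤ ε := ⟨min 1 ε, by positivity, min_le_left _ _, min_le_right _ _⟩
  obtain ⟨η, hη⟩ : ∃ η : ℝ, η = δ / (2 * H₁ + 3) := ⟨_, rfl⟩
  have hη0 : 0 < η := by rw [hη]; positivity
  obtain ⟨N₀, h2⟩ := hw.long h𝓗 hM η hη0
  have h3 : ∀ N : ℕ, ∀ h ∈ 𝓗, ‖∑ m ∈ Ioc (0 : ℤ) N, ext0 h m • w m‖ ≤ η * N + M * N₀ := by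
    intro N h hh
    rcases le_total N₀ N with hN | hN
    · have := h2 N hN (Set.notMem_empty N) h hh
      have h4 : 0 ≤ M * N₀ := by positivity
      linarith
    · have h5 : ‖∑ m ∈ Ioc (0 : ℤ) N, ext0 h m • w m‖ ≤ N * M := by
        refine (norm_sum_le _ _).trans ?_
        calc ∑ m ∈ Ioc (0 : ℤ) N, ‖ext0 h m • w m‖ ≤ ∑ _m ∈ Ioc (0 : ℤ) (N : ℤ), M := by
              refine sum_le_sum fun m _ => ?_
              rw [norm_smul]
              calc _ ≤ 1 * ‖w m‖ := mul_le_mul_of_nonneg_right (ext0_le (h𝓗 h hh) m) (norm_nonneg _)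
                _ ≤ M := by rw [one_mul]; exact hM m
          _ = N * M := by rw [sum_const, nsmul_eq_mul, Int.card_Ioc]; simp
      have h6 : (N : ℝ) * M ≤ N₀ * M := mul_le_mul_of_nonneg_right (by exact_mod_cast hN) hM0
      have h7 : 0 ≤ η * N := by positivity
      linarith
  refine ⟨max H₁ ⌈M * N₀ / η⌉₊, fun H hH N hN h hh => ?_⟩
  rcases le_total (H₁ * H) N with hN' | hN'
  · exact h1 H (le_trans (le_max_left _ _) hH) N hN' (Set.notMem_empty N) h hh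
  have hH2 : M * N₀ / η ≤ H := (Nat.le_ceil _).trans (by exact_mod_cast le_trans (le_max_right _ _) hH)
  rw [div_le_iff₀ hη0] at hH2
  have hNr : (N : ℝ) ≤ H₁ * H := by exact_mod_cast hN'
  have key : ∀ x ∈ range N, ‖∑ m ∈ Ioc (x : ℤ) (x + H), ext0 h m • w m‖ ^ 2 ≤ ε * H ^ 2 := by
    intro x hx
    rw [mem_range] at hx
    have e1 : ∑ m ∈ Ioc (x : ℤ) (x + H), ext0 h m • w m = ∑ m ∈ Ioc (0 : ℤ) ((x + H : ℕ) : ℤ), ext0 h m • w m -
        ∑ m ∈ Ioc (0 : ℤ) x, ext0 h m • w m := by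
      have e2 : Ioc (0 : ℤ) ((x + H : ℕ) : ℤ) = Ioc (0 : ℤ) x ∪ Ioc (x : ℤ) (x + H) := by
        ext m
        simp only [mem_Ioc, mem_union]
        omega
      rw [e2, sum_union, add_sub_cancel_left]
      rw [disjoint_left]
      intro m hm hm'
      rw [mem_Ioc] at hm hm'
      omega
    have e3 : ‖∑ m ∈ Ioc (x : ℤ) (x + H), ext0 h m • w m‖ ≤ δ * H := by
      rw [e1]
      refine (norm_sub_le _ _).trans ?_
      have e4 := h3 (x + H) h hh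
      have e5 := h3 x h hh
      push_cast at e4 e5 ⊢
      have hxr : (x : ℝ) ≤ N := by exact_mod_cast hx.le
      calc _ ≤ (η * (x + H) + M * N₀) + (η * x + M * N₀) := add_le_add e4 e5
        _ ≤ η * (2 * (H₁ * H) + H) + 2 * (H * η) := by
            have : η * (x + H) + η * x ≤ η * (2 * (H₁ * H) + H) := by
              rw [← mul_add]
              exact mul_le_mul_of_nonneg_left (by linarith) hη0.le
            linarith
        _ = η * (2 * H₁ + 3) * H := by ring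
        _ = δ * H := by rw [hη, div_mul_cancel₀]; positivity
    calc _ ≤ (δ * H) ^ 2 := pow_le_pow_left₀ (norm_nonneg _) e3 2
      _ = δ * δ * H ^ 2 := by ring
      _ ≤ 1 * ε * H ^ 2 := by
          apply mul_le_mul_of_nonneg_right _ (sq_nonneg _)
          exact mul_le_mul hδ1 hδ2 hδ0.le zero_le_one
      _ = _ := by ring
  calc _ ≤ ∑ _x ∈ range N, ε * (H : ℝ) ^ 2 := sum_le_sum key
    _ = _ := by rw [sum_const, card_range, nsmul_eq_mul]; ring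

/-- bounded functionals -/
lemma Dj.map {E : Set ℕ} {w : ℤ → K} (hw : Dj E 𝓗 w) (ζ : K) : Dj E 𝓗 (fun m => (inner ℂ ζ (w m) : ℂ)) := by
  intro ε hε
  obtain ⟨H₁, h11, h1⟩ := hw (ε / (‖ζ‖ ^ 2 + 1)) (by positivity)
  refine ⟨H₁, h11, fun H hH N hN hNE h hh => ?_⟩
  have e1 := h1 H hH N hN hNE h hh
  calc ∑ x ∈ range N, ‖∑ m ∈ Ioc (x : ℤ) (x + H), ext0 h m • (inner ℂ ζ (w m) : ℂ)‖ ^ 2 ≤
      ∑ x ∈ range N, ‖ζ‖ ^ 2 * ‖∑ m ∈ Ioc (x : ℤ) (x + H), ext0 h m • w m‖ ^ 2 := by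
        refine sum_le_sum fun x _ => ?_
        have e2 : ∑ m ∈ Ioc (x : ℤ) (x + H), ext0 h m • (inner ℂ ζ (w m) : ℂ) =
            inner ℂ ζ (∑ m ∈ Ioc (x : ℤ) (x + H), ext0 h m • w m) := by
          rw [inner_sum]
          exact sum_congr rfl fun m _ => by rw [inner_smul_right, smul_eq_mul]
        rw [e2, ← mul_pow]
        exact pow_le_pow_left₀ (norm_nonneg _) (norm_inner_le_norm _ _) 2
    _ = ‖ζ‖ ^ 2 * ∑ x ∈ range N, ‖∑ m ∈ Ioc (x : ℤ) (x + H), ext0 h m • w m‖ ^ 2 := by rw [mul_sum]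
    _ ≤ ‖ζ‖ ^ 2 * (ε / (‖ζ‖ ^ 2 + 1) * H ^ 2 * N) := mul_le_mul_of_nonneg_left e1 (sq_nonneg _)
    _ = (‖ζ‖ ^ 2 / (‖ζ‖ ^ 2 + 1)) * (ε * H ^ 2 * N) := by ring
    _ ≤ 1 * (ε * H ^ 2 * N) := by
        apply mul_le_mul_of_nonneg_right _ (by positivity)
        rw [div_le_one (by positivity)]
        linarith
    _ = _ := one_mul _

end

end

end Pool.Agent.R296.SM
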