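import Mathlib

set_option autoImplicit false

/-! # Logarithmic means from means outside a set of logarithmic density zero -/

namespace Pool.Agent.R296.SM

open Finset Filter Topology

noncomputable section

open Classical in
/-- logarithmic density zero -/
def LDZ (E : Set ℕ) : Prop := Tendsto
  (fun X : ℕ => (∑ n ∈ Icc 1 X, if n ∈ E then (1 : ℝ) / n else 0) / Real.log X) atTop (𝓝 0)

variable {F : Type*} [NormedAddCommGroup F] [NormedSpace ℂ F]

lemma abel (a : ℕ → F) (N : ℕ) : ∑ m ∈ Icc 1 N, (1 / (m : ℂ)) • a m =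
    ∑ m ∈ Icc 1 N, (1 / ((m : ℂ) * (m + 1))) • (∑ k ∈ Icc 1 m, a k) + (1 / ((N : ℂ) + 1)) • ∑ k ∈ Icc 1 N, a k := by
  induction N with
  | zero => simp
  | succ N ih =>
    rw [sum_Icc_succ_top (by omega), sum_Icc_succ_top (by omega), ih, sum_Icc_succ_top (by omega)]
    have h1 : (N : ℂ) + 1 ≠ 0 := by exact_mod_cast Nat.succ_ne_zero N
    have h2 : (N : ℂ) + 1 + 1 ≠ 0 := by exact_mod_cast Nat.succ_ne_zero (N + 1)
    have e : (1 / (((N : ℂ) + 1) * (N + 1 + 1))) + 1 / ((N : ℂ) + 1 + 1) = 1 / (N + 1) := by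
      field_simp
      ring
    push_cast
    rw [add_assoc, add_assoc, ← add_smul, e, smul_add, add_comm ((1 / ((N : ℂ) + 1)) • _)]

lemma harm_le (N : ℕ) : ∑ m ∈ Icc 1 N, (1 : ℝ) / m ≤ 1 + Real.log N := by
  have h := harmonic_le_one_add_log N
  rw [harmonic_eq_sum_Icc] at h
  push_cast at h
  simpa [one_div] using h

lemma logmean {E : Set ℕ} (hE : LDZ E) {M : ℝ} {𝓕 : Set (ℕ → F)} (hM : ∀ a ∈ 𝓕, ∀ n, ‖a n‖ ≤ M)
    (h : ∀ ε : ℝ, 0 < ε → ∃ N₀ : ℕ, ∀ N ≥ N₀, N ∉ E → ∀ a ∈ 𝓕, ‖∑ m ∈ Icc 1 N, a m‖ ≤ ε * N) (ε : ℝ) (hε : 0 < ε) :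
    ∃ N₀ : ℕ, ∀ N ≥ N₀, ∀ a ∈ 𝓕, ‖∑ m ∈ Icc 1 N, (1 / (m : ℂ)) • a m‖ ≤ ε * Real.log N := by
  classical
  by_cases hne : 𝓕.Nonempty
  swap
  · refine ⟨0, fun N _ a ha => absurd ⟨a, ha⟩ hne⟩
  have hM0 : 0 ≤ M := by
    obtain ⟨a, ha⟩ := hne
    exact (norm_nonneg _).trans (hM a ha 0)
  obtain ⟨N₁, h1⟩ := h (ε / 4) (by positivity)
  have h2 := hE.eventually (gt_mem_nhds (show (0 : ℝ) < ε / (4 * (M + 1)) by positivity))
  obtain ⟨N₂, hN₂⟩ := eventually_atTop.1 h2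
  have h3 : ∀ᶠ N : ℕ in atTop, M * (N₁ + 1) + ε / 4 ≤ ε / 4 * Real.log N := by
    have h4 := (Real.tendsto_log_atTop.comp tendsto_natCast_atTop_atTop).eventually_ge_atTop
      ((M * (N₁ + 1) + ε / 4) / (ε / 4))
    refine h4.mono fun N hN => ?_
    simp only [Function.comp_apply] at hN
    rw [div_le_iff₀ (by positivity)] at hN
    linarith
  obtain ⟨N₃, hN₃⟩ := eventually_atTop.1 h3
  refine ⟨max 2 (max N₂ N₃), fun N hN a ha => ?_⟩
  have hN2 : 2 ≤ N := le_trans (le_max_left _ _) hN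
  have e2 := hN₂ N (le_trans (le_max_left _ _) (le_trans (le_max_right _ _) hN))
  have e3 := hN₃ N (le_trans (le_max_right _ _) (le_trans (le_max_right _ _) hN))
  have hlog : 0 < Real.log N := Real.log_pos (by exact_mod_cast (by omega : 1 < N))
  have hS : ∀ m : ℕ, ‖∑ k ∈ Icc 1 m, a k‖ ≤ M * m := by
    intro m
    refine (norm_sum_le _ _).trans ?_
    calc ∑ k ∈ Icc 1 m, ‖a k‖ ≤ ∑ _k ∈ Icc 1 m, M := sum_le_sum fun k _ => hM a ha k
      _ = M * m := by rw [sum_const, Nat.card_Icc, nsmul_eq_mul, Nat.add_sub_cancel]; ring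
  rw [abel]
  have e4 : ‖(1 / ((N : ℂ) + 1)) • ∑ k ∈ Icc 1 N, a k‖ ≤ M := by
    rw [norm_smul, norm_div, norm_one]
    have : ‖(N : ℂ) + 1‖ = N + 1 := by
      rw [← Nat.cast_succ, Complex.norm_natCast]; push_cast; rfl
    rw [this, one_div, inv_mul_le_iff₀ (by positivity)]
    refine (hS N).trans ?_
    nlinarith
  have e5 : ∀ m ∈ Icc 1 N, ‖(1 / ((m : ℂ) * (m + 1))) • (∑ k ∈ Icc 1 m, a k)‖ ≤
      (if m < N₁ then M else 0) + ε / 4 * (1 / (m : ℝ)) + M * (if m ∈ E then (1 : ℝ) / m else 0) := by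
    intro m hm
    rw [mem_Icc] at hm
    have hm0 : (0 : ℝ) < m := by exact_mod_cast hm.1
    have e6 : ‖(1 / ((m : ℂ) * (m + 1)))‖ = 1 / ((m : ℝ) * (m + 1)) := by
      rw [norm_div, norm_one, norm_mul, ← Nat.cast_succ, Complex.norm_natCast, Complex.norm_natCast]
      push_cast; rfl
    rw [norm_smul, e6]
    have n1 : 0 ≤ ε / 4 * (1 / (m : ℝ)) := by positivity
    by_cases hmE : m ∈ E
    · rw [if_pos hmE]
      have e7 : 1 / ((m : ℝ) * (m + 1)) * ‖∑ k ∈ Icc 1 m, a k‖ ≤ M * (1 / m) := by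
        calc 1 / ((m : ℝ) * (m + 1)) * ‖∑ k ∈ Icc 1 m, a k‖ ≤ 1 / ((m : ℝ) * (m + 1)) * (M * m) :=
              mul_le_mul_of_nonneg_left (hS m) (by positivity)
          _ = M * (1 / (m + 1)) := by field_simp
          _ ≤ M * (1 / m) := by
              apply mul_le_mul_of_nonneg_left _ hM0
              exact one_div_le_one_div_of_le hm0 (by linarith)
      have : 0 ≤ (if m < N₁ then M else 0) := by split_ifs <;> simp [hM0]
      linarith
    · rw [if_neg hmE, mul_zero, add_zero]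
      by_cases hm1 : m < N₁
      · rw [if_pos hm1]
        have e7 : 1 / ((m : ℝ) * (m + 1)) * ‖∑ k ∈ Icc 1 m, a k‖ ≤ M := by
          calc 1 / ((m : ℝ) * (m + 1)) * ‖∑ k ∈ Icc 1 m, a k‖ ≤ 1 / ((m : ℝ) * (m + 1)) * (M * m) :=
                mul_le_mul_of_nonneg_left (hS m) (by positivity)
            _ = M * (1 / (m + 1)) := by field_simp
            _ ≤ M * 1 := by
                apply mul_le_mul_of_nonneg_left _ hM0
                rw [div_le_one (by positivity)]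
                linarith
            _ = M := mul_one _
        linarith
      · rw [if_neg hm1, zero_add]
        calc 1 / ((m : ℝ) * (m + 1)) * ‖∑ k ∈ Icc 1 m, a k‖ ≤ 1 / ((m : ℝ) * (m + 1)) * (ε / 4 * m) :=
              mul_le_mul_of_nonneg_left (h1 m (by omega) hmE a ha) (by positivity)
          _ = ε / 4 * (1 / (m + 1)) := by field_simp
          _ ≤ ε / 4 * (1 / m) := by
              apply mul_le_mul_of_nonneg_left _ (by positivity)
              exact one_div_le_one_div_of_le hm0 (by linarith)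
  have e8 : ∑ m ∈ Icc 1 N, (if m < N₁ then M else 0) ≤ M * N₁ := by
    rw [← sum_filter, sum_const, nsmul_eq_mul, mul_comm]
    apply mul_le_mul_of_nonneg_left _ hM0
    have : ((Icc 1 N).filter fun m => m < N₁) ⊆ range N₁ := by
      intro m hm
      rw [mem_filter] at hm
      exact mem_range.2 hm.2
    have := card_le_card this
    rw [card_range] at this
    exact_mod_cast this
  have e9 : M * ∑ m ∈ Icc 1 N, (if m ∈ E then (1 : ℝ) / m else 0) ≤ ε / 4 * Real.log N := by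
    rw [div_lt_iff₀ hlog] at e2
    have hsum : 0 ≤ ∑ m ∈ Icc 1 N, (if m ∈ E then (1 : ℝ) / m else 0) :=
      sum_nonneg fun m _ => by split_ifs <;> positivity
    calc M * ∑ m ∈ Icc 1 N, (if m ∈ E then (1 : ℝ) / m else 0) ≤ (M + 1) * (ε / (4 * (M + 1)) * Real.log N) := by
          apply mul_le_mul (by linarith) e2.le hsum (by positivity)
      _ = _ := by field_simp
  calc _ ≤ ‖∑ m ∈ Icc 1 N, (1 / ((m : ℂ) * (m + 1))) • (∑ k ∈ Icc 1 m, a k)‖ + M :=
        (norm_add_le _ _).trans (add_le_add le_rfl e4)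
    _ ≤ ∑ m ∈ Icc 1 N, ((if m < N₁ then M else 0) + ε / 4 * (1 / (m : ℝ)) + M * (if m ∈ E then (1 : ℝ) / m else 0)) + M :=
        add_le_add ((norm_sum_le _ _).trans (sum_le_sum e5)) le_rfl
    _ ≤ M * N₁ + ε / 4 * (1 + Real.log N) + ε / 4 * Real.log N + M := by
        rw [sum_add_distrib, sum_add_distrib, ← mul_sum, ← mul_sum]
        have := mul_le_mul_of_nonneg_left (harm_le N) (show 0 ≤ ε / 4 by positivity)
        linarith
    _ ≤ _ := by nlinarith

end

end Pool.Agent.R296.SM
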