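import Pool.Agent.R296.SM.Fin
import Pool.Agent.H905R2.Kad5.G3
import Pool.Agent.H275R2.Kad5.Univ
import Pool.Agent.H29R2.Kad5.Jord
import Pool.Agent.H204R2.Kad5.GNS

set_option autoImplicit false

/-! # Functionals as vector functionals -/

namespace Pool.Agent.R296.SM

open Finset MeasureTheory Filter Topology
open scoped ComplexOrder

noncomputable section

universe u

/-- the second component of the unitization is bounded -/
lemma norm_snd_le {A : Type u} [NonUnitalCStarAlgebra A] (x : Unitization ℂ A) : ‖x.snd‖ ≤ 2 * ‖x‖ := by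
  have h1 : ‖x.fst‖ ≤ ‖x‖ := by
    rw [Unitization.norm_eq_sup]
    exact le_max_left _ _
  have h2 : (Unitization.inr x.snd : Unitization ℂ A) = x - Unitization.inl x.fst :=
    eq_sub_of_add_eq' (Unitization.inl_fst_add_inr_snd_eq x)
  calc ‖x.snd‖ = ‖(Unitization.inr x.snd : Unitization ℂ A)‖ := (Unitization.norm_inr (𝕜 := ℂ) x.snd).symm
    _ ≤ ‖x‖ + ‖(Unitization.inl x.fst : Unitization ℂ A)‖ := by rw [h2]; exact norm_sub_le _ _
    _ ≤ ‖x‖ + ‖x.fst‖ := by
        gcongr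
        rw [← Unitization.algebraMap_eq_inl, norm_algebraMap']
    _ ≤ _ := by linarith

/-- bounded functionals are vector functionals -/
lemma exists_vec (A : Type u) [NonUnitalCStarAlgebra A] (ρ : A →L[ℂ] ℂ) :
    ∃ (K : Type u) (_ : NormedAddCommGroup K) (_ : InnerProductSpace ℂ K) (_ : CompleteSpace K)
      (π : A →⋆ₙₐ[ℂ] (K →L[ℂ] K)) (ζ ω : K), ∀ a, ρ a = inner ℂ ζ (π a ω) := by
  obtain ⟨K, i1, i2, i3, π, hπ⟩ := H759R2.Kad.prove7_rep H759R2.Kad.prove7_jord
    (H759R2.Kad.prove7_univ H759R2.Kad.prove7_gns) (Unitization ℂ A)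
  obtain ⟨ζ, ω, hρ, -⟩ := hπ
    { toFun := fun x => ρ x.snd
      map_add' := fun x y => by simp
      map_smul' := fun c x => by simp } (2 * ‖ρ‖) (by positivity) (fun a => by
        show ‖ρ a.snd‖ ≤ _
        refine (ρ.le_opNorm _).trans ?_
        have := mul_le_mul_of_nonneg_left (norm_snd_le a) (norm_nonneg ρ)
        linarith)
  refine ⟨K, i1, i2, i3, (π : Unitization ℂ A →⋆ₙₐ[ℂ] (K →L[ℂ] K)).comp (Unitization.inrNonUnitalStarAlgHom ℂ A), ζ, ω, fun a => ?_⟩
  have := hρ (Unitization.inr a)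
  simpa using this

/-- positive functionals on a unital algebra come from a vector of a representation -/
lemma exists_gns (B : Type u) [CStarAlgebra B] (ρ : B →L[ℂ] ℂ) (hρ : ∀ a, 0 ≤ ρ (star a * a)) :
    ∃ (K : Type u) (_ : NormedAddCommGroup K) (_ : InnerProductSpace ℂ K) (_ : CompleteSpace K)
      (π : B →⋆ₐ[ℂ] (K →L[ℂ] K)) (ξ : K), ∀ a, inner ℂ ξ (π a ξ) = ρ a := by
  obtain ⟨K, i1, i2, i3, π, Ω, h, -⟩ := (H759R2.Kad.prove7_univ H759R2.Kad.prove7_gns) B PUnit
    (fun _ => ρ.toLinearMap) (fun _ a => hρ a)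
  exact ⟨K, i1, i2, i3, π, Ω PUnit.unit, fun a => h PUnit.unit a⟩

end

end Pool.Agent.R296.SM
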