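import Mathlib

set_option autoImplicit false

/-! # Windows sums of weighted vectors: the deterministic inequality -/

namespace Pool.Agent.R296.SM

open Finset MeasureTheory Filter Topology

noncomputable section

variable {E : Type*} [NormedAddCommGroup E] [NormedSpace ℂ E]

/-- shifting the window -/
lemma sum_Ioc_shift (F : ℤ → E) (a b k : ℤ) :
    ∑ m ∈ Ioc a b, F (m + k) = ∑ m ∈ Ioc (a + k) (b + k), F m := by
  rw [← Finset.image_add_right_Ioc, Finset.sum_image]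
  intro x _ y _ h
  exact add_right_cancel h

lemma sum_Ioc_one (F : ℤ → E) (a b : ℤ) (hab : a ≤ b) :
    ∑ m ∈ Ioc (a + 1) (b + 1), F m = ∑ m ∈ Ioc a b, F m + F (b + 1) - F (a + 1) := by
  have h1 : Ioc a (b + 1) = insert (b + 1) (Ioc a b) := by
    ext x; simp only [mem_Ioc, mem_insert]; omega
  have h2 : Ioc a (b + 1) = insert (a + 1) (Ioc (a + 1) (b + 1)) := by
    ext x; simp only [mem_Ioc, mem_insert]; omega
  have h3 : ∑ m ∈ Ioc a (b + 1), F m = F (b + 1) + ∑ m ∈ Ioc a b, F m := by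
    rw [h1, sum_insert (by simp)]
  have h4 : ∑ m ∈ Ioc a (b + 1), F m = F (a + 1) + ∑ m ∈ Ioc (a + 1) (b + 1), F m := by
    rw [h2, sum_insert (by simp)]
  rw [h3] at h4
  rw [eq_sub_iff_add_eq, add_comm _ (F (a + 1)), ← h4, add_comm]

/-- moving the window changes the sum by little -/
lemma moving (F : ℤ → E) (M : ℝ) (hF : ∀ m, ‖F m‖ ≤ M) (a b : ℤ) (hab : a ≤ b) (k : ℕ) :
    ‖∑ m ∈ Ioc (a + k) (b + k), F m - ∑ m ∈ Ioc a b, F m‖ ≤ 2 * k * M := by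
  induction k with
  | zero => simp
  | succ k ih =>
    have h1 := sum_Ioc_one F (a + k) (b + k) (by omega)
    push_cast
    rw [← add_assoc, ← add_assoc, h1]
    have h2 : ∑ m ∈ Ioc (a + k) (b + k), F m + F (b + k + 1) - F (a + k + 1) - ∑ m ∈ Ioc a b, F m
        = (∑ m ∈ Ioc (a + k) (b + k), F m - ∑ m ∈ Ioc a b, F m) + (F (b + k + 1) - F (a + k + 1)) := by
      abel
    rw [h2]
    refine (norm_add_le _ _).trans ?_
    have h3 : ‖F (b + k + 1) - F (a + k + 1)‖ ≤ M + M := (norm_sub_le _ _).trans (add_le_add (hF _) (hF _))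
    linarith

lemma moving' (F : ℤ → E) (M : ℝ) (hF : ∀ m, ‖F m‖ ≤ M) (a b : ℤ) (hab : a ≤ b) (k : ℤ) (D : ℕ)
    (hk : |k| ≤ D) :
    ‖∑ m ∈ Ioc (a + k) (b + k), F m - ∑ m ∈ Ioc a b, F m‖ ≤ 2 * D * M := by
  have hM : 0 ≤ M := (norm_nonneg _).trans (hF 0)
  rcases Int.le_total 0 k with h | h
  · obtain ⟨n, rfl⟩ := Int.eq_ofNat_of_zero_le h
    have hn : (n : ℝ) ≤ D := by
      rw [abs_of_nonneg h] at hk
      exact_mod_cast hk
    refine (moving F M hF a b hab n).trans ?_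
    gcongr
  · obtain ⟨n, hn⟩ := Int.eq_ofNat_of_zero_le (Int.neg_nonneg_of_nonpos h)
    have hkn : k = -n := by omega
    have hn' : (n : ℝ) ≤ D := by
      rw [hkn, abs_neg, abs_of_nonneg (by positivity)] at hk
      exact_mod_cast hk
    have h1 := moving F M hF (a + k) (b + k) (by omega) n
    have e1 : a + k + n = a := by omega
    have e2 : b + k + n = b := by omega
    rw [e1, e2, ← norm_neg, neg_sub] at h1
    refine h1.trans ?_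
    gcongr

/-- Cauchy-Schwarz for vector sums -/
lemma norm_sum_sq_le (s : Finset ℤ) (h : ℤ → ℂ) (z : ℤ → E) :
    ‖∑ m ∈ s, h m • z m‖ ^ 2 ≤ (∑ m ∈ s, ‖h m‖ ^ 2) * ∑ m ∈ s, ‖z m‖ ^ 2 := by
  have h1 : ‖∑ m ∈ s, h m • z m‖ ≤ ∑ m ∈ s, ‖h m‖ * ‖z m‖ :=
    (norm_sum_le _ _).trans (le_of_eq (sum_congr rfl fun m _ => norm_smul _ _))
  calc ‖∑ m ∈ s, h m • z m‖ ^ 2 ≤ (∑ m ∈ s, ‖h m‖ * ‖z m‖) ^ 2 := by
        gcongr
    _ ≤ _ := Finset.sum_mul_sq_le_sq_mul_sq _ _ _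

lemma card_Ioc_window (x : ℤ) (H : ℕ) : ((Ioc x (x + H)).card : ℝ) = H := by
  rw [Int.card_Ioc]
  have : (x + H - x).toNat = H := by omega
  rw [this]

/-- each point is in at most `H` windows -/
lemma windows_sum (F : ℤ → ℝ) (hF : ∀ m, 0 ≤ F m) (X H : ℕ) :
    ∑ x ∈ range X, ∑ m ∈ Ioc (x : ℤ) (x + H), F m ≤ H * ∑ m ∈ Ioc (0 : ℤ) (X + H), F m := by
  classical
  have h1 : ∀ x ∈ range X, ∑ m ∈ Ioc (x : ℤ) (x + H), F m =
      ∑ m ∈ Ioc (0 : ℤ) (X + H), if m ∈ Ioc (x : ℤ) (x + H) then F m else 0 := by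
    intro x hx
    rw [mem_range] at hx
    rw [← sum_filter]
    congr 1
    ext m
    simp only [mem_filter, mem_Ioc]
    omega
  rw [sum_congr rfl h1, sum_comm, mul_sum]
  refine sum_le_sum fun m _ => ?_
  rw [← sum_filter, sum_const, nsmul_eq_mul]
  refine mul_le_mul_of_nonneg_right ?_ (hF m)
  have h2 : ((range X).filter fun x : ℕ => m ∈ Ioc (x : ℤ) (x + H)).card ≤ H := by
    have h3 : ((range X).filter fun x : ℕ => m ∈ Ioc (x : ℤ) (x + H)).card ≤ (Ico (m - H) m).card := by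
      refine card_le_card_of_injOn (fun x : ℕ => (x : ℤ)) ?_ ?_
      · intro x hx
        simp only [coe_filter, mem_range, mem_Ioc, Set.mem_ofPred_eq] at hx
        simp only [coe_Ico, Set.mem_Ico]
        omega
      · intro x _ y _ h
        simpa using h
    rw [Int.card_Ico] at h3
    omega
  exact_mod_cast h2

/-- the filtered weight -/
def gw (S : Finset ℤ) (c : ℤ → ℂ) (h : ℤ → ℂ) (m : ℤ) : ℂ := ∑ k ∈ S, c k * h (m - k)

/-- the remainder -/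
def zw (S : Finset ℤ) (c : ℤ → ℂ) (y : ℤ → E) (m : ℤ) : E := y m - ∑ k ∈ S, c k • y (m + k)

lemma gw_le (S : Finset ℤ) (c : ℤ → ℂ) (h : ℤ → ℂ) (hh : ∀ m, ‖h m‖ ≤ 1) (m : ℤ) :
    ‖gw S c h m‖ ≤ ∑ k ∈ S, ‖c k‖ := by
  unfold gw
  refine (norm_sum_le _ _).trans (sum_le_sum fun k _ => ?_)
  rw [norm_mul]
  exact mul_le_of_le_one_right (norm_nonneg _) (hh _)

lemma zw_le (S : Finset ℤ) (c : ℤ → ℂ) (y : ℤ → E) (B : ℝ) (hy : ∀ m, ‖y m‖ ≤ B) (m : ℤ) :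
    ‖zw S c y m‖ ≤ B * (1 + ∑ k ∈ S, ‖c k‖) := by
  unfold zw
  refine (norm_sub_le _ _).trans ?_
  have h1 : ‖∑ k ∈ S, c k • y (m + k)‖ ≤ ∑ k ∈ S, ‖c k‖ * B := by
    refine (norm_sum_le _ _).trans (sum_le_sum fun k _ => ?_)
    rw [norm_smul]
    exact mul_le_mul_of_nonneg_left (hy _) (norm_nonneg _)
  rw [← sum_mul] at h1
  have := hy m
  linarith

/-- one window -/
lemma window_eq (S : Finset ℤ) (c : ℤ → ℂ) (D : ℕ) (hD : ∀ k ∈ S, |k| ≤ (D : ℤ)) (h : ℤ → ℂ) (hh : ∀ m, ‖h m‖ ≤ 1)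
    (y : ℤ → E) (B : ℝ) (hy : ∀ m, ‖y m‖ ≤ B) (x : ℤ) (H : ℕ) :
    ∃ r : E, ‖r‖ ≤ 2 * D * B * ∑ k ∈ S, ‖c k‖ ∧
      ∑ m ∈ Ioc x (x + H), h m • y m = ∑ m ∈ Ioc x (x + H), h m • zw S c y m +
        ∑ m ∈ Ioc x (x + H), gw S c h m • y m + r := by
  have hB : 0 ≤ B := (norm_nonneg _).trans (hy 0)
  refine ⟨∑ k ∈ S, c k • (∑ m ∈ Ioc (x + k) (x + H + k), h (m - k) • y m -
    ∑ m ∈ Ioc x (x + H), h (m - k) • y m), ?_, ?_⟩
  · refine (norm_sum_le _ _).trans ?_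
    rw [mul_sum]
    refine sum_le_sum fun k hk => ?_
    rw [norm_smul, mul_comm]
    refine mul_le_mul_of_nonneg_right ?_ (norm_nonneg _)
    refine moving' (fun m => h (m - k) • y m) B (fun m => ?_) x (x + H) (by omega) k D (hD k hk)
    rw [norm_smul]
    calc ‖h (m - k)‖ * ‖y m‖ ≤ 1 * B := mul_le_mul (hh _) (hy _) (norm_nonneg _) zero_le_one
      _ = B := one_mul B
  · have h1 : ∑ m ∈ Ioc x (x + H), h m • y m = ∑ m ∈ Ioc x (x + H), h m • zw S c y m +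
        ∑ m ∈ Ioc x (x + H), h m • ∑ k ∈ S, c k • y (m + k) := by
      rw [← sum_add_distrib]
      refine sum_congr rfl fun m _ => ?_
      rw [← smul_add, zw, sub_add_cancel]
    have h2 : ∑ m ∈ Ioc x (x + H), h m • ∑ k ∈ S, c k • y (m + k) =
        ∑ k ∈ S, c k • ∑ m ∈ Ioc (x + k) (x + H + k), h (m - k) • y m := by
      have h3 : ∀ k ∈ S, c k • ∑ m ∈ Ioc (x + k) (x + H + k), h (m - k) • y m =
          ∑ m ∈ Ioc x (x + H), c k • h m • y (m + k) := by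
        intro k _
        have h4 := sum_Ioc_shift (fun m => h (m - k) • y m) x (x + H) k
        rw [← h4, smul_sum]
        refine sum_congr rfl fun m _ => ?_
        simp only [add_sub_cancel_right]
      rw [sum_congr rfl h3, sum_comm]
      refine sum_congr rfl fun m _ => ?_
      rw [smul_sum]
      exact sum_congr rfl fun k _ => smul_comm _ _ _
    have h5 : ∑ m ∈ Ioc x (x + H), gw S c h m • y m =
        ∑ k ∈ S, c k • ∑ m ∈ Ioc x (x + H), h (m - k) • y m := by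
      simp_rw [gw, sum_smul, smul_sum]
      rw [sum_comm]
      refine sum_congr rfl fun k _ => sum_congr rfl fun m _ => ?_
      rw [mul_smul]
    rw [h1, h2, h5, add_assoc]
    congr 1
    rw [← sum_add_distrib]
    refine sum_congr rfl fun k _ => ?_
    rw [← smul_add]
    congr 1
    abel

lemma sq_three (a b c : ℝ) : (a + b + c) ^ 2 ≤ 3 * (a ^ 2 + b ^ 2 + c ^ 2) := by
  nlinarith [sq_nonneg (a - b), sq_nonneg (b - c), sq_nonneg (a - c)]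

/-- all windows -/
theorem windows_le (S : Finset ℤ) (c : ℤ → ℂ) (D : ℕ) (hD : ∀ k ∈ S, |k| ≤ (D : ℤ)) (h : ℤ → ℂ)
    (hh : ∀ m, ‖h m‖ ≤ 1) (y : ℤ → E) (B : ℝ) (hy : ∀ m, ‖y m‖ ≤ B) (X H : ℕ) :
    ∑ x ∈ range X, ‖∑ m ∈ Ioc (x : ℤ) (x + H), h m • y m‖ ^ 2 ≤
      3 * (H ^ 2 * ∑ m ∈ Ioc (0 : ℤ) (X + H), ‖zw S c y m‖ ^ 2 +
        H ^ 2 * B ^ 2 * ∑ m ∈ Ioc (0 : ℤ) (X + H), ‖gw S c h m‖ ^ 2 +
        X * (2 * D * B * ∑ k ∈ S, ‖c k‖) ^ 2) := by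
  have hB : 0 ≤ B := (norm_nonneg _).trans (hy 0)
  have h1 : ∀ x : ℕ, ‖∑ m ∈ Ioc (x : ℤ) (x + H), h m • y m‖ ^ 2 ≤
      3 * (H * ∑ m ∈ Ioc (x : ℤ) (x + H), ‖zw S c y m‖ ^ 2 +
        H * B ^ 2 * ∑ m ∈ Ioc (x : ℤ) (x + H), ‖gw S c h m‖ ^ 2 + (2 * D * B * ∑ k ∈ S, ‖c k‖) ^ 2) := by
    intro x
    obtain ⟨r, hr, e⟩ := window_eq S c D hD h hh y B hy (x : ℤ) H
    rw [e]
    have a1 : ‖∑ m ∈ Ioc (x : ℤ) (x + H), h m • zw S c y m‖ ^ 2 ≤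
        H * ∑ m ∈ Ioc (x : ℤ) (x + H), ‖zw S c y m‖ ^ 2 := by
      refine (norm_sum_sq_le _ _ _).trans ?_
      refine mul_le_mul_of_nonneg_right ?_ (sum_nonneg fun _ _ => sq_nonneg _)
      calc ∑ m ∈ Ioc (x : ℤ) (x + H), ‖h m‖ ^ 2 ≤ ∑ _m ∈ Ioc (x : ℤ) (x + H), (1 : ℝ) :=
            sum_le_sum fun m _ => pow_le_one₀ (norm_nonneg _) (hh m)
        _ = H := by rw [sum_const, nsmul_eq_mul, mul_one, card_Ioc_window]
    have a2 : ‖∑ m ∈ Ioc (x : ℤ) (x + H), gw S c h m • y m‖ ^ 2 ≤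
        H * B ^ 2 * ∑ m ∈ Ioc (x : ℤ) (x + H), ‖gw S c h m‖ ^ 2 := by
      refine (norm_sum_sq_le _ _ _).trans ?_
      rw [mul_comm]
      refine mul_le_mul_of_nonneg_right ?_ (sum_nonneg fun _ _ => sq_nonneg _)
      calc ∑ m ∈ Ioc (x : ℤ) (x + H), ‖y m‖ ^ 2 ≤ ∑ _m ∈ Ioc (x : ℤ) (x + H), B ^ 2 :=
            sum_le_sum fun m _ => pow_le_pow_left₀ (norm_nonneg _) (hy m) 2
        _ = H * B ^ 2 := by rw [sum_const, nsmul_eq_mul, card_Ioc_window]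
    have a3 : ‖r‖ ^ 2 ≤ (2 * D * B * ∑ k ∈ S, ‖c k‖) ^ 2 := pow_le_pow_left₀ (norm_nonneg _) hr 2
    have a4 := norm_add₃_le (a := ∑ m ∈ Ioc (x : ℤ) (x + H), h m • zw S c y m)
      (b := ∑ m ∈ Ioc (x : ℤ) (x + H), gw S c h m • y m) (c := r)
    have a5 := pow_le_pow_left₀ (norm_nonneg _) a4 2
    refine a5.trans ((sq_three _ _ _).trans ?_)
    linarith
  calc ∑ x ∈ range X, ‖∑ m ∈ Ioc (x : ℤ) (x + H), h m • y m‖ ^ 2 ≤
      ∑ x ∈ range X, 3 * (H * ∑ m ∈ Ioc (x : ℤ) (x + H), ‖zw S c y m‖ ^ 2 +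
        H * B ^ 2 * ∑ m ∈ Ioc (x : ℤ) (x + H), ‖gw S c h m‖ ^ 2 + (2 * D * B * ∑ k ∈ S, ‖c k‖) ^ 2) :=
        sum_le_sum fun x _ => h1 x
    _ = 3 * (H * ∑ x ∈ range X, ∑ m ∈ Ioc (x : ℤ) (x + H), ‖zw S c y m‖ ^ 2 +
        H * B ^ 2 * ∑ x ∈ range X, ∑ m ∈ Ioc (x : ℤ) (x + H), ‖gw S c h m‖ ^ 2 +
          X * (2 * D * B * ∑ k ∈ S, ‖c k‖) ^ 2) := by
        rw [← mul_sum, sum_add_distrib, sum_add_distrib, ← mul_sum, ← mul_sum, sum_const, card_range,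
          nsmul_eq_mul]
    _ ≤ _ := by
        have b1 := windows_sum (fun m => ‖zw S c y m‖ ^ 2) (fun m => sq_nonneg _) X H
        have b2 := windows_sum (fun m => ‖gw S c h m‖ ^ 2) (fun m => sq_nonneg _) X H
        have c1 : (H : ℝ) * ∑ x ∈ range X, ∑ m ∈ Ioc (x : ℤ) (x + H), ‖zw S c y m‖ ^ 2 ≤
            H ^ 2 * ∑ m ∈ Ioc (0 : ℤ) (X + H), ‖zw S c y m‖ ^ 2 := by
          calc _ ≤ (H : ℝ) * (H * ∑ m ∈ Ioc (0 : ℤ) (X + H), ‖zw S c y m‖ ^ 2) :=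
                mul_le_mul_of_nonneg_left b1 (Nat.cast_nonneg _)
            _ = _ := by ring
        have c2 : (H : ℝ) * B ^ 2 * ∑ x ∈ range X, ∑ m ∈ Ioc (x : ℤ) (x + H), ‖gw S c h m‖ ^ 2 ≤
            H ^ 2 * B ^ 2 * ∑ m ∈ Ioc (0 : ℤ) (X + H), ‖gw S c h m‖ ^ 2 := by
          calc _ ≤ (H : ℝ) * B ^ 2 * (H * ∑ m ∈ Ioc (0 : ℤ) (X + H), ‖gw S c h m‖ ^ 2) :=
                mul_le_mul_of_nonneg_left b2 (by positivity)
            _ = _ := by ring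
        linarith

/-- the part beyond `X` -/
lemma tail_le (F : ℤ → ℝ) (M : ℝ) (hF : ∀ m, F m ≤ M) (X H : ℕ) :
    ∑ m ∈ Ioc (0 : ℤ) (X + H), F m ≤ ∑ m ∈ Ioc (0 : ℤ) X, F m + H * M := by
  have h1 : Ioc (0 : ℤ) (X + H) = Ioc 0 (X : ℤ) ∪ Ioc (X : ℤ) (X + H) := by
    ext m; simp only [mem_Ioc, mem_union]; omega
  have h2 : Disjoint (Ioc 0 (X : ℤ)) (Ioc (X : ℤ) (X + H)) := by
    rw [disjoint_left]
    intro m hm hm'
    rw [mem_Ioc] at hm hm'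
    omega
  rw [h1, sum_union h2]
  have h3 : ∑ m ∈ Ioc (X : ℤ) (X + H), F m ≤ H * M := by
    calc ∑ m ∈ Ioc (X : ℤ) (X + H), F m ≤ ∑ _m ∈ Ioc (X : ℤ) (X + H), M := sum_le_sum fun m _ => hF m
      _ = H * M := by rw [sum_const, nsmul_eq_mul, card_Ioc_window]
  linarith

end

end Pool.Agent.R296.SM
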