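import Pool.Agent.R296.SM.Ovc
import Pool.Agent.R296.SM.Fin
import Pool.Agent.R296.SM.Lg

set_option autoImplicit false

/-! # Cocycles over almost periodic endomorphisms -/

namespace Pool.Agent.R296.SM

open Finset Filter Topology
open scoped Matrix

noncomputable section

universe u

variable {A : Type u} [CStarAlgebra A] (α : A →⋆ₐ[ℂ] A)

/-- eigenvectors with eigenvalue of modulus one -/
def Eig : Set A := {c | ∃ l : ℂ, ‖l‖ = 1 ∧ α c = l • c}

/-- the closed algebra generated by the eigenvectors -/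
def APs : Subalgebra ℂ A := (Algebra.adjoin ℂ (Eig α)).topologicalClosure

lemma pow_eig {c : A} {l : ℂ} (h : α c = l • c) (n : ℕ) : (α ^ n) c = l ^ n • c := by
  induction n with
  | zero => rw [pow_zero, pow_zero, one_smul]; rfl
  | succ n ih =>
    rw [pow_succ]
    show (α ^ n) (α c) = _
    rw [h, map_smul, ih, smul_smul, pow_succ, mul_comm]

lemma pow_add_apply (m n : ℕ) (x : A) : (α ^ (m + n)) x = (α ^ m) ((α ^ n) x) := by
  rw [pow_add]; rfl

lemma norm_pow_le' (n : ℕ) (x : A) : ‖(α ^ n) x‖ ≤ ‖x‖ := NonUnitalStarAlgHom.norm_apply_le (α ^ n) x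

lemma APs_map {x : A} (hx : x ∈ APs α) (n : ℕ) : (α ^ n) x ∈ APs α := by
  have hc : Continuous (α ^ n) := by
    refine AddMonoidHomClass.continuous_of_bound (α ^ n) 1 fun x => ?_
    rw [one_mul]
    exact norm_pow_le' α n x
  have h1 : Algebra.adjoin ℂ (Eig α) ≤ (Algebra.adjoin ℂ (Eig α)).comap ((α ^ n : A →⋆ₐ[ℂ] A) : A →ₐ[ℂ] A) := by
    rw [Algebra.adjoin_le_iff]
    rintro c ⟨l, hl, hlc⟩
    show (α ^ n) c ∈ Algebra.adjoin ℂ (Eig α)
    rw [pow_eig α hlc]
    exact Subalgebra.smul_mem _ (Algebra.subset_adjoin (show c ∈ Eig α from ⟨l, hl, hlc⟩)) _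
  have h2 : (α ^ n) x ∈ closure ((α ^ n) '' (Algebra.adjoin ℂ (Eig α) : Set A)) :=
    image_closure_subset_closure_image hc ⟨x, hx, rfl⟩
  refine closure_mono ?_ h2
  rintro _ ⟨y, hy, rfl⟩
  exact h1 hy

/-- the span of the eigenvectors -/
lemma adjoin_eig {x : A} (hx : x ∈ Algebra.adjoin ℂ (Eig α)) : x ∈ Submodule.span ℂ (Eig α) := by
  have h1 : x ∈ Submodule.span ℂ (Submonoid.closure (Eig α) : Set A) := by
    rw [← Algebra.adjoin_eq_span]
    exact hx
  have h2 : (Submonoid.closure (Eig α) : Set A) ⊆ Eig α := by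
    let S : Submonoid A := {
      carrier := Eig α
      one_mem' := ⟨1, norm_one, by rw [map_one, one_smul]⟩
      mul_mem' := by
        rintro a b ⟨l, hl, ha⟩ ⟨l', hl', hb⟩
        refine ⟨l * l', by rw [norm_mul, hl, hl', one_mul], ?_⟩
        rw [map_mul, ha, hb, smul_mul_smul_comm] }
    have : Submonoid.closure (Eig α) ≤ S := Submonoid.closure_le.2 (fun x hx => hx)
    exact this
  exact Submodule.span_mono h2 h1

/-! ### averages of almost periodic elements against the correlations -/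

/-- the correlations of `f` kill the orbit of `p` -/
def Kil (E : Set ℕ) (f : ℕ → ℤ) (p : A) : Prop :=
  ∀ k : ℕ, 1 ≤ k → ∀ ε : ℝ, 0 < ε → ∃ N₀ : ℕ, ∀ N : ℕ, N₀ ≤ N → N ∉ E →
    ‖∑ n ∈ range N, ((f n : ℂ) * f (n + k)) • (α ^ n) p‖ ≤ ε * N

/-- the hypothesis on the weight -/
def Wt (E : Set ℕ) (f : ℕ → ℤ) : Prop :=
  ∀ k : ℕ, 1 ≤ k → ∀ ε : ℝ, 0 < ε → ∃ N₀ : ℕ, ∀ N : ℕ, N₀ ≤ N → N ∉ E → ∀ l : ℂ, ‖l‖ = 1 →
    ‖∑ n ∈ range N, ((f n : ℂ) * f (n + k)) * l ^ n‖ ≤ ε * N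

variable {E : Set ℕ} {f : ℕ → ℤ} {α}

lemma Kil.eig (hw : Wt E f) {c : A} (hc : c ∈ Eig α) : Kil α E f c := by
  obtain ⟨l, hl, hc⟩ := hc
  intro k hk ε hε
  obtain ⟨N₀, h1⟩ := hw k hk (ε / (‖c‖ + 1)) (by positivity)
  refine ⟨N₀, fun N hN hNE => ?_⟩
  have e1 : ∑ n ∈ range N, ((f n : ℂ) * f (n + k)) • (α ^ n) c =
      (∑ n ∈ range N, ((f n : ℂ) * f (n + k)) * l ^ n) • c := by
    rw [sum_smul]
    refine sum_congr rfl fun n _ => ?_
    rw [pow_eig α hc, smul_smul]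
  rw [e1, norm_smul]
  calc _ ≤ ε / (‖c‖ + 1) * N * ‖c‖ := mul_le_mul_of_nonneg_right (h1 N hN hNE l hl) (norm_nonneg _)
    _ = ε * N * (‖c‖ / (‖c‖ + 1)) := by ring
    _ ≤ ε * N * 1 := by
        apply mul_le_mul_of_nonneg_left _ (by positivity)
        rw [div_le_one (by positivity)]
        linarith
    _ = _ := mul_one _

lemma Kil.zero : Kil α E f (0 : A) := by
  intro k _ ε hε
  refine ⟨0, fun N _ _ => ?_⟩
  simp only [map_zero, smul_zero, sum_const_zero, norm_zero]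
  positivity

lemma Kil.add {a b : A} (ha : Kil α E f a) (hb : Kil α E f b) : Kil α E f (a + b) := by
  intro k hk ε hε
  obtain ⟨N₁, h1⟩ := ha k hk (ε / 2) (by positivity)
  obtain ⟨N₂, h2⟩ := hb k hk (ε / 2) (by positivity)
  refine ⟨max N₁ N₂, fun N hN hNE => ?_⟩
  simp_rw [map_add, smul_add, sum_add_distrib]
  have e1 := h1 N (le_trans (le_max_left _ _) hN) hNE
  have e2 := h2 N (le_trans (le_max_right _ _) hN) hNE
  exact (norm_add_le _ _).trans (by linarith)

lemma Kil.smul {a : A} (ha : Kil α E f a) (c : ℂ) : Kil α E f (c • a) := by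
  intro k hk ε hε
  obtain ⟨N₁, h1⟩ := ha k hk (ε / (‖c‖ + 1)) (by positivity)
  refine ⟨N₁, fun N hN hNE => ?_⟩
  have e1 := h1 N hN hNE
  simp_rw [map_smul, smul_comm _ c, ← smul_sum]
  rw [norm_smul]
  calc _ ≤ ‖c‖ * (ε / (‖c‖ + 1) * N) := mul_le_mul_of_nonneg_left e1 (norm_nonneg _)
    _ = ε * N * (‖c‖ / (‖c‖ + 1)) := by ring
    _ ≤ ε * N * 1 := by
        apply mul_le_mul_of_nonneg_left _ (by positivity)
        rw [div_le_one (by positivity)]
        linarith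
    _ = _ := mul_one _

lemma Kil.lim (hf : ∀ n, |f n| ≤ 1) {a : A} (h : ∀ η : ℝ, 0 < η → ∃ b : A, Kil α E f b ∧ ‖a - b‖ ≤ η) :
    Kil α E f a := by
  intro k hk ε hε
  obtain ⟨b, hb, hab⟩ := h (ε / 2) (by positivity)
  obtain ⟨N₁, h1⟩ := hb k hk (ε / 2) (by positivity)
  refine ⟨N₁, fun N hN hNE => ?_⟩
  have e1 := h1 N hN hNE
  have e2 : ∑ n ∈ range N, ((f n : ℂ) * f (n + k)) • (α ^ n) a =
      ∑ n ∈ range N, ((f n : ℂ) * f (n + k)) • (α ^ n) b +
      ∑ n ∈ range N, ((f n : ℂ) * f (n + k)) • (α ^ n) (a - b) := by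
    rw [← sum_add_distrib]
    refine sum_congr rfl fun n _ => ?_
    rw [← smul_add, ← map_add, add_sub_cancel]
  have hf1 : ∀ n, ‖(f n : ℂ)‖ ≤ 1 := by
    intro n
    rw [Complex.norm_intCast]
    exact_mod_cast hf n
  have e3 : ‖∑ n ∈ range N, ((f n : ℂ) * f (n + k)) • (α ^ n) (a - b)‖ ≤ N * (ε / 2) := by
    refine (norm_sum_le _ _).trans ?_
    calc ∑ n ∈ range N, ‖((f n : ℂ) * f (n + k)) • (α ^ n) (a - b)‖ ≤ ∑ _n ∈ range N, ε / 2 := by
          refine sum_le_sum fun n _ => ?_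
          rw [norm_smul, norm_mul]
          calc ‖(f n : ℂ)‖ * ‖(f (n + k) : ℂ)‖ * ‖(α ^ n) (a - b)‖ ≤ 1 * 1 * (ε / 2) :=
                mul_le_mul (mul_le_mul (hf1 _) (hf1 _) (norm_nonneg _) zero_le_one)
                  ((norm_pow_le' α n _).trans hab) (norm_nonneg _) (by norm_num)
            _ = ε / 2 := by ring
      _ = _ := by rw [sum_const, card_range, nsmul_eq_mul]
  rw [e2]
  refine (norm_add_le _ _).trans ?_
  linarith

lemma Kil.ap (hf : ∀ n, |f n| ≤ 1) (hw : Wt E f) {p : A} (hp : p ∈ APs α) : Kil α E f p := by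
  have h1 : ∀ q ∈ Submodule.span ℂ (Eig α), Kil α E f q := by
    intro q hq
    induction hq using Submodule.span_induction with
    | mem x hx => exact Kil.eig hw hx
    | zero => exact Kil.zero
    | add x y _ _ hx hy => exact hx.add hy
    | smul c x _ hx => exact hx.smul c
  refine Kil.lim hf fun η hη => ?_
  obtain ⟨q, hq, hpq⟩ := Metric.mem_closure_iff.1 (show p ∈ closure (Algebra.adjoin ℂ (Eig α) : Set A) from hp) η hη
  refine ⟨q, h1 q (adjoin_eig α hq), ?_⟩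
  rw [← dist_eq_norm]
  exact hpq.le

/-! ### cocycles -/

variable {d : ℕ}

/-- the endomorphism of the matrices -/
def fM (α : A →⋆ₐ[ℂ] A) (d n : ℕ) : Matrix (Fin d) (Fin d) A →+* Matrix (Fin d) (Fin d) A :=
  ((α ^ n : A →⋆ₐ[ℂ] A) : A →+* A).mapMatrix

lemma fM_apply (n : ℕ) (M : Matrix (Fin d) (Fin d) A) (i j : Fin d) : fM α d n M i j = (α ^ n) (M i j) := rfl

lemma fM_star (n : ℕ) (M : Matrix (Fin d) (Fin d) A) : (fM α d n M)ᴴ = fM α d n Mᴴ := by
  ext i j
  rw [Matrix.conjTranspose_apply, fM_apply, fM_apply, Matrix.conjTranspose_apply, map_star]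

lemma fM_add (m n : ℕ) (M : Matrix (Fin d) (Fin d) A) : fM α d (m + n) M = fM α d m (fM α d n M) := by
  ext i j
  rw [fM_apply, fM_apply, fM_apply, pow_add_apply]

variable (α)

/-- the cocycle -/
def cy (V : Matrix (Fin d) (Fin d) A) : ℕ → Matrix (Fin d) (Fin d) A
  | 0 => 1
  | n + 1 => fM α d n V * cy V n

variable {α} {V : Matrix (Fin d) (Fin d) A}

lemma cy_succ (n : ℕ) : cy α V (n + 1) = fM α d n V * cy α V n := rfl

lemma cy_self (hV : V * Vᴴ = 1) (n : ℕ) : cy α V n * (cy α V n)ᴴ = 1 := by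
  induction n with
  | zero => simp [cy]
  | succ n ih =>
    rw [cy_succ, Matrix.conjTranspose_mul, Matrix.mul_assoc, ← Matrix.mul_assoc (cy α V n), ih, Matrix.one_mul, fM_star,
      ← map_mul, hV, map_one]

lemma cy_add (hV : V * Vᴴ = 1) (n k : ℕ) : cy α V (n + k) * (cy α V n)ᴴ = fM α d n (cy α V k) := by
  induction k with
  | zero => rw [add_zero, cy_self hV]; simp [cy]
  | succ k ih => rw [← add_assoc, cy_succ, Matrix.mul_assoc, ih, fM_add, ← map_mul, cy_succ]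

lemma cy_ap (hV : ∀ i j, V i j ∈ APs α) (n : ℕ) : ∀ i j, cy α V n i j ∈ APs α := by
  induction n with
  | zero =>
    intro i j
    show (1 : Matrix (Fin d) (Fin d) A) i j ∈ APs α
    rw [Matrix.one_apply]
    split_ifs
    · exact one_mem _
    · exact zero_mem _
  | succ n ih =>
    intro i j
    rw [cy_succ, Matrix.mul_apply]
    exact sum_mem fun k _ => mul_mem (APs_map α (hV i k) n) (ih k j)

lemma cy_col {w : Fin d → A} (hw : ∀ i, α (w i) = ∑ j, V i j * w j) (n : ℕ) :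
    ∀ i, (α ^ n) (w i) = ∑ j, cy α V n i j * w j := by
  induction n with
  | zero =>
    intro i
    show w i = ∑ j, (1 : Matrix (Fin d) (Fin d) A) i j * w j
    simp [Matrix.one_apply]
  | succ n ih =>
    intro i
    rw [pow_succ]
    show (α ^ n) (α (w i)) = _
    rw [hw, map_sum]
    simp_rw [map_mul, ih, cy_succ, Matrix.mul_apply, sum_mul, mul_sum, ← mul_assoc]
    rw [sum_comm]
    rfl

lemma cy_norm (hV : V * Vᴴ = 1) (n : ℕ) (i j : Fin d) : ‖cy α V n i j‖ ≤ 1 := by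
  letI : PartialOrder A := CStarAlgebra.spectralOrder A
  haveI : StarOrderedRing A := CStarAlgebra.spectralOrderedRing A
  have h1 := congrFun (congrFun (cy_self (α := α) hV n) i) i
  rw [Matrix.mul_apply, Matrix.one_apply_eq] at h1
  simp only [Matrix.conjTranspose_apply] at h1
  have h2 : cy α V n i j * star (cy α V n i j) ≤ 1 := by
    rw [← h1]
    exact single_le_sum (f := fun j => cy α V n i j * star (cy α V n i j)) (fun j _ => mul_star_self_nonneg _) (mem_univ j)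
  have h3 := CStarAlgebra.norm_le_norm_of_nonneg_of_le (mul_star_self_nonneg _) h2
  rw [CStarRing.norm_self_mul_star] at h3
  have h4 : ‖(1 : A)‖ ≤ 1 := by
    rcases subsingleton_or_nontrivial A with h | h
    · rw [Subsingleton.elim (1 : A) 0, norm_zero]; norm_num
    · rw [CStarRing.norm_one]
  nlinarith [norm_nonneg (cy α V n i j)]

/-- the sequence for van der Corput -/
def av1 (α : A →⋆ₐ[ℂ] A) (V : Matrix (Fin d) (Fin d) A) (f : ℕ → ℤ) (θ : UnitAddCircle) (N : ℕ) (i : Fin d) (m : ℤ)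
    (j : Fin d) : A :=
  if m ∈ Ioc (0 : ℤ) N then tws f θ m.toNat • cy α V m.toNat i j else 0

lemma tws_conj (f : ℕ → ℤ) (θ : UnitAddCircle) (n k : ℕ) :
    tws f θ (n + k) * (starRingEnd ℂ) (tws f θ n) = fourier (k : ℤ) θ * ((f n : ℂ) * f (n + k)) := by
  unfold tws
  rw [map_mul, map_intCast]
  have h1 : (fourier ((n + k : ℕ) : ℤ) θ : ℂ) * (starRingEnd ℂ) (fourier (n : ℤ) θ : ℂ) = fourier (k : ℤ) θ := by
    rw [mul_comm, fourier_mul_conj]
    congr 2
    push_cast; ring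
  rw [← h1]; ring

lemma Gk_av (hV : V * Vᴴ = 1) (θ : UnitAddCircle) (N : ℕ) (i : Fin d) (k : ℕ) :
    Gk N (av1 α V f θ N i) k = (fourier (k : ℤ) θ : ℂ) •
      ∑ n ∈ (Icc 1 N).filter (fun n => n + k ≤ N), ((f n : ℂ) * f (n + k)) • (α ^ n) (cy α V k i i) := by
  rw [smul_sum]
  unfold Gk
  have e1 : ∀ m ∈ Ioc (0 : ℤ) N, ∑ j, av1 α V f θ N i (m + k) j * star (av1 α V f θ N i m j) =
      if m + k ≤ (N : ℤ) then (fourier (k : ℤ) θ : ℂ) • ((f m.toNat : ℂ) * f (m.toNat + k)) • (α ^ m.toNat) (cy α V k i i)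
        else 0 := by
    intro m hm
    have f1 : ∀ j, av1 α V f θ N i m j = tws f θ m.toNat • cy α V m.toNat i j := fun j => if_pos hm
    simp_rw [f1]
    rw [mem_Ioc] at hm
    split_ifs with h1
    · have e2 : (m + (k : ℤ)).toNat = m.toNat + k := by omega
      have f2 : ∀ j, av1 α V f θ N i (m + k) j = tws f θ (m.toNat + k) • cy α V (m.toNat + k) i j := by
        intro j
        rw [← e2]
        exact if_pos (by rw [mem_Ioc]; omega)
      have e3 := congrFun (congrFun (cy_add (α := α) hV m.toNat k) i) i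
      rw [Matrix.mul_apply, fM_apply] at e3
      rw [← e3, smul_smul, ← tws_conj, smul_sum]
      refine sum_congr rfl fun j _ => ?_
      rw [f2, Matrix.conjTranspose_apply, star_smul, smul_mul_smul_comm]
      rfl
    · have f2 : ∀ j, av1 α V f θ N i (m + k) j = 0 := fun j => if_neg (by rw [mem_Ioc]; omega)
      simp [f2]
  rw [sum_congr rfl e1, ← sum_filter]
  refine sum_nbij' (fun m : ℤ => m.toNat) (fun n : ℕ => (n : ℤ)) ?_ ?_ ?_ ?_ ?_
  · intro m hm
    rw [mem_filter, mem_Ioc] at hm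
    rw [mem_filter, mem_Icc]
    omega
  · intro n hn
    rw [mem_filter, mem_Icc] at hn
    rw [mem_filter, mem_Ioc]
    omega
  · intro m hm
    rw [mem_filter, mem_Ioc] at hm
    omega
  · intro n _; simp
  · intro m _; rfl

end

end Pool.Agent.R296.SM
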