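import Pool.Agent.R296.SM.Cyc

set_option autoImplicit false

/-! # The weighted averages of the cocycles are small in norm -/

namespace Pool.Agent.R296.SM

open Finset Filter Topology
open scoped Matrix

noncomputable section

universe u

variable {A : Type u} [CStarAlgebra A] {α : A →⋆ₐ[ℂ] A} {E : Set ℕ} {f : ℕ → ℤ} {d : ℕ}
  {V : Matrix (Fin d) (Fin d) A}

lemma norm_f {f : ℕ → ℤ} (hf : ∀ n, |f n| ≤ 1) (n : ℕ) : ‖(f n : ℂ)‖ ≤ 1 := by
  rw [Complex.norm_intCast]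
  exact_mod_cast hf n

lemma term_le (hf : ∀ n, |f n| ≤ 1) (hV : V * Vᴴ = 1) (n k : ℕ) (i : Fin d) :
    ‖((f n : ℂ) * f (n + k)) • (α ^ n) (cy α V k i i)‖ ≤ 1 := by
  rw [norm_smul, norm_mul]
  calc ‖(f n : ℂ)‖ * ‖(f (n + k) : ℂ)‖ * ‖(α ^ n) (cy α V k i i)‖ ≤ 1 * 1 * 1 :=
        mul_le_mul (mul_le_mul (norm_f hf _) (norm_f hf _) (norm_nonneg _) zero_le_one)
          ((norm_pow_le' α n _).trans (cy_norm hV k i i)) (norm_nonneg _) (by norm_num)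
    _ = 1 := by norm_num

lemma Gk_zero (hf : ∀ n, |f n| ≤ 1) (hV : V * Vᴴ = 1) (θ : UnitAddCircle) (N : ℕ) (i : Fin d) :
    ‖Gk N (av1 α V f θ N i) 0‖ ≤ N := by
  have h1 := Gk_av (α := α) (f := f) hV θ N i 0
  rw [Nat.cast_zero] at h1
  rw [h1, norm_smul, fourier_apply, Circle.norm_coe, one_mul]
  refine (norm_sum_le _ _).trans ?_
  calc _ ≤ ∑ _n ∈ (Icc 1 N).filter (fun n => n + 0 ≤ N), (1 : ℝ) := sum_le_sum fun n _ => term_le hf hV n 0 i
    _ ≤ N := by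
        rw [sum_const, nsmul_eq_mul, mul_one]
        have := card_filter_le (Icc 1 N) (fun n => n + 0 ≤ N)
        rw [Nat.card_Icc, Nat.add_sub_cancel] at this
        exact_mod_cast this

lemma Gk_pos (hf : ∀ n, |f n| ≤ 1) (hV : V * Vᴴ = 1) (θ : UnitAddCircle) (N : ℕ) (i : Fin d) (k : ℕ) (hk : 1 ≤ k) :
    ‖Gk N (av1 α V f θ N i) k‖ ≤ ‖∑ n ∈ range N, ((f n : ℂ) * f (n + k)) • (α ^ n) (cy α V k i i)‖ + (k + 1) := by
  rw [Gk_av (f := f) hV θ N i k, norm_smul, fourier_apply, Circle.norm_coe, one_mul]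
  have e0 : (Icc 1 N).filter (fun n => n + k ≤ N) = (range N).filter (fun n => 1 ≤ n ∧ n + k ≤ N) := by
    ext n
    simp only [mem_filter, mem_Icc, mem_range]
    omega
  have e1 : ∑ n ∈ (Icc 1 N).filter (fun n => n + k ≤ N), ((f n : ℂ) * f (n + k)) • (α ^ n) (cy α V k i i) =
      ∑ n ∈ range N, ((f n : ℂ) * f (n + k)) • (α ^ n) (cy α V k i i) -
        ∑ n ∈ (range N).filter (fun n => ¬ (1 ≤ n ∧ n + k ≤ N)), ((f n : ℂ) * f (n + k)) • (α ^ n) (cy α V k i i) := by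
    rw [e0, eq_sub_iff_add_eq]
    exact sum_filter_add_sum_filter_not _ _ _
  rw [e1]
  refine (norm_sub_le _ _).trans (add_le_add le_rfl ?_)
  refine (norm_sum_le _ _).trans ?_
  calc _ ≤ ∑ _n ∈ (range N).filter (fun n => ¬ (1 ≤ n ∧ n + k ≤ N)), (1 : ℝ) :=
        sum_le_sum fun n _ => term_le hf hV n k i
    _ ≤ k + 1 := by
        rw [sum_const, nsmul_eq_mul, mul_one]
        have h1 : (range N).filter (fun n => ¬ (1 ≤ n ∧ n + k ≤ N)) ⊆ insert 0 (Ico (N + 1 - k) N) := by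
          intro n hn
          rw [mem_filter, mem_range] at hn
          rw [mem_insert, mem_Ico]
          omega
        have h2 := (card_le_card h1).trans (card_insert_le _ _)
        rw [Nat.card_Ico] at h2
        exact_mod_cast (by omega : ((range N).filter (fun n => ¬ (1 ≤ n ∧ n + k ≤ N))).card ≤ k + 1)

/-- **the estimate** -/
theorem cyc_small (hf : ∀ n, |f n| ≤ 1) (hw : Wt E f) (hV : V * Vᴴ = 1) (hVP : ∀ i j, V i j ∈ APs α) (ε : ℝ)
    (hε : 0 < ε) : ∃ N₀ : ℕ, ∀ N : ℕ, N₀ ≤ N → N ∉ E → ∀ (θ : UnitAddCircle) (i j : Fin d),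
      ‖∑ m ∈ Icc 1 N, tws f θ m • cy α V m i j‖ ≤ ε * N := by
  obtain ⟨H, hH⟩ := exists_nat_ge (4 / ε ^ 2)
  have hHr : (0 : ℝ) < H := lt_of_lt_of_le (by positivity) hH
  have hH1 : 1 ≤ H := by exact_mod_cast hHr
  obtain ⟨δ, hδ⟩ : ∃ δ : ℝ, δ = ε ^ 2 / 8 := ⟨_, rfl⟩
  have hδ0 : 0 < δ := by rw [hδ]; positivity
  have hk : ∀ (k : ℕ) (i : Fin d), ∃ N₀ : ℕ, 1 ≤ k → ∀ N : ℕ, N₀ ≤ N → N ∉ E →
      ‖∑ n ∈ range N, ((f n : ℂ) * f (n + k)) • (α ^ n) (cy α V k i i)‖ ≤ δ / 2 * N := by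
    intro k i
    by_cases h1 : 1 ≤ k
    · obtain ⟨N₀, h2⟩ := Kil.ap hf hw (cy_ap hVP k i i) k h1 (δ / 2) (by positivity)
      exact ⟨N₀, fun _ => h2⟩
    · exact ⟨0, fun h => absurd h h1⟩
  choose N₁ hN₁ using hk
  refine ⟨(∑ k ∈ range H, ∑ i, N₁ k i) + H + ⌈(H + 1) / (δ / 2)⌉₊, fun N hN hNE θ i j => ?_⟩
  have hNH : H ≤ N := by omega
  have hNr : (H : ℝ) ≤ N := by exact_mod_cast hNH
  have hN2 : ((H : ℝ) + 1) / (δ / 2) ≤ N := (Nat.le_ceil _).trans (Nat.cast_le.2 (by omega))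
  rw [div_le_iff₀ (by positivity)] at hN2
  have e1 : ∑ m ∈ Icc 1 N, tws f θ m • cy α V m i j = ∑ m ∈ Ioc (0 : ℤ) N, av1 α V f θ N i m j := by
    refine sum_nbij' (fun n : ℕ => (n : ℤ)) (fun m : ℤ => m.toNat) ?_ ?_ ?_ ?_ ?_
    · intro n hn
      rw [mem_Icc] at hn
      rw [mem_Ioc]
      omega
    · intro m hm
      rw [mem_Ioc] at hm
      rw [mem_Icc]
      omega
    · intro n _; simp
    · intro m hm
      rw [mem_Ioc] at hm
      omega
    · intro n hn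
      rw [mem_Icc] at hn
      rw [av1, if_pos (by rw [mem_Ioc]; omega), Int.toNat_natCast]
  rw [e1]
  have e2 := vdc N H (av1 α V f θ N i) (fun m hm => by funext j; exact if_neg hm) N (δ * N) (Nat.cast_nonneg _)
    (by positivity) (Gk_zero hf hV θ N i) (fun k hk1 hkH => by
      refine (Gk_pos hf hV θ N i k hk1).trans ?_
      have h1 : N₁ k i ≤ N := by
        have h2 : N₁ k i ≤ ∑ i, N₁ k i := single_le_sum (f := fun i => N₁ k i) (fun _ _ => Nat.zero_le _) (mem_univ i)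
        have h3 : ∑ i, N₁ k i ≤ ∑ k ∈ range H, ∑ i, N₁ k i :=
          single_le_sum (f := fun k => ∑ i, N₁ k i) (fun _ _ => Nat.zero_le _) (mem_range.2 hkH)
        omega
      have h4 := hN₁ k i hk1 N h1 hNE
      have h5 : (k : ℝ) + 1 ≤ H + 1 := by
        have : (k : ℝ) ≤ H := by exact_mod_cast hkH.le
        linarith
      linarith) j
  have e3 : (H : ℝ) ^ 2 * ‖∑ m ∈ Ioc (0 : ℤ) N, av1 α V f θ N i m j‖ ^ 2 ≤ H ^ 2 * (ε * N) ^ 2 := by
    refine e2.trans ?_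
    have h1 : (4 : ℝ) ≤ ε ^ 2 * H := by
      rw [div_le_iff₀ (by positivity)] at hH
      linarith
    calc ((N : ℝ) + H) * (H * N + H ^ 2 * (δ * N)) ≤ (2 * N) * (H * N + H ^ 2 * (δ * N)) :=
          mul_le_mul_of_nonneg_right (by linarith) (by positivity)
      _ = N ^ 2 * H * (2 + 2 * δ * H) := by ring
      _ ≤ N ^ 2 * H * (ε ^ 2 * H) := by
          apply mul_le_mul_of_nonneg_left _ (by positivity)
          rw [hδ]
          nlinarith
      _ = _ := by ring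
  have e4 : ‖∑ m ∈ Ioc (0 : ℤ) N, av1 α V f θ N i m j‖ ^ 2 ≤ (ε * N) ^ 2 :=
    le_of_mul_le_mul_left e3 (by positivity)
  exact le_of_sq_le_sq e4 (by positivity)

/-! ### the good elements -/

variable (α E f)

/-- disjointness in norm -/
def Gd (x : A) : Prop :=
  ∀ ε : ℝ, 0 < ε → ∃ N₀ : ℕ, ∀ N : ℕ, N₀ ≤ N → N ∉ E → ∀ θ : UnitAddCircle,
    ‖∑ m ∈ Icc 1 N, tws f θ m • (α ^ m) x‖ ≤ ε * N

variable {α E f}

lemma Gd.zero : Gd α E f (0 : A) := by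
  intro ε hε
  refine ⟨0, fun N _ _ θ => ?_⟩
  simp only [map_zero, smul_zero, sum_const_zero, norm_zero]
  positivity

lemma Gd.add {a b : A} (ha : Gd α E f a) (hb : Gd α E f b) : Gd α E f (a + b) := by
  intro ε hε
  obtain ⟨N₁, h1⟩ := ha (ε / 2) (by positivity)
  obtain ⟨N₂, h2⟩ := hb (ε / 2) (by positivity)
  refine ⟨max N₁ N₂, fun N hN hNE θ => ?_⟩
  simp_rw [map_add, smul_add, sum_add_distrib]
  have e1 := h1 N (le_trans (le_max_left _ _) hN) hNE θ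
  have e2 := h2 N (le_trans (le_max_right _ _) hN) hNE θ
  exact (norm_add_le _ _).trans (by linarith)

lemma Gd.smul {a : A} (ha : Gd α E f a) (c : ℂ) : Gd α E f (c • a) := by
  intro ε hε
  obtain ⟨N₁, h1⟩ := ha (ε / (‖c‖ + 1)) (by positivity)
  refine ⟨N₁, fun N hN hNE θ => ?_⟩
  have e1 := h1 N hN hNE θ
  simp_rw [map_smul, smul_comm _ c, ← smul_sum]
  rw [norm_smul]
  calc _ ≤ ‖c‖ * (ε / (‖c‖ + 1) * N) := mul_le_mul_of_nonneg_left e1 (norm_nonneg _)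
    _ = ε * N * (‖c‖ / (‖c‖ + 1)) := by ring
    _ ≤ ε * N * 1 := by
        apply mul_le_mul_of_nonneg_left _ (by positivity)
        rw [div_le_one (by positivity)]
        linarith
    _ = _ := mul_one _

lemma Gd.lim (hf : ∀ n, |f n| ≤ 1) {a : A} (h : ∀ η : ℝ, 0 < η → ∃ b : A, Gd α E f b ∧ ‖a - b‖ ≤ η) :
    Gd α E f a := by
  intro ε hε
  obtain ⟨b, hb, hab⟩ := h (ε / 2) (by positivity)
  obtain ⟨N₁, h1⟩ := hb (ε / 2) (by positivity)
  refine ⟨N₁, fun N hN hNE θ => ?_⟩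
  have e1 := h1 N hN hNE θ
  have e2 : ∑ m ∈ Icc 1 N, tws f θ m • (α ^ m) a =
      ∑ m ∈ Icc 1 N, tws f θ m • (α ^ m) b + ∑ m ∈ Icc 1 N, tws f θ m • (α ^ m) (a - b) := by
    rw [← sum_add_distrib]
    refine sum_congr rfl fun n _ => ?_
    rw [← smul_add, ← map_add, add_sub_cancel]
  have e3 : ‖∑ m ∈ Icc 1 N, tws f θ m • (α ^ m) (a - b)‖ ≤ N * (ε / 2) := by
    refine (norm_sum_le _ _).trans ?_
    calc ∑ m ∈ Icc 1 N, ‖tws f θ m • (α ^ m) (a - b)‖ ≤ ∑ _m ∈ Icc 1 N, ε / 2 := by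
          refine sum_le_sum fun n _ => ?_
          rw [norm_smul]
          calc ‖tws f θ n‖ * ‖(α ^ n) (a - b)‖ ≤ 1 * (ε / 2) :=
                mul_le_mul (norm_tws hf θ n) ((norm_pow_le' α n _).trans hab) (norm_nonneg _) zero_le_one
            _ = ε / 2 := one_mul _
      _ = _ := by rw [sum_const, Nat.card_Icc, Nat.add_sub_cancel, nsmul_eq_mul]
  rw [e2]
  refine (norm_add_le _ _).trans ?_
  linarith

lemma exists_angle {l : ℂ} (hl : ‖l‖ = 1) : ∃ θ : UnitAddCircle, ∀ m : ℕ, l ^ m = fourier (m : ℤ) θ := by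
  obtain ⟨t, ht⟩ := (Complex.norm_eq_one_iff l).1 hl
  refine ⟨((t / (2 * Real.pi) : ℝ) : UnitAddCircle), fun m => ?_⟩
  rw [fourier_coe_apply, ← ht, ← Complex.exp_nat_mul]
  congr 1
  push_cast
  have : (Real.pi : ℂ) ≠ 0 := by exact_mod_cast Real.pi_ne_zero
  field_simp

lemma tws_add (f : ℕ → ℤ) (θ θ' : UnitAddCircle) (m : ℕ) : tws f θ m * fourier (m : ℤ) θ' = tws f (θ + θ') m := by
  unfold tws
  have : (fourier (m : ℤ) (θ + θ') : ℂ) = fourier (m : ℤ) θ * fourier (m : ℤ) θ' := by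
    rw [fourier_apply, fourier_apply, fourier_apply, zsmul_add, AddCircle.toCircle_add, Circle.coe_mul]
  rw [this]
  ring

theorem Gd.elem (hf : ∀ n, |f n| ≤ 1) (hw : Wt E f) (hV : V * Vᴴ = 1) (hVP : ∀ i j, V i j ∈ APs α) {w : Fin d → A}
    (hwV : ∀ i, α (w i) = ∑ j, V i j * w j) (i : Fin d) {c b : A} (hc : c ∈ Eig α) (hb : b ∈ Eig α) :
    Gd α E f (c * w i * b) := by
  obtain ⟨l, hl, hlc⟩ := hc
  obtain ⟨l', hl', hlb⟩ := hb
  obtain ⟨θ₁, h1⟩ := exists_angle hl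
  obtain ⟨θ₂, h2⟩ := exists_angle hl'
  intro ε hε
  obtain ⟨Q, hQ⟩ : ∃ Q : ℝ, Q = ∑ j, ‖c‖ * ‖w j‖ * ‖b‖ := ⟨_, rfl⟩
  have hQ0 : 0 ≤ Q := by rw [hQ]; exact sum_nonneg fun _ _ => by positivity
  obtain ⟨N₀, h3⟩ := cyc_small hf hw hV hVP (ε / (Q + 1)) (by positivity)
  refine ⟨N₀, fun N hN hNE θ => ?_⟩
  have e1 : ∑ m ∈ Icc 1 N, tws f θ m • (α ^ m) (c * w i * b) =
      ∑ j, c * (∑ m ∈ Icc 1 N, tws f (θ + θ₁ + θ₂) m • cy α V m i j) * w j * b := by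
    have e2 : ∀ m, tws f θ m • (α ^ m) (c * w i * b) =
        ∑ j, c * (tws f (θ + θ₁ + θ₂) m • cy α V m i j) * w j * b := by
      intro m
      rw [map_mul, map_mul, pow_eig α hlc, pow_eig α hlb, cy_col hwV, h1, h2, ← tws_add, ← tws_add]
      simp only [smul_mul_assoc, mul_smul_comm, mul_sum, sum_mul, smul_sum, smul_smul]
      refine sum_congr rfl fun j _ => ?_
      rw [mul_assoc c (cy α V m i j) (w j)]
      congr 1
      ring
    simp_rw [e2]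
    rw [sum_comm]
    refine sum_congr rfl fun j _ => ?_
    rw [mul_sum, sum_mul, sum_mul]
  rw [e1]
  calc _ ≤ ∑ j, ‖c * (∑ m ∈ Icc 1 N, tws f (θ + θ₁ + θ₂) m • cy α V m i j) * w j * b‖ := norm_sum_le _ _
    _ ≤ ∑ j, ε / (Q + 1) * N * (‖c‖ * ‖w j‖ * ‖b‖) := by
        refine sum_le_sum fun j _ => ?_
        calc _ ≤ ‖c‖ * ‖∑ m ∈ Icc 1 N, tws f (θ + θ₁ + θ₂) m • cy α V m i j‖ * ‖w j‖ * ‖b‖ := by
              refine (norm_mul_le _ _).trans (mul_le_mul_of_nonneg_right ?_ (norm_nonneg _))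
              refine (norm_mul_le _ _).trans (mul_le_mul_of_nonneg_right ?_ (norm_nonneg _))
              exact norm_mul_le _ _
          _ ≤ ‖c‖ * (ε / (Q + 1) * N) * ‖w j‖ * ‖b‖ := by
              gcongr
              exact h3 N hN hNE _ i j
          _ = _ := by ring
    _ = ε * N * (Q / (Q + 1)) := by rw [← mul_sum, ← hQ]; ring
    _ ≤ ε * N * 1 := by
        apply mul_le_mul_of_nonneg_left _ (by positivity)
        rw [div_le_one (by positivity)]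
        linarith
    _ = _ := mul_one _

lemma Gd.closure (hf : ∀ n, |f n| ≤ 1) {D : Set A} (hD : ∀ x ∈ D, Gd α E f x) {x : A}
    (hx : x ∈ closure (Submodule.span ℂ D : Set A)) : Gd α E f x := by
  refine Gd.lim hf fun η hη => ?_
  obtain ⟨q, hq, hpq⟩ := Metric.mem_closure_iff.1 hx η hη
  refine ⟨q, ?_, by rw [← dist_eq_norm]; exact hpq.le⟩
  clear hpq
  induction hq using Submodule.span_induction with
  | mem x hx => exact hD x hx
  | zero => exact Gd.zero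
  | add x y _ _ hx hy => exact hx.add hy
  | smul c x _ hx => exact hx.smul c

end

end Pool.Agent.R296.SM
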