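import Pool.Agent.R296.SM.Main
import Pool.Agent.TH327.Dim.Sys

set_option autoImplicit false

/-! # Isolating the Möbius function from measures on sets of small dimension -/

namespace Pool.Agent.R296.SM

open Finset MeasureTheory Filter Topology
open Pool.Agent.TH327.Dim

noncomputable section

lemma SZ_ext0 (h : ℕ → ℂ) (N : ℕ) (η : UnitAddCircle) : SZ (ext0 h) N η = SC h N η := by
  unfold SZ SC
  symm
  refine sum_nbij' (fun n : ℕ => (n : ℤ)) (fun m : ℤ => m.toNat) ?_ ?_ ?_ ?_ ?_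
  · intro n hn
    rw [mem_Icc] at hn
    rw [mem_Ioc]
    omega
  · intro m hm
    rw [mem_Ioc] at hm
    rw [mem_Icc]
    omega
  · intro n _
    simp
  · intro m hm
    rw [mem_Ioc] at hm
    omega
  · intro n hn
    rw [mem_Icc] at hn
    rw [ext0, if_pos (by omega)]
    simp

/-- the weight twisted by the character `θ` -/
def twist (g : ℕ → ℂ) (θ : UnitAddCircle) (n : ℕ) : ℂ := g n * fourier (n : ℤ) θ

lemma SC_twist (g : ℕ → ℂ) (θ : UnitAddCircle) (N : ℕ) (η : UnitAddCircle) :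
    SC (twist g θ) N η = SC g N (η + θ) := by
  unfold SC twist
  refine sum_congr rfl fun n _ => ?_
  have : (fourier (n : ℤ) (η + θ) : ℂ) = fourier (n : ℤ) η * fourier (n : ℤ) θ := by
    rw [fourier_apply, fourier_apply, fourier_apply, zsmul_add, AddCircle.toCircle_add, Circle.coe_mul]
  rw [this]
  ring

lemma norm_twist {g : ℕ → ℂ} (hg : ∀ n, ‖g n‖ ≤ 1) (θ : UnitAddCircle) (n : ℕ) : ‖twist g θ n‖ ≤ 1 := by
  unfold twist
  rw [norm_mul, Pool.Agent.TH327.Thin.norm_fourier_apply, mul_one]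
  exact hg n

/-- the neighbourhood on the circle -/
def Nc (K : Set UnitAddCircle) (ρ : ℝ) : Set UnitAddCircle := {η | ∃ x ∈ K, ‖η - x‖ < ρ}

lemma Nc_open (K : Set UnitAddCircle) (ρ : ℝ) : IsOpen (Nc K ρ) := by
  have : Nc K ρ = ⋃ x ∈ K, {η : UnitAddCircle | ‖η - x‖ < ρ} := by
    unfold Nc; ext θ; simp
  rw [this]
  exact isOpen_biUnion fun x _ => isOpen_lt (by fun_prop) continuous_const

lemma int_Nc (K : Set UnitAddCircle) (ρ : ℝ) (h : ℕ → ℂ) (N : ℕ) :
    ∫ η : UnitAddCircle, (Nc K ρ).indicator (fun η => ‖SC h N η‖ ^ 2) η =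
      ∫ θ in (0 : ℝ)..1, (Nb K ρ).indicator (fun _ => (1 : ℝ)) θ * ‖SS h N θ‖ ^ 2 := by
  have h2 := UnitAddCircle.intervalIntegral_preimage 0 ((Nc K ρ).indicator (fun η => ‖SC h N η‖ ^ 2))
  rw [zero_add] at h2
  rw [← h2]
  congr 1
  funext θ
  by_cases hθ : θ ∈ Nb K ρ
  · rw [Set.indicator_of_mem hθ, one_mul, Set.indicator_of_mem (show (θ : UnitAddCircle) ∈ Nc K ρ from hθ), SC_coe]
  · rw [Set.indicator_of_notMem hθ, zero_mul,
      Set.indicator_of_notMem (show (θ : UnitAddCircle) ∉ Nc K ρ from hθ)]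

lemma HalfDim.union {K₁ K₂ : Set UnitAddCircle} (h₁ : HalfDim K₁) (h₂ : HalfDim K₂) : HalfDim (K₁ ∪ K₂) := by
  obtain ⟨C₁, s₁, hs₁, h₁⟩ := h₁
  obtain ⟨C₂, s₂, hs₂, h₂⟩ := h₂
  exact ⟨_, _, max_lt hs₁ hs₂, cov_union h₁ h₂⟩

/-- the first closures -/
def Kn (K : ℕ → Set UnitAddCircle) : ℕ → Set UnitAddCircle
  | 0 => closure (K 0)
  | n + 1 => Kn K n ∪ closure (K (n + 1))

lemma Kn_closed (K : ℕ → Set UnitAddCircle) (n : ℕ) : IsClosed (Kn K n) := by
  induction n with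
  | zero => exact isClosed_closure
  | succ n ih => exact ih.union isClosed_closure

lemma Kn_half {K : ℕ → Set UnitAddCircle} (hK : ∀ i, HalfDim (K i)) (n : ℕ) : HalfDim (Kn K n) := by
  induction n with
  | zero => exact (hK 0).closure
  | succ n ih => exact HalfDim.union ih (hK _).closure

lemma Kn_mono (K : ℕ → Set UnitAddCircle) : Monotone (Kn K) :=
  monotone_nat_of_le_succ fun _ => Set.subset_union_left

lemma Kn_sup (K : ℕ → Set UnitAddCircle) (i : ℕ) : K i ⊆ Kn K i := by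
  cases i with
  | zero => exact subset_closure
  | succ n => exact subset_closure.trans Set.subset_union_right

lemma exists_Kn {σ : Measure UnitAddCircle} [IsFiniteMeasure σ] {K : ℕ → Set UnitAddCircle}
    (hσ : σ (⋃ i, K i)ᶜ = 0) (δ : ℝ) (hδ : 0 < δ) : ∃ n, σ.real (Kn K n)ᶜ ≤ δ := by
  have h1 : Tendsto (fun n => σ (Kn K n)ᶜ) atTop (𝓝 (σ (⋂ n, (Kn K n)ᶜ))) := by
    refine tendsto_measure_iInter_atTop (fun n => (Kn_closed K n).measurableSet.compl.nullMeasurableSet) ?_ ⟨0, measure_ne_top _ _⟩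
    intro m n hmn
    exact Set.compl_subset_compl.2 (Kn_mono K hmn)
  have h2 : σ (⋂ n, (Kn K n)ᶜ) = 0 := by
    refine measure_mono_null ?_ hσ
    intro x hx hx2
    rw [Set.mem_iUnion] at hx2
    obtain ⟨i, hi⟩ := hx2
    rw [Set.mem_iInter] at hx
    exact hx i (Kn_sup K i hi)
  rw [h2] at h1
  have h3 := h1.eventually (ge_mem_nhds (show (0 : ENNReal) < ENNReal.ofReal δ by
    rw [ENNReal.ofReal_pos]; exact hδ))
  obtain ⟨n, hn⟩ := h3.exists
  refine ⟨n, ?_⟩
  rw [Measure.real]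
  exact ENNReal.toReal_le_of_le_ofReal hδ.le hn

/-- **Isolation** from measures on sets of small dimension -/
theorem iso_half {g : ℕ → ℂ} (hG : ∀ C s : ℝ, 0 ≤ C → 0 ≤ s → s < 1 / 2 → Good {K | Cov K C s} {g})
    {σ : Measure UnitAddCircle} [IsFiniteMeasure σ] {K : ℕ → Set UnitAddCircle}
    (hK : ∀ i, HalfDim (K i)) (hσ : σ (⋃ i, K i)ᶜ = 0) (δ : ℝ) (hδ : 0 < δ) :
    Isolates ∅ (Set.range (twist g)) σ δ := by
  obtain ⟨n, hn⟩ := exists_Kn hσ δ hδ
  obtain ⟨C, s, hs, hCov⟩ := Kn_half hK n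
  obtain ⟨ρ, hρ, N₀, hN₀⟩ := hG _ _ (le_max_right C 0) (le_max_right s 0) (max_lt hs (by norm_num)) δ hδ
  have hcl : IsClosed (Nc (Kn K n) ρ)ᶜ := (Nc_open _ _).isClosed_compl
  have hdis : Disjoint (Nc (Kn K n) ρ)ᶜ (Kn K n) := by
    rw [Set.disjoint_left]
    intro x hx hx2
    exact hx ⟨x, hx2, by simpa using hρ⟩
  obtain ⟨f, hf0, hf1, hf⟩ := exists_continuous_zero_one_of_isClosed hcl (Kn_closed K n) hdis
  refine ⟨f, fun η => hf η, ?_, N₀, ?_⟩
  · calc ∫ η, (1 - f η) ^ 2 ∂σ ≤ ∫ η, (Kn K n)ᶜ.indicator (fun _ => (1 : ℝ)) η ∂σ := by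
          apply integral_mono
          · exact int_of_cont (by fun_prop) σ
          · exact (integrable_const 1).indicator (Kn_closed K n).measurableSet.compl
          intro η
          simp only
          by_cases h : η ∈ Kn K n
          · rw [hf1 h, Set.indicator_of_notMem (by simpa using h)]
            simp
          · rw [Set.indicator_of_mem h]
            have := hf η
            rw [Set.mem_Icc] at this
            nlinarith
      _ = σ.real (Kn K n)ᶜ := by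
          rw [integral_indicator (Kn_closed K n).measurableSet.compl, setIntegral_const, smul_eq_mul, mul_one]
      _ ≤ δ := hn
  · intro N hN _ h hh
    obtain ⟨θ, rfl⟩ := hh
    have hK'' : Cov {η | η - θ ∈ Kn K n} (max C 0) (max s 0) := cov_shift hCov.enlarge θ
    have h1 := hN₀ _ hK'' g rfl N hN
    rw [← int_Nc] at h1
    have h2 : ∫ η : UnitAddCircle, f η ^ 2 * ‖SZ (ext0 (twist g θ)) N η‖ ^ 2 =
        ∫ η : UnitAddCircle, f (η - θ) ^ 2 * ‖SC g N η‖ ^ 2 := by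
      rw [← integral_add_right_eq_self (fun η : UnitAddCircle => f (η - θ) ^ 2 * ‖SC g N η‖ ^ 2) θ]
      refine integral_congr_ae (ae_of_all _ fun η => ?_)
      show f η ^ 2 * ‖SZ (ext0 (twist g θ)) N η‖ ^ 2 = f (η + θ - θ) ^ 2 * ‖SC g N (η + θ)‖ ^ 2
      rw [SZ_ext0, SC_twist, add_sub_cancel_right]
    rw [h2]
    refine le_trans ?_ h1
    have hcc : Continuous fun η => ‖SC g N η‖ ^ 2 := (SC_cont g N).norm.pow 2
    apply integral_mono
    · exact int_of_cont (by fun_prop) _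
    · exact (int_of_cont hcc _).indicator (Nc_open _ _).measurableSet
    intro η
    simp only
    by_cases h : η ∈ Nc {η | η - θ ∈ Kn K n} ρ
    · rw [Set.indicator_of_mem h]
      have := hf (η - θ)
      rw [Set.mem_Icc] at this
      have h3 : f (η - θ) ^ 2 ≤ 1 := by nlinarith
      calc f (η - θ) ^ 2 * ‖SC g N η‖ ^ 2 ≤ 1 * ‖SC g N η‖ ^ 2 := mul_le_mul_of_nonneg_right h3 (sq_nonneg _)
        _ = _ := one_mul _
    · rw [Set.indicator_of_notMem h]
      have h3 : η - θ ∈ (Nc (Kn K n) ρ)ᶜ := by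
        intro h4
        apply h
        obtain ⟨x, hx, hx2⟩ := h4
        refine ⟨x + θ, by simpa using hx, ?_⟩
        have : η - (x + θ) = η - θ - x := by abel
        rw [this]
        exact hx2
      rw [hf0 h3]
      simp

theorem good_mu (C s : ℝ) (hC : 0 ≤ C) (hs0 : 0 ≤ s) (hs : s < 1 / 2) : Good {K | Cov K C s} {muf} :=
  good_mob hC hs0 hs

theorem good_la (C s : ℝ) (hC : 0 ≤ C) (hs0 : 0 ≤ s) (hs : s < 1 / 2) : Good {K | Cov K C s} {laf} :=
  good_lam hC hs0 hs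

end

end Pool.Agent.R296.SM
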