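import Pool.Agent.R296.SM.Core

set_option autoImplicit false

/-! # Limits of autocorrelations and spectral measures -/

namespace Pool.Agent.R296.SM

open Finset MeasureTheory Filter Topology

noncomputable section

/-- trigonometric polynomials -/
def TP (S : Finset ℤ) (c : ℤ → ℂ) (η : UnitAddCircle) : ℂ := ∑ k ∈ S, c k * fourier k η

lemma TP_cont (S : Finset ℤ) (c : ℤ → ℂ) : Continuous (TP S c) := by
  unfold TP
  exact continuous_finsetSum _ fun k _ => continuous_const.mul (map_continuous (fourier k))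

lemma int_of_cont {F : Type*} [NormedAddCommGroup F] {f : UnitAddCircle → F} (hf : Continuous f)
    (σ : Measure UnitAddCircle) [IsFiniteMeasure σ] : Integrable f σ :=
  hf.integrable_of_hasCompactSupport (HasCompactSupport.of_compactSpace _)

lemma fourier_mul_conj (k l : ℤ) (η : UnitAddCircle) :
    (starRingEnd ℂ) (fourier k η : ℂ) * fourier l η = fourier (l - k) η := by
  rw [← fourier_neg, ← fourier_add]
  congr 2
  ring

/-- the square of a trigonometric polynomial -/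
lemma int_sq (σ : Measure UnitAddCircle) [IsFiniteMeasure σ] (S : Finset ℤ) (c : ℤ → ℂ) :
    ((∫ η, ‖TP S c η‖ ^ 2 ∂σ : ℝ) : ℂ) =
      ∑ k ∈ S, ∑ l ∈ S, (starRingEnd ℂ) (c k) * c l * ∫ η, (fourier (l - k) η : ℂ) ∂σ := by
  have h1 : ∀ η, ((‖TP S c η‖ ^ 2 : ℝ) : ℂ) =
      ∑ k ∈ S, ∑ l ∈ S, (starRingEnd ℂ) (c k) * c l * (fourier (l - k) η : ℂ) := by
    intro η
    have : ((‖TP S c η‖ ^ 2 : ℝ) : ℂ) = (starRingEnd ℂ) (TP S c η) * TP S c η := by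
      rw [Complex.conj_mul']
      push_cast
      rfl
    rw [this, TP, map_sum, sum_mul_sum]
    refine sum_congr rfl fun k _ => sum_congr rfl fun l _ => ?_
    rw [map_mul, ← fourier_mul_conj]
    ring
  rw [← integral_complex_ofReal]
  simp_rw [h1]
  rw [integral_finsetSum _ fun k _ => ?_]
  · refine sum_congr rfl fun k _ => ?_
    rw [integral_finsetSum _ fun l _ => ?_]
    · exact sum_congr rfl fun l _ => integral_const_mul _ _
    · exact int_of_cont (continuous_const.mul (map_continuous (fourier (l - k)))) σ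
  · exact int_of_cont (continuous_finsetSum _ fun l _ => continuous_const.mul (map_continuous (fourier (l - k)))) σ

lemma exists_TP (f : C(UnitAddCircle, ℝ)) (δ : ℝ) (hδ : 0 < δ) :
    ∃ (S : Finset ℤ) (c : ℤ → ℂ), ∀ η, ‖TP S c η - (f η : ℂ)‖ ≤ δ := by
  obtain ⟨F, hF⟩ : ∃ F : C(UnitAddCircle, ℂ), ∀ η, F η = (f η : ℂ) :=
    ⟨⟨fun η => (f η : ℂ), by fun_prop⟩, fun η => rfl⟩
  have h1 : F ∈ (Submodule.span ℂ (Set.range (@fourier 1))).topologicalClosure := by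
    rw [span_fourier_closure_eq_top]; trivial
  rw [← SetLike.mem_coe, Submodule.topologicalClosure_coe, Metric.mem_closure_iff] at h1
  obtain ⟨g, hg, hg2⟩ := h1 δ hδ
  rw [SetLike.mem_coe, Finsupp.mem_span_range_iff_exists_finsupp] at hg
  obtain ⟨c, hc⟩ := hg
  refine ⟨c.support, c, fun η => ?_⟩
  have h2 : TP c.support c η = g η := by
    rw [← hc, Finsupp.sum, ContinuousMap.sum_apply]
    rfl
  rw [h2, ← hF]
  have h3 := ContinuousMap.dist_apply_le_dist (f := F) (g := g) η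
  rw [dist_comm, dist_eq_norm] at h3
  exact h3.trans hg2.le

section limits

variable {K : Type*} [NormedAddCommGroup K] [InnerProductSpace ℂ K]

open scoped InnerProductSpace

/-- `σ` is the spectral measure of the sequence `y` along `𝒰` -/
def IsSpec (y : ℤ → K) (𝒰 : Filter ℕ) (σ : Measure UnitAddCircle) : Prop :=
  ∀ h : ℕ, Tendsto (fun N : ℕ => (1 / (N : ℂ)) * ∑ m ∈ Ioc (0 : ℤ) N, ⟪y m, y (m + h)⟫_ℂ) 𝒰
    (𝓝 (∫ η, (fourier (h : ℤ) η : ℂ) ∂σ))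

lemma tendsto_inv_mul {𝒰 : Filter ℕ} (h𝒰 : 𝒰 ≤ atTop) (u : ℕ → ℂ) (C : ℝ) (hu : ∀ N, ‖u N‖ ≤ C) :
    Tendsto (fun N : ℕ => (1 / (N : ℂ)) * u N) 𝒰 (𝓝 0) := by
  have h1 : Tendsto (fun N : ℕ => C / (N : ℝ)) 𝒰 (𝓝 0) :=
    (tendsto_const_div_atTop_nhds_zero_nat C).mono_left h𝒰
  refine squeeze_zero_norm (fun N => ?_) h1
  rw [norm_mul, norm_div, norm_one, Complex.norm_natCast, div_mul_eq_mul_div, one_mul]
  exact div_le_div_of_nonneg_right (hu N) (Nat.cast_nonneg _)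

lemma spec_shift {y : ℤ → K} {B : ℝ} (hy : ∀ m, ‖y m‖ ≤ B) {𝒰 : Filter ℕ} (h𝒰 : 𝒰 ≤ atTop)
    {σ : Measure UnitAddCircle} (h : IsSpec y 𝒰 σ) (k : ℤ) (n : ℕ) :
    Tendsto (fun N : ℕ => (1 / (N : ℂ)) * ∑ m ∈ Ioc (0 : ℤ) N, ⟪y (m + k), y (m + k + n)⟫_ℂ) 𝒰
      (𝓝 (∫ η, (fourier (n : ℤ) η : ℂ) ∂σ)) := by
  have hB : 0 ≤ B := (norm_nonneg _).trans (hy 0)
  have h1 := tendsto_inv_mul h𝒰 (fun N : ℕ => ∑ m ∈ Ioc (0 : ℤ) N, ⟪y (m + k), y (m + k + n)⟫_ℂ -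
    ∑ m ∈ Ioc (0 : ℤ) N, ⟪y m, y (m + n)⟫_ℂ) (2 * k.natAbs * (B * B)) (fun N => by
      have e1 := sum_Ioc_shift (fun m : ℤ => (⟪y m, y (m + n)⟫_ℂ : ℂ)) 0 (N : ℤ) k
      rw [e1]
      refine moving' (fun m : ℤ => (⟪y m, y (m + n)⟫_ℂ : ℂ)) (B * B) (fun m => ?_) 0 N (by omega) k k.natAbs
        (by rw [Int.abs_eq_natAbs])
      exact (norm_inner_le_norm _ _).trans (mul_le_mul (hy _) (hy _) (norm_nonneg _) hB))
  have h2 := h1.add (h n)
  rw [zero_add] at h2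
  refine h2.congr fun N => ?_
  ring

lemma spec_all {y : ℤ → K} {B : ℝ} (hy : ∀ m, ‖y m‖ ≤ B) {𝒰 : Filter ℕ} (h𝒰 : 𝒰 ≤ atTop)
    {σ : Measure UnitAddCircle} [IsFiniteMeasure σ] (h : IsSpec y 𝒰 σ) (k l : ℤ) :
    Tendsto (fun N : ℕ => (1 / (N : ℂ)) * ∑ m ∈ Ioc (0 : ℤ) N, ⟪y (m + k), y (m + l)⟫_ℂ) 𝒰
      (𝓝 (∫ η, (fourier (l - k) η : ℂ) ∂σ)) := by
  rcases le_total k l with hkl | hkl
  · obtain ⟨n, hn⟩ := Int.eq_ofNat_of_zero_le (Int.sub_nonneg_of_le hkl)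
    have h1 := spec_shift hy h𝒰 h k n
    rw [hn]
    refine h1.congr fun N => ?_
    congr 1
    refine sum_congr rfl fun m _ => ?_
    congr 2
    omega
  · obtain ⟨n, hn⟩ := Int.eq_ofNat_of_zero_le (Int.sub_nonneg_of_le hkl)
    have h1 := spec_shift hy h𝒰 h l n
    have h2 := (Complex.continuous_conj.tendsto _).comp h1
    have e1 : (starRingEnd ℂ) (∫ η, (fourier (n : ℤ) η : ℂ) ∂σ) = ∫ η, (fourier (l - k) η : ℂ) ∂σ := by
      rw [← integral_conj]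
      refine integral_congr_ae (ae_of_all _ fun η => ?_)
      show (starRingEnd ℂ) (fourier (n : ℤ) η : ℂ) = _
      rw [← fourier_neg]
      congr 2
      omega
    rw [e1] at h2
    refine h2.congr fun N => ?_
    simp only [Function.comp_apply, map_mul, map_div₀, map_one, map_natCast, map_sum]
    congr 1
    refine sum_congr rfl fun m _ => ?_
    rw [inner_conj_symm]
    congr 2
    omega

/-- the mean square of a filtered sequence -/
lemma spec_sq {y : ℤ → K} {B : ℝ} (hy : ∀ m, ‖y m‖ ≤ B) {𝒰 : Filter ℕ} (h𝒰 : 𝒰 ≤ atTop)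
    {σ : Measure UnitAddCircle} [IsFiniteMeasure σ] (h : IsSpec y 𝒰 σ) (S : Finset ℤ) (c : ℤ → ℂ) :
    Tendsto (fun N : ℕ => (1 / (N : ℝ)) * ∑ m ∈ Ioc (0 : ℤ) N, ‖∑ k ∈ S, c k • y (m + k)‖ ^ 2) 𝒰
      (𝓝 (∫ η, ‖TP S c η‖ ^ 2 ∂σ)) := by
  have h1 : Tendsto (fun N : ℕ => ∑ k ∈ S, ∑ l ∈ S, (starRingEnd ℂ) (c k) * c l *
      ((1 / (N : ℂ)) * ∑ m ∈ Ioc (0 : ℤ) N, ⟪y (m + k), y (m + l)⟫_ℂ)) 𝒰
      (𝓝 (∑ k ∈ S, ∑ l ∈ S, (starRingEnd ℂ) (c k) * c l * ∫ η, (fourier (l - k) η : ℂ) ∂σ)) :=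
    tendsto_finsetSum _ fun k _ => tendsto_finsetSum _ fun l _ =>
      (spec_all hy h𝒰 h k l).const_mul _
  rw [← int_sq σ S c] at h1
  have h2 := (Complex.continuous_re.tendsto _).comp h1
  rw [Complex.ofReal_re] at h2
  refine h2.congr fun N => ?_
  simp only [Function.comp_apply]
  have h3 : ∀ m : ℤ, ((‖∑ k ∈ S, c k • y (m + k)‖ ^ 2 : ℝ) : ℂ) =
      ∑ k ∈ S, ∑ l ∈ S, (starRingEnd ℂ) (c k) * c l * ⟪y (m + k), y (m + l)⟫_ℂ := by
    intro m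
    have := inner_self_eq_norm_sq_to_K (𝕜 := ℂ) (∑ k ∈ S, c k • y (m + k))
    rw [sum_inner] at this
    simp_rw [inner_sum, inner_smul_left, inner_smul_right] at this
    have h5 : ((‖∑ k ∈ S, c k • y (m + k)‖ ^ 2 : ℝ) : ℂ) = (‖∑ k ∈ S, c k • y (m + k)‖ : ℂ) ^ 2 := by
      push_cast
      rfl
    rw [h5]
    refine this.symm.trans ?_
    refine sum_congr rfl fun k _ => sum_congr rfl fun l _ => ?_
    ring
  have h4 : (((1 / (N : ℝ)) * ∑ m ∈ Ioc (0 : ℤ) N, ‖∑ k ∈ S, c k • y (m + k)‖ ^ 2 : ℝ) : ℂ) =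
      ∑ k ∈ S, ∑ l ∈ S, (starRingEnd ℂ) (c k) * c l *
        ((1 / (N : ℂ)) * ∑ m ∈ Ioc (0 : ℤ) N, ⟪y (m + k), y (m + l)⟫_ℂ) := by
    rw [Complex.ofReal_mul, Complex.ofReal_sum]
    simp_rw [h3]
    rw [sum_comm, mul_sum]
    refine sum_congr rfl fun k _ => ?_
    rw [sum_comm, mul_sum]
    refine sum_congr rfl fun l _ => ?_
    push_cast
    rw [← mul_sum]
    ring
  rw [← h4, Complex.ofReal_re]

/-- the coefficients of the remainder -/
def bz (S : Finset ℤ) (c : ℤ → ℂ) (k : ℤ) : ℂ := (if k = 0 then 1 else 0) - if k ∈ S then c k else 0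

lemma zw_eq (S : Finset ℤ) (c : ℤ → ℂ) (y : ℤ → K) (m : ℤ) :
    zw S c y m = ∑ k ∈ insert 0 S, bz S c k • y (m + k) := by
  unfold zw bz
  simp_rw [sub_smul]
  rw [sum_sub_distrib]
  congr 1
  · rw [sum_eq_single (0 : ℤ)]
    · simp
    · intro k _ hk
      rw [if_neg hk, zero_smul]
    · intro h
      exact absurd (mem_insert_self _ _) h
  · rw [← sum_subset (subset_insert 0 S)]
    · exact sum_congr rfl fun k hk => by rw [if_pos hk]
    · intro k _ hk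
      rw [if_neg hk, zero_smul]

lemma TP_bz (S : Finset ℤ) (c : ℤ → ℂ) (η : UnitAddCircle) :
    TP (insert 0 S) (bz S c) η = 1 - TP S c η := by
  unfold TP bz
  simp_rw [sub_mul]
  rw [sum_sub_distrib]
  congr 1
  · rw [sum_eq_single (0 : ℤ)]
    · simp
    · intro k _ hk
      rw [if_neg hk, zero_mul]
    · intro h
      exact absurd (mem_insert_self _ _) h
  · rw [← sum_subset (subset_insert 0 S)]
    · exact sum_congr rfl fun k hk => by rw [if_pos hk]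
    · intro k _ hk
      rw [if_neg hk, zero_mul]

lemma spec_zw {y : ℤ → K} {B : ℝ} (hy : ∀ m, ‖y m‖ ≤ B) {𝒰 : Filter ℕ} (h𝒰 : 𝒰 ≤ atTop)
    {σ : Measure UnitAddCircle} [IsFiniteMeasure σ] (h : IsSpec y 𝒰 σ) (S : Finset ℤ) (c : ℤ → ℂ) :
    Tendsto (fun N : ℕ => (1 / (N : ℝ)) * ∑ m ∈ Ioc (0 : ℤ) N, ‖zw S c y m‖ ^ 2) 𝒰
      (𝓝 (∫ η, ‖1 - TP S c η‖ ^ 2 ∂σ)) := by
  have h1 := spec_sq hy h𝒰 h (insert 0 S) (bz S c)
  simp_rw [TP_bz] at h1
  refine h1.congr fun N => ?_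
  simp_rw [zw_eq]

end limits

end

end Pool.Agent.R296.SM
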