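import Pool.Agent.R296.SM.Main

set_option autoImplicit false

/-! # Spectral measures of families of sequences along scales -/

namespace Pool.Agent.R296.SM

open Finset MeasureTheory Filter Topology

noncomputable section

section limits

variable {K : Type*} [NormedAddCommGroup K] [InnerProductSpace ℂ K]

open scoped InnerProductSpace

/-- `σ` is the spectral measure of the sequences `y j` at the scales `a j`, along `𝒱` -/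
def SpecU (y : ℕ → ℤ → K) (a : ℕ → ℕ) (𝒱 : Filter ℕ) (σ : Measure UnitAddCircle) : Prop :=
  ∀ h : ℕ, Tendsto (fun j : ℕ => (1 / (a j : ℂ)) * ∑ m ∈ Ioc (0 : ℤ) (a j), ⟪y j m, y j (m + h)⟫_ℂ) 𝒱
    (𝓝 (∫ η, (fourier (h : ℤ) η : ℂ) ∂σ))

lemma tendsto_inv_mulU {a : ℕ → ℕ} {𝒱 : Filter ℕ} (h𝒱 : Tendsto a 𝒱 atTop) (u : ℕ → ℂ) (C : ℝ) (hu : ∀ j, ‖u j‖ ≤ C) :
    Tendsto (fun j : ℕ => (1 / (a j : ℂ)) * u j) 𝒱 (𝓝 0) := by
  have h1 : Tendsto (fun j : ℕ => C / (a j : ℝ)) 𝒱 (𝓝 0) :=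
    (tendsto_const_div_atTop_nhds_zero_nat C).comp h𝒱
  refine squeeze_zero_norm (fun j => ?_) h1
  rw [norm_mul, norm_div, norm_one, Complex.norm_natCast, div_mul_eq_mul_div, one_mul]
  exact div_le_div_of_nonneg_right (hu j) (Nat.cast_nonneg _)

lemma specU_shift {y : ℕ → ℤ → K} {B : ℝ} (hy : ∀ j m, ‖y j m‖ ≤ B) {a : ℕ → ℕ} {𝒱 : Filter ℕ}
    (h𝒱 : Tendsto a 𝒱 atTop) {σ : Measure UnitAddCircle} (h : SpecU y a 𝒱 σ) (k : ℤ) (n : ℕ) :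
    Tendsto (fun j : ℕ => (1 / (a j : ℂ)) * ∑ m ∈ Ioc (0 : ℤ) (a j), ⟪y j (m + k), y j (m + k + n)⟫_ℂ) 𝒱
      (𝓝 (∫ η, (fourier (n : ℤ) η : ℂ) ∂σ)) := by
  have hB : 0 ≤ B := (norm_nonneg _).trans (hy 0 0)
  have h1 := tendsto_inv_mulU h𝒱 (fun j : ℕ => ∑ m ∈ Ioc (0 : ℤ) (a j), ⟪y j (m + k), y j (m + k + n)⟫_ℂ -
    ∑ m ∈ Ioc (0 : ℤ) (a j), ⟪y j m, y j (m + n)⟫_ℂ) (2 * k.natAbs * (B * B)) (fun j => by
      have e1 := sum_Ioc_shift (fun m : ℤ => (⟪y j m, y j (m + n)⟫_ℂ : ℂ)) 0 (a j : ℤ) k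
      rw [e1]
      refine moving' (fun m : ℤ => (⟪y j m, y j (m + n)⟫_ℂ : ℂ)) (B * B) (fun m => ?_) 0 (a j) (by omega) k k.natAbs
        (by rw [Int.abs_eq_natAbs])
      exact (norm_inner_le_norm _ _).trans (mul_le_mul (hy _ _) (hy _ _) (norm_nonneg _) hB))
  have h2 := h1.add (h n)
  rw [zero_add] at h2
  refine h2.congr fun j => ?_
  ring

lemma specU_all {y : ℕ → ℤ → K} {B : ℝ} (hy : ∀ j m, ‖y j m‖ ≤ B) {a : ℕ → ℕ} {𝒱 : Filter ℕ}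
    (h𝒱 : Tendsto a 𝒱 atTop) {σ : Measure UnitAddCircle} [IsFiniteMeasure σ] (h : SpecU y a 𝒱 σ) (k l : ℤ) :
    Tendsto (fun j : ℕ => (1 / (a j : ℂ)) * ∑ m ∈ Ioc (0 : ℤ) (a j), ⟪y j (m + k), y j (m + l)⟫_ℂ) 𝒱
      (𝓝 (∫ η, (fourier (l - k) η : ℂ) ∂σ)) := by
  rcases le_total k l with hkl | hkl
  · obtain ⟨n, hn⟩ := Int.eq_ofNat_of_zero_le (Int.sub_nonneg_of_le hkl)
    have h1 := specU_shift hy h𝒱 h k n
    rw [hn]
    refine h1.congr fun j => ?_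
    congr 1
    refine sum_congr rfl fun m _ => ?_
    congr 2
    omega
  · obtain ⟨n, hn⟩ := Int.eq_ofNat_of_zero_le (Int.sub_nonneg_of_le hkl)
    have h1 := specU_shift hy h𝒱 h l n
    have h2 := (Complex.continuous_conj.tendsto _).comp h1
    have e1 : (starRingEnd ℂ) (∫ η, (fourier (n : ℤ) η : ℂ) ∂σ) = ∫ η, (fourier (l - k) η : ℂ) ∂σ := by
      rw [← integral_conj]
      refine integral_congr_ae (ae_of_all _ fun η => ?_)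
      show (starRingEnd ℂ) (fourier (n : ℤ) η : ℂ) = _
      rw [← fourier_neg]
      congr 2
      omega
    rw [e1] at h2
    refine h2.congr fun j => ?_
    simp only [Function.comp_apply, map_mul, map_div₀, map_one, map_natCast, map_sum]
    congr 1
    refine sum_congr rfl fun m _ => ?_
    rw [inner_conj_symm]
    congr 2
    omega

/-- the mean square of a filtered sequence -/
lemma specU_sq {y : ℕ → ℤ → K} {B : ℝ} (hy : ∀ j m, ‖y j m‖ ≤ B) {a : ℕ → ℕ} {𝒱 : Filter ℕ}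
    (h𝒱 : Tendsto a 𝒱 atTop) {σ : Measure UnitAddCircle} [IsFiniteMeasure σ] (h : SpecU y a 𝒱 σ) (S : Finset ℤ)
    (c : ℤ → ℂ) :
    Tendsto (fun j : ℕ => (1 / (a j : ℝ)) * ∑ m ∈ Ioc (0 : ℤ) (a j), ‖∑ k ∈ S, c k • y j (m + k)‖ ^ 2) 𝒱
      (𝓝 (∫ η, ‖TP S c η‖ ^ 2 ∂σ)) := by
  have h1 : Tendsto (fun j : ℕ => ∑ k ∈ S, ∑ l ∈ S, (starRingEnd ℂ) (c k) * c l *
      ((1 / (a j : ℂ)) * ∑ m ∈ Ioc (0 : ℤ) (a j), ⟪y j (m + k), y j (m + l)⟫_ℂ)) 𝒱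
      (𝓝 (∑ k ∈ S, ∑ l ∈ S, (starRingEnd ℂ) (c k) * c l * ∫ η, (fourier (l - k) η : ℂ) ∂σ)) :=
    tendsto_finsetSum _ fun k _ => tendsto_finsetSum _ fun l _ =>
      (specU_all hy h𝒱 h k l).const_mul _
  rw [← int_sq σ S c] at h1
  have h2 := (Complex.continuous_re.tendsto _).comp h1
  rw [Complex.ofReal_re] at h2
  refine h2.congr fun j => ?_
  simp only [Function.comp_apply]
  have h3 : ∀ m : ℤ, ((‖∑ k ∈ S, c k • y j (m + k)‖ ^ 2 : ℝ) : ℂ) =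
      ∑ k ∈ S, ∑ l ∈ S, (starRingEnd ℂ) (c k) * c l * ⟪y j (m + k), y j (m + l)⟫_ℂ := by
    intro m
    have := inner_self_eq_norm_sq_to_K (𝕜 := ℂ) (∑ k ∈ S, c k • y j (m + k))
    rw [sum_inner] at this
    simp_rw [inner_sum, inner_smul_left, inner_smul_right] at this
    have h5 : ((‖∑ k ∈ S, c k • y j (m + k)‖ ^ 2 : ℝ) : ℂ) = (‖∑ k ∈ S, c k • y j (m + k)‖ : ℂ) ^ 2 := by
      push_cast
      rfl
    rw [h5]
    refine this.symm.trans ?_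
    refine sum_congr rfl fun k _ => sum_congr rfl fun l _ => ?_
    ring
  have h4 : (((1 / (a j : ℝ)) * ∑ m ∈ Ioc (0 : ℤ) (a j), ‖∑ k ∈ S, c k • y j (m + k)‖ ^ 2 : ℝ) : ℂ) =
      ∑ k ∈ S, ∑ l ∈ S, (starRingEnd ℂ) (c k) * c l *
        ((1 / (a j : ℂ)) * ∑ m ∈ Ioc (0 : ℤ) (a j), ⟪y j (m + k), y j (m + l)⟫_ℂ) := by
    rw [Complex.ofReal_mul, Complex.ofReal_sum]
    simp_rw [h3]
    rw [sum_comm, mul_sum]
    refine sum_congr rfl fun k _ => ?_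
    rw [sum_comm, mul_sum]
    refine sum_congr rfl fun l _ => ?_
    push_cast
    rw [← mul_sum]
    ring
  rw [← h4, Complex.ofReal_re]

lemma specU_zw {y : ℕ → ℤ → K} {B : ℝ} (hy : ∀ j m, ‖y j m‖ ≤ B) {a : ℕ → ℕ} {𝒱 : Filter ℕ}
    (h𝒱 : Tendsto a 𝒱 atTop) {σ : Measure UnitAddCircle} [IsFiniteMeasure σ] (h : SpecU y a 𝒱 σ) (S : Finset ℤ)
    (c : ℤ → ℂ) :
    Tendsto (fun j : ℕ => (1 / (a j : ℝ)) * ∑ m ∈ Ioc (0 : ℤ) (a j), ‖zw S c (y j) m‖ ^ 2) 𝒱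
      (𝓝 (∫ η, ‖1 - TP S c η‖ ^ 2 ∂σ)) := by
  have h1 := specU_sq hy h𝒱 h (insert 0 S) (bz S c)
  simp_rw [TP_bz] at h1
  refine h1.congr fun j => ?_
  simp_rw [zw_eq]

/-- **The criterion**, uniformly over a family of sequences. -/
theorem criterionU {ι : Type*} (y : ι → ℤ → K) (B : ℝ) (hy : ∀ i m, ‖y i m‖ ≤ B) (E : Set ℕ) (𝓗 : Set (ℕ → ℂ))
    (h𝓗 : ∀ h ∈ 𝓗, ∀ n, ‖h n‖ ≤ 1)
    (hyp : ∀ (a : ℕ → ℕ) (s : ℕ → ι) (𝒱 : Ultrafilter ℕ), (∀ j, a j ∉ E) → Tendsto a 𝒱 atTop →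
      ∃ σ : Measure UnitAddCircle, IsFiniteMeasure σ ∧ SpecU (fun j => y (s j)) a 𝒱 σ ∧
        ∀ δ : ℝ, 0 < δ → Isolates E 𝓗 σ δ)
    (ε : ℝ) (hε : 0 < ε) :
    ∃ H₀ : ℕ, 1 ≤ H₀ ∧ ∀ H : ℕ, H₀ ≤ H → ∀ N : ℕ, H₀ * H ≤ N → N ∉ E → ∀ h ∈ 𝓗, ∀ i,
      ∑ x ∈ range N, ‖∑ m ∈ Ioc (x : ℤ) (x + H), ext0 h m • y i m‖ ^ 2 ≤ ε * H ^ 2 * N := by
  classical
  by_contra hcon
  have hcon' : ∀ j : ℕ, ∃ (H N : ℕ) (h : ℕ → ℂ) (i : ι), j + 1 ≤ H ∧ (j + 1) * H ≤ N ∧ N ∉ E ∧ h ∈ 𝓗 ∧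
      ε * H ^ 2 * N < ∑ x ∈ range N, ‖∑ m ∈ Ioc (x : ℤ) (x + H), ext0 h m • y i m‖ ^ 2 := by
    intro j
    by_contra h
    apply hcon
    refine ⟨j + 1, by omega, fun H hH N hN hNE g hg i => ?_⟩
    by_contra h1
    exact h ⟨H, N, g, i, hH, hN, hNE, hg, not_le.1 h1⟩
  choose Hf a hf s hH1 hN1 hNE hf1 hf2 using hcon'
  have hB : 0 ≤ B := (norm_nonneg _).trans (hy (s 0) 0)
  have haj : ∀ j, j + 1 ≤ a j := by
    intro j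
    calc j + 1 ≤ (j + 1) * 1 := by omega
      _ ≤ (j + 1) * Hf j := Nat.mul_le_mul_left _ (by have := hH1 j; omega)
      _ ≤ _ := hN1 j
  have hat : Tendsto a atTop atTop := tendsto_atTop_mono haj (tendsto_add_atTop_nat 1)
  obtain ⟨𝒱, h𝒱⟩ : ∃ 𝒱 : Ultrafilter ℕ, (𝒱 : Filter ℕ) ≤ atTop := Ultrafilter.exists_le atTop
  have h𝒱a : Tendsto a 𝒱 atTop := hat.mono_left h𝒱
  obtain ⟨σ, hσ, hspec, hiso⟩ := hyp a s 𝒱 hNE h𝒱a
  obtain ⟨s', hs⟩ : ∃ s' : ℝ, s' = σ.real Set.univ := ⟨_, rfl⟩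
  have hs0 : 0 ≤ s' := by rw [hs]; exact measureReal_nonneg
  -- the parameters
  obtain ⟨δ, hδ⟩ : ∃ δ : ℝ, δ = min 1 (ε / (24 * (1 + s' + B ^ 2))) := ⟨_, rfl⟩
  have hδ0 : 0 < δ := by rw [hδ]; positivity
  have hδ1 : δ ≤ 1 := by rw [hδ]; exact min_le_left _ _
  have hδ2 : δ * (24 * (1 + s' + B ^ 2)) ≤ ε := by
    rw [← le_div_iff₀ (by positivity), hδ]
    exact min_le_right _ _
  obtain ⟨f, hf0, hfσ, N₀, hfN⟩ := hiso δ hδ0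
  obtain ⟨S, c, hSc⟩ := exists_TP f δ hδ0
  obtain ⟨D, hD⟩ : ∃ D : ℕ, ∀ k ∈ S, |k| ≤ (D : ℤ) := by
    refine ⟨∑ k ∈ S, k.natAbs, fun k hk => ?_⟩
    rw [Int.abs_eq_natAbs]
    exact_mod_cast single_le_sum (f := fun k : ℤ => k.natAbs) (fun _ _ => Nat.zero_le _) hk
  obtain ⟨C1, hC1⟩ : ∃ C1 : ℝ, C1 = ∑ k ∈ S, ‖c k‖ := ⟨_, rfl⟩
  have hC10 : 0 ≤ C1 := by rw [hC1]; exact sum_nonneg fun _ _ => norm_nonneg _
  -- the spectral measure of the remainder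
  have hq : ∫ η, ‖1 - TP S c η‖ ^ 2 ∂σ ≤ 2 * δ + 2 * δ ^ 2 * s' := by
    calc ∫ η, ‖1 - TP S c η‖ ^ 2 ∂σ ≤ ∫ η, (2 * (1 - f η) ^ 2 + 2 * δ ^ 2) ∂σ := by
          apply integral_mono
          · exact int_of_cont ((continuous_const.sub (TP_cont S c)).norm.pow 2) σ
          · exact int_of_cont (by fun_prop) σ
          intro η
          simp only
          have h1 : ‖1 - TP S c η‖ ≤ (1 - f η) + δ := by
            have h2 : 1 - TP S c η = (((1 - f η : ℝ)) : ℂ) - (TP S c η - (f η : ℂ)) := by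
              push_cast; ring
            rw [h2]
            refine (norm_sub_le _ _).trans (add_le_add ?_ (hSc η))
            rw [Complex.norm_real, Real.norm_eq_abs, abs_of_nonneg (by linarith [(hf0 η).2])]
          calc ‖1 - TP S c η‖ ^ 2 ≤ ((1 - f η) + δ) ^ 2 := pow_le_pow_left₀ (norm_nonneg _) h1 2
            _ ≤ _ := sq_two _ _
      _ = 2 * ∫ η, (1 - f η) ^ 2 ∂σ + 2 * δ ^ 2 * s' := by
          rw [integral_add, integral_const_mul, integral_const, smul_eq_mul, hs]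
          · ring
          · exact int_of_cont (by fun_prop) σ
          · exact integrable_const _
      _ ≤ _ := by linarith
  -- the weights
  have hSZ : ∀ N : ℕ, N₀ ≤ N → N ∉ E → ∀ h ∈ 𝓗,
      ∫ η : UnitAddCircle, ‖TP S c η‖ ^ 2 * ‖SZ (ext0 h) N η‖ ^ 2 ≤ 4 * δ * N := by
    intro N hN hNE' h hh
    have hp : ∫ η : UnitAddCircle, ‖SZ (ext0 h) N η‖ ^ 2 ≤ N := by
      rw [SZ_eq_TP, pars]
      calc ∑ k ∈ Ioc (0 : ℤ) N, ‖ext0 h k‖ ^ 2 ≤ ∑ _k ∈ Ioc (0 : ℤ) (N : ℤ), (1 : ℝ) :=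
            sum_le_sum fun m _ => pow_le_one₀ (norm_nonneg _) (ext0_le (h𝓗 h hh) m)
        _ = N := by rw [sum_const, nsmul_eq_mul, mul_one, Int.card_Ioc]; simp
    have hcS : Continuous fun η => ‖SZ (ext0 h) N η‖ ^ 2 := by
      rw [SZ_eq_TP]
      exact (TP_cont _ _).norm.pow 2
    calc ∫ η : UnitAddCircle, ‖TP S c η‖ ^ 2 * ‖SZ (ext0 h) N η‖ ^ 2 ≤
        ∫ η : UnitAddCircle, (2 * (f η ^ 2 * ‖SZ (ext0 h) N η‖ ^ 2) + 2 * δ ^ 2 * ‖SZ (ext0 h) N η‖ ^ 2) := by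
          apply integral_mono
          · exact int_of_cont (((TP_cont S c).norm.pow 2).mul hcS) _
          · exact int_of_cont (by fun_prop) _
          intro η
          simp only
          have h1 : ‖TP S c η‖ ≤ f η + δ := by
            have h2 : TP S c η = ((f η : ℝ) : ℂ) + (TP S c η - (f η : ℂ)) := by ring
            rw [h2]
            refine (norm_add_le _ _).trans (add_le_add ?_ (hSc η))
            rw [Complex.norm_real, Real.norm_eq_abs, abs_of_nonneg (hf0 η).1]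
          have h3 : ‖TP S c η‖ ^ 2 ≤ 2 * f η ^ 2 + 2 * δ ^ 2 :=
            (pow_le_pow_left₀ (norm_nonneg _) h1 2).trans (sq_two _ _)
          calc ‖TP S c η‖ ^ 2 * ‖SZ (ext0 h) N η‖ ^ 2 ≤ (2 * f η ^ 2 + 2 * δ ^ 2) * ‖SZ (ext0 h) N η‖ ^ 2 :=
                mul_le_mul_of_nonneg_right h3 (sq_nonneg _)
            _ = _ := by ring
      _ = 2 * (∫ η : UnitAddCircle, f η ^ 2 * ‖SZ (ext0 h) N η‖ ^ 2) +
          2 * δ ^ 2 * (∫ η : UnitAddCircle, ‖SZ (ext0 h) N η‖ ^ 2) := by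
          rw [integral_add, integral_const_mul, integral_const_mul]
          · exact int_of_cont (by fun_prop) _
          · exact int_of_cont (continuous_const.mul hcS) _
      _ ≤ 2 * (δ * N) + 2 * δ ^ 2 * N := by
          have h1 := hfN N hN hNE' h hh
          have h2 : 2 * δ ^ 2 * (∫ η : UnitAddCircle, ‖SZ (ext0 h) N η‖ ^ 2) ≤ 2 * δ ^ 2 * N :=
            mul_le_mul_of_nonneg_left hp (by positivity)
          linarith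
      _ ≤ 4 * δ * N := by
          have h1 : δ ^ 2 ≤ δ := by nlinarith
          have h2 : 2 * δ ^ 2 * N ≤ 2 * δ * (N : ℝ) := mul_le_mul_of_nonneg_right (by linarith) (Nat.cast_nonneg _)
          linarith
  -- the limit
  have hlim := specU_zw (fun j => hy (s j)) h𝒱a hspec S c
  have hev2 : ∀ᶠ j : ℕ in (𝒱 : Filter ℕ), (1 / (a j : ℝ)) * ∑ m ∈ Ioc (0 : ℤ) (a j), ‖zw S c (y (s j)) m‖ ^ 2 <
      2 * δ + 2 * δ ^ 2 * s' + δ := hlim.eventually (gt_mem_nhds (by linarith))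
  obtain ⟨Mz, hMz⟩ : ∃ Mz : ℝ, Mz = (B * (1 + C1)) ^ 2 := ⟨_, rfl⟩
  obtain ⟨R, hR⟩ : ∃ R : ℝ, R = (2 * D * B * C1) ^ 2 := ⟨_, rfl⟩
  have hMz0 : 0 ≤ Mz := by rw [hMz]; positivity
  have hR0 : 0 ≤ R := by rw [hR]; positivity
  obtain ⟨Q, hQ⟩ : ∃ Q : ℝ, Q = Mz + B ^ 2 * C1 ^ 2 * (D + 1) + R := ⟨_, rfl⟩
  have hQ0 : 0 ≤ Q := by rw [hQ]; positivity
  have hev3 : ∀ᶠ j : ℕ in (𝒱 : Filter ℕ), N₀ ≤ j ∧ Q / δ ≤ j :=
    h𝒱 ((eventually_ge_atTop N₀).and ((tendsto_natCast_atTop_atTop (R := ℝ)).eventually_ge_atTop (Q / δ)))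
  obtain ⟨j, hj1, hj2, hj3⟩ := (hev2.and hev3).exists
  -- the inequality at `j`
  obtain ⟨X, hX⟩ : ∃ X : ℕ, X = a j := ⟨_, rfl⟩
  obtain ⟨H, hH⟩ : ∃ H : ℕ, H = Hf j := ⟨_, rfl⟩
  obtain ⟨h, hh⟩ : ∃ h : ℕ → ℂ, h = hf j := ⟨_, rfl⟩
  obtain ⟨z, hz⟩ : ∃ z : ℤ → K, z = y (s j) := ⟨_, rfl⟩
  have hzB : ∀ m, ‖z m‖ ≤ B := by rw [hz]; exact hy (s j)
  have hXH : (j + 1) * H ≤ X := by rw [hX, hH]; exact hN1 j
  have hHj : j + 1 ≤ H := by rw [hH]; exact hH1 j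
  have hXE : X ∉ E := by rw [hX]; exact hNE j
  have hh𝓗 : h ∈ 𝓗 := by rw [hh]; exact hf1 j
  have hbig : ε * H ^ 2 * X < ∑ x ∈ range X, ‖∑ m ∈ Ioc (x : ℤ) (x + H), ext0 h m • z m‖ ^ 2 := by
    rw [hX, hH, hh, hz]; exact hf2 j
  have hXj : j + 1 ≤ X := by rw [hX]; exact haj j
  have hXr : (0 : ℝ) < X := by exact_mod_cast (by omega : 0 < X)
  have hHr : (0 : ℝ) < H := by exact_mod_cast (by omega : 0 < H)
  have w1 := windows_le S c D hD (ext0 h) (ext0_le (h𝓗 h hh𝓗)) z B hzB X H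
  have w2 := tail_le (fun m => ‖zw S c z m‖ ^ 2) Mz (fun m => by
    rw [hMz, hC1]
    exact pow_le_pow_left₀ (norm_nonneg _) (zw_le S c z B hzB m) 2) X H
  have w3 := tail_le (fun m => ‖gw S c (ext0 h) m‖ ^ 2) (C1 ^ 2) (fun m => by
    rw [hC1]
    exact pow_le_pow_left₀ (norm_nonneg _) (gw_le S c (ext0 h) (ext0_le (h𝓗 h hh𝓗)) m) 2) X H
  have w4 := gw_sq S c D hD (ext0 h) (ext0_le (h𝓗 h hh𝓗)) (fun m hm => by
    unfold ext0; rw [if_neg (by omega)]) X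
  have w5 := hSZ X (by omega) hXE h hh𝓗
  rw [← hC1] at w1 w4
  rw [← hR] at w1
  rw [← hX, ← hz] at hj1
  have w6 : ∑ m ∈ Ioc (0 : ℤ) X, ‖zw S c z m‖ ^ 2 ≤ (2 * δ + 2 * δ ^ 2 * s' + δ) * X := by
    rw [one_div, inv_mul_lt_iff₀ hXr] at hj1
    linarith
  have e1 : (H : ℝ) * (j + 1) ≤ X := by
    have : (((j + 1) * H : ℕ) : ℝ) ≤ X := by exact_mod_cast hXH
    push_cast at this
    linarith
  have hQδ : Q ≤ δ * j := by
    rw [div_le_iff₀ hδ0] at hj3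
    linarith
  have f7 := arith hs0 hδ0 hδ1 hδ2 hMz0 hR0 hQ hXr.le (Nat.cast_nonneg j) (by exact_mod_cast (by omega : 1 ≤ H))
    (by exact_mod_cast (by omega : j ≤ H)) (Nat.cast_nonneg D) e1 hQδ w1 w2 w3 w4 w5 w6
  linarith

end limits

end

end Pool.Agent.R296.SM
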