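import Pool.Agent.R296.SM.Lim

set_option autoImplicit false

/-! # The spectral criterion -/

namespace Pool.Agent.R296.SM

open Finset MeasureTheory Filter Topology

noncomputable section

lemma vol_univ' : (volume : Measure UnitAddCircle).real Set.univ = 1 := by
  simp [Measure.real]

instance : IsProbabilityMeasure (volume : Measure UnitAddCircle) := ⟨UnitAddCircle.measure_univ⟩

lemma int_fourier (n : ℤ) : ∫ η : UnitAddCircle, (fourier n η : ℂ) = if n = 0 then 1 else 0 := by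
  split_ifs with h
  · subst h
    simp
  · exact integral_eq_zero_of_add_right_eq_neg (μ := volume)
      (fun x => fourier_add_half_inv_index h one_pos x)

/-- Parseval for trigonometric polynomials -/
lemma pars (S : Finset ℤ) (c : ℤ → ℂ) : ∫ η : UnitAddCircle, ‖TP S c η‖ ^ 2 = ∑ k ∈ S, ‖c k‖ ^ 2 := by
  have h1 := int_sq (volume : Measure UnitAddCircle) S c
  have h2 : ∑ k ∈ S, ∑ l ∈ S, (starRingEnd ℂ) (c k) * c l * ∫ η : UnitAddCircle, (fourier (l - k) η : ℂ) =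
      ((∑ k ∈ S, ‖c k‖ ^ 2 : ℝ) : ℂ) := by
    push_cast
    refine sum_congr rfl fun k hk => ?_
    rw [sum_eq_single k]
    · rw [int_fourier, if_pos (sub_self k), mul_one, Complex.conj_mul']
    · intro l _ hl
      rw [int_fourier, if_neg (sub_ne_zero.2 hl), mul_zero]
    · intro h; exact absurd hk h
  rw [h2] at h1
  exact_mod_cast h1

/-- the exponential sum -/
def SZ (h : ℤ → ℂ) (X : ℕ) (η : UnitAddCircle) : ℂ := ∑ m ∈ Ioc (0 : ℤ) X, h m * fourier m η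

lemma SZ_eq_TP (h : ℤ → ℂ) (X : ℕ) : SZ h X = TP (Ioc (0 : ℤ) X) h := rfl

/-- the truncated weight -/
def tr (h : ℤ → ℂ) (X : ℕ) (m : ℤ) : ℂ := if 0 < m ∧ m ≤ X then h m else 0

lemma TP_mul_SZ (S : Finset ℤ) (c : ℤ → ℂ) (D : ℕ) (hD : ∀ k ∈ S, |k| ≤ (D : ℤ)) (h : ℤ → ℂ) (X : ℕ)
    (η : UnitAddCircle) :
    TP S c η * SZ h X η = TP (Ioc (-(D : ℤ)) (X + D)) (gw S c (tr h X)) η := by
  unfold TP SZ gw
  rw [sum_mul]
  simp_rw [sum_mul]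
  rw [sum_comm]
  refine sum_congr rfl fun k hk => ?_
  have hk' := abs_le.1 (hD k hk)
  rw [mul_sum]
  have e1 := sum_Ioc_shift (fun m => c k * tr h X (m - k) * (fourier m η : ℂ)) 0 (X : ℤ) k
  have e2 : ∑ m ∈ Ioc (0 : ℤ) X, c k * (fourier k η : ℂ) * (h m * (fourier m η : ℂ)) =
      ∑ m ∈ Ioc (0 : ℤ) X, c k * tr h X (m + k - k) * (fourier (m + k) η : ℂ) := by
    refine sum_congr rfl fun m hm => ?_
    rw [mem_Ioc] at hm
    rw [add_sub_cancel_right, tr, if_pos hm, fourier_add]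
    ring
  rw [e2, e1]
  symm
  rw [← sum_subset (s₁ := Ioc (0 + k) (X + k))]
  · intro m hm
    rw [mem_Ioc] at hm ⊢
    omega
  · intro m _ hm
    rw [mem_Ioc] at hm
    rw [tr, if_neg (by omega), mul_zero, zero_mul]

/-- the filtered weight in mean square -/
lemma gw_sq (S : Finset ℤ) (c : ℤ → ℂ) (D : ℕ) (hD : ∀ k ∈ S, |k| ≤ (D : ℤ)) (h : ℤ → ℂ)
    (hh : ∀ m, ‖h m‖ ≤ 1) (h0 : ∀ m, m ≤ 0 → h m = 0) (X : ℕ) :
    ∑ m ∈ Ioc (0 : ℤ) X, ‖gw S c h m‖ ^ 2 ≤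
      (∫ η : UnitAddCircle, ‖TP S c η‖ ^ 2 * ‖SZ h X η‖ ^ 2) + D * (∑ k ∈ S, ‖c k‖) ^ 2 := by
  have h1 : ∫ η : UnitAddCircle, ‖TP S c η‖ ^ 2 * ‖SZ h X η‖ ^ 2 =
      ∑ m ∈ Ioc (-(D : ℤ)) (X + D), ‖gw S c (tr h X) m‖ ^ 2 := by
    rw [← pars]
    refine integral_congr_ae (ae_of_all _ fun η => ?_)
    show ‖TP S c η‖ ^ 2 * ‖SZ h X η‖ ^ 2 = _
    rw [← mul_pow, ← norm_mul, TP_mul_SZ S c D hD]
  have h2 : ∀ m : ℤ, m ≤ (X : ℤ) - D → gw S c h m = gw S c (tr h X) m := by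
    intro m hm
    unfold gw
    refine sum_congr rfl fun k hk => ?_
    have hk' := abs_le.1 (hD k hk)
    congr 1
    unfold tr
    by_cases hmk : 0 < m - k
    · rw [if_pos ⟨hmk, by omega⟩]
    · rw [if_neg (fun h => hmk h.1), h0 _ (by omega)]
  have h3 : Ioc (0 : ℤ) X = Ioc (0 : ℤ) (max 0 ((X : ℤ) - D)) ∪ Ioc (max 0 ((X : ℤ) - D)) X := by
    ext m
    simp only [mem_Ioc, mem_union]
    omega
  have h4 : Disjoint (Ioc (0 : ℤ) (max 0 ((X : ℤ) - D))) (Ioc (max 0 ((X : ℤ) - D)) X) := by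
    rw [disjoint_left]
    intro m hm hm'
    rw [mem_Ioc] at hm hm'
    omega
  rw [h3, sum_union h4, h1]
  refine add_le_add ?_ ?_
  · calc ∑ m ∈ Ioc (0 : ℤ) (max 0 ((X : ℤ) - D)), ‖gw S c h m‖ ^ 2 =
        ∑ m ∈ Ioc (0 : ℤ) (max 0 ((X : ℤ) - D)), ‖gw S c (tr h X) m‖ ^ 2 := by
          refine sum_congr rfl fun m hm => ?_
          rw [mem_Ioc] at hm
          rw [h2 m (by omega)]
      _ ≤ _ := by
          refine sum_le_sum_of_subset_of_nonneg ?_ fun _ _ _ => sq_nonneg _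
          intro m hm
          rw [mem_Ioc] at hm ⊢
          omega
  · calc ∑ m ∈ Ioc (max 0 ((X : ℤ) - D)) X, ‖gw S c h m‖ ^ 2 ≤
        ∑ _m ∈ Ioc (max 0 ((X : ℤ) - D)) (X : ℤ), (∑ k ∈ S, ‖c k‖) ^ 2 :=
          sum_le_sum fun m _ => pow_le_pow_left₀ (norm_nonneg _) (gw_le S c h hh m) 2
      _ ≤ _ := by
          rw [sum_const, nsmul_eq_mul]
          refine mul_le_mul_of_nonneg_right ?_ (sq_nonneg _)
          rw [Int.card_Ioc]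
          have : ((X : ℤ) - max 0 ((X : ℤ) - D)).toNat ≤ D := by omega
          exact_mod_cast this

/-- the weight as a function on the integers -/
def ext0 (h : ℕ → ℂ) (m : ℤ) : ℂ := if 0 < m then h m.toNat else 0

lemma ext0_le {h : ℕ → ℂ} (hh : ∀ n, ‖h n‖ ≤ 1) (m : ℤ) : ‖ext0 h m‖ ≤ 1 := by
  unfold ext0
  split_ifs
  · exact hh _
  · simp

lemma sq_two (a b : ℝ) : (a + b) ^ 2 ≤ 2 * a ^ 2 + 2 * b ^ 2 := by nlinarith [sq_nonneg (a - b)]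

lemma arith {ε δ s B C1 Mz R Q X H j D Z Z' G G' I W : ℝ} (hs0 : 0 ≤ s) (hδ0 : 0 < δ) (hδ1 : δ ≤ 1)
    (hδ2 : δ * (24 * (1 + s + B ^ 2)) ≤ ε) (hMz0 : 0 ≤ Mz) (hR0 : 0 ≤ R)
    (hQ : Q = Mz + B ^ 2 * C1 ^ 2 * (D + 1) + R) (hX : 0 ≤ X) (hj : 0 ≤ j) (hH1 : 1 ≤ H) (hjH : j ≤ H)
    (hD : 0 ≤ D) (e1 : H * (j + 1) ≤ X) (hQδ : Q ≤ δ * j)
    (w1 : W ≤ 3 * (H ^ 2 * Z' + H ^ 2 * B ^ 2 * G' + X * R)) (w2 : Z' ≤ Z + H * Mz) (w3 : G' ≤ G + H * C1 ^ 2)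
    (w4 : G ≤ I + D * C1 ^ 2) (w5 : I ≤ 4 * δ * X) (w6 : Z ≤ (2 * δ + 2 * δ ^ 2 * s + δ) * X) :
    W ≤ ε * H ^ 2 * X := by
  have hH0 : 0 < H := by linarith
  have hP : 0 ≤ B ^ 2 * C1 ^ 2 * (D + 1) := by positivity
  have f0 : H * j ≤ X := by
    have : H * (j + 1) = H * j + H := by ring
    linarith
  have f1 : H * Q ≤ δ * X := by
    calc H * Q ≤ H * (δ * j) := mul_le_mul_of_nonneg_left hQδ hH0.le
      _ = δ * (H * j) := by ring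
      _ ≤ δ * X := mul_le_mul_of_nonneg_left f0 hδ0.le
  have hjH2 : j ≤ H ^ 2 := by
    have : H * 1 ≤ H * H := mul_le_mul_of_nonneg_left hH1 hH0.le
    have e : H ^ 2 = H * H := by ring
    linarith
  have f2 : R ≤ δ * H ^ 2 := by
    have : R ≤ Q := by linarith
    calc R ≤ δ * j := this.trans hQδ
      _ ≤ δ * H ^ 2 := mul_le_mul_of_nonneg_left hjH2 hδ0.le
  have f3 : H * Mz ≤ H * Q := mul_le_mul_of_nonneg_left (by linarith) hH0.le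
  have f4 : B ^ 2 * (D * C1 ^ 2 + H * C1 ^ 2) ≤ H * Q := by
    have g1 : B ^ 2 * (D * C1 ^ 2 + H * C1 ^ 2) ≤ H * (B ^ 2 * C1 ^ 2 * (D + 1)) := by
      have h1 : 1 * D ≤ H * D := mul_le_mul_of_nonneg_right hH1 hD
      calc B ^ 2 * (D * C1 ^ 2 + H * C1 ^ 2) = B ^ 2 * C1 ^ 2 * (D + H) := by ring
        _ ≤ B ^ 2 * C1 ^ 2 * (H * D + H) := mul_le_mul_of_nonneg_left (by linarith) (by positivity)
        _ = _ := by ring
    exact g1.trans (mul_le_mul_of_nonneg_left (by linarith) hH0.le)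
  have f5 : Z' ≤ (2 * δ + 2 * δ ^ 2 * s + 2 * δ) * X := by
    calc Z' ≤ Z + H * Mz := w2
      _ ≤ (2 * δ + 2 * δ ^ 2 * s + δ) * X + δ * X := add_le_add w6 (f3.trans f1)
      _ = _ := by ring
  have f6 : B ^ 2 * G' ≤ (4 * B ^ 2 * δ + δ) * X := by
    calc B ^ 2 * G' ≤ B ^ 2 * ((4 * δ * X + D * C1 ^ 2) + H * C1 ^ 2) :=
          mul_le_mul_of_nonneg_left (by linarith) (sq_nonneg _)
      _ = 4 * B ^ 2 * δ * X + B ^ 2 * (D * C1 ^ 2 + H * C1 ^ 2) := by ring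
      _ ≤ 4 * B ^ 2 * δ * X + δ * X := by linarith
      _ = _ := by ring
  have g1 : H ^ 2 * Z' ≤ H ^ 2 * ((2 * δ + 2 * δ ^ 2 * s + 2 * δ) * X) := mul_le_mul_of_nonneg_left f5 (sq_nonneg _)
  have g2 : H ^ 2 * B ^ 2 * G' ≤ H ^ 2 * ((4 * B ^ 2 * δ + δ) * X) := by
    rw [mul_assoc]
    exact mul_le_mul_of_nonneg_left f6 (sq_nonneg _)
  have g3 : X * R ≤ X * (δ * H ^ 2) := mul_le_mul_of_nonneg_left f2 hX
  calc W ≤ 3 * (H ^ 2 * ((2 * δ + 2 * δ ^ 2 * s + 2 * δ) * X) + H ^ 2 * ((4 * B ^ 2 * δ + δ) * X) +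
        X * (δ * H ^ 2)) := by linarith
    _ = (18 * δ + 6 * (δ ^ 2 * s) + 12 * (δ * B ^ 2)) * (H ^ 2 * X) := by ring
    _ ≤ ε * (H ^ 2 * X) := by
        apply mul_le_mul_of_nonneg_right _ (by positivity)
        have g2 : δ ^ 2 * s ≤ δ * s := mul_le_mul_of_nonneg_right (by nlinarith) hs0
        have g3 : 0 ≤ δ * s := by positivity
        have g4 : 0 ≤ δ * B ^ 2 := by positivity
        have g6 : δ * (24 * (1 + s + B ^ 2)) = 24 * δ + 24 * (δ * s) + 24 * (δ * B ^ 2) := by ring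
        rw [g6] at hδ2
        linarith
    _ = ε * H ^ 2 * X := by ring

section

variable {K : Type*} [NormedAddCommGroup K] [InnerProductSpace ℂ K]

/-- a continuous function which isolates the weights from the spectral measure -/
def Isolates (E : Set ℕ) (𝓗 : Set (ℕ → ℂ)) (σ : Measure UnitAddCircle) (δ : ℝ) : Prop :=
  ∃ f : C(UnitAddCircle, ℝ), (∀ η, 0 ≤ f η ∧ f η ≤ 1) ∧ ∫ η, (1 - f η) ^ 2 ∂σ ≤ δ ∧
    ∃ N₀ : ℕ, ∀ N : ℕ, N₀ ≤ N → N ∉ E → ∀ h ∈ 𝓗,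
      ∫ η : UnitAddCircle, f η ^ 2 * ‖SZ (ext0 h) N η‖ ^ 2 ≤ δ * N

/-- **The criterion.** -/
theorem criterion (y : ℤ → K) (B : ℝ) (hy : ∀ m, ‖y m‖ ≤ B) (E : Set ℕ) (𝓗 : Set (ℕ → ℂ))
    (h𝓗 : ∀ h ∈ 𝓗, ∀ n, ‖h n‖ ≤ 1)
    (hyp : ∀ 𝒰 : Ultrafilter ℕ, (𝒰 : Filter ℕ) ≤ atTop → Eᶜ ∈ (𝒰 : Filter ℕ) →
      ∃ σ : Measure UnitAddCircle, IsFiniteMeasure σ ∧ IsSpec y 𝒰 σ ∧ ∀ δ : ℝ, 0 < δ → Isolates E 𝓗 σ δ)
    (ε : ℝ) (hε : 0 < ε) :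
    ∃ H₀ : ℕ, 1 ≤ H₀ ∧ ∀ H : ℕ, H₀ ≤ H → ∀ N : ℕ, H₀ * H ≤ N → N ∉ E → ∀ h ∈ 𝓗,
      ∑ x ∈ range N, ‖∑ m ∈ Ioc (x : ℤ) (x + H), ext0 h m • y m‖ ^ 2 ≤ ε * H ^ 2 * N := by
  classical
  by_contra hcon
  push Not at hcon
  choose! Hf hH1 Nf hN1 hNE hf hf1 hf2 using hcon
  have hB : 0 ≤ B := (norm_nonneg _).trans (hy 0)
  -- the sequence of scales
  obtain ⟨a, ha⟩ : ∃ a : ℕ → ℕ, a = fun j => Nf (j + 1) := ⟨_, rfl⟩
  have haj : ∀ j, j + 1 ≤ a j := by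
    intro j
    rw [ha]
    have h1 := hH1 (j + 1) (by omega)
    have h2 := hN1 (j + 1) (by omega)
    calc j + 1 ≤ (j + 1) * 1 := by omega
      _ ≤ (j + 1) * Hf (j + 1) := Nat.mul_le_mul_left _ (by omega)
      _ ≤ _ := h2
  have hat : Tendsto a atTop atTop := tendsto_atTop_mono haj (tendsto_add_atTop_nat 1)
  obtain ⟨𝒱, h𝒱⟩ : ∃ 𝒱 : Ultrafilter ℕ, (𝒱 : Filter ℕ) ≤ atTop := Ultrafilter.exists_le atTop
  obtain ⟨𝒰, h𝒰⟩ : ∃ 𝒰 : Ultrafilter ℕ, 𝒰 = 𝒱.map a := ⟨_, rfl⟩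
  have h𝒰1 : (𝒰 : Filter ℕ) ≤ atTop := by
    rw [h𝒰]
    exact (map_mono h𝒱).trans hat
  have h𝒰2 : Eᶜ ∈ (𝒰 : Filter ℕ) := by
    rw [h𝒰]
    show a ⁻¹' Eᶜ ∈ (𝒱 : Filter ℕ)
    have : a ⁻¹' Eᶜ = Set.univ := by
      ext j
      simp only [Set.mem_preimage, Set.mem_compl_iff, Set.mem_univ, iff_true]
      rw [ha]
      exact hNE (j + 1) (by omega)
    rw [this]
    exact univ_mem
  obtain ⟨σ, hσ, hspec, hiso⟩ := hyp 𝒰 h𝒰1 h𝒰2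
  obtain ⟨s, hs⟩ : ∃ s : ℝ, s = σ.real Set.univ := ⟨_, rfl⟩
  have hs0 : 0 ≤ s := by rw [hs]; exact measureReal_nonneg
  -- the parameters
  obtain ⟨δ, hδ⟩ : ∃ δ : ℝ, δ = min 1 (ε / (24 * (1 + s + B ^ 2))) := ⟨_, rfl⟩
  have hδ0 : 0 < δ := by rw [hδ]; positivity
  have hδ1 : δ ≤ 1 := by rw [hδ]; exact min_le_left _ _
  have hδ2 : δ * (24 * (1 + s + B ^ 2)) ≤ ε := by
    rw [← le_div_iff₀ (by positivity), hδ]
    exact min_le_right _ _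
  obtain ⟨f, hf0, hfσ, N₀, hfN⟩ := hiso δ hδ0
  obtain ⟨S, c, hSc⟩ := exists_TP f δ hδ0
  obtain ⟨D, hD⟩ : ∃ D : ℕ, ∀ k ∈ S, |k| ≤ (D : ℤ) := by
    refine ⟨∑ k ∈ S, k.natAbs, fun k hk => ?_⟩
    rw [Int.abs_eq_natAbs]
    exact_mod_cast single_le_sum (f := fun k : ℤ => k.natAbs) (fun _ _ => Nat.zero_le _) hk
  obtain ⟨C1, hC1⟩ : ∃ C1 : ℝ, C1 = ∑ k ∈ S, ‖c k‖ := ⟨_, rfl⟩
  have hC10 : 0 ≤ C1 := by rw [hC1]; exact sum_nonneg fun _ _ => norm_nonneg _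
  -- the spectral measure of the remainder
  have hq : ∫ η, ‖1 - TP S c η‖ ^ 2 ∂σ ≤ 2 * δ + 2 * δ ^ 2 * s := by
    calc ∫ η, ‖1 - TP S c η‖ ^ 2 ∂σ ≤ ∫ η, (2 * (1 - f η) ^ 2 + 2 * δ ^ 2) ∂σ := by
          apply integral_mono
          · exact int_of_cont ((continuous_const.sub (TP_cont S c)).norm.pow 2) σ
          · exact int_of_cont (by fun_prop) σ
          intro η
          simp only
          have h1 : ‖1 - TP S c η‖ ≤ (1 - f η) + δ := by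
            have h2 : 1 - TP S c η = (((1 - f η : ℝ)) : ℂ) - (TP S c η - (f η : ℂ)) := by
              push_cast; ring
            rw [h2]
            refine (norm_sub_le _ _).trans (add_le_add ?_ (hSc η))
            rw [Complex.norm_real, Real.norm_eq_abs, abs_of_nonneg (by linarith [(hf0 η).2])]
          calc ‖1 - TP S c η‖ ^ 2 ≤ ((1 - f η) + δ) ^ 2 := pow_le_pow_left₀ (norm_nonneg _) h1 2
            _ ≤ _ := sq_two _ _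
      _ = 2 * ∫ η, (1 - f η) ^ 2 ∂σ + 2 * δ ^ 2 * s := by
          rw [integral_add, integral_const_mul, integral_const, smul_eq_mul, hs]
          · ring
          · exact int_of_cont (by fun_prop) σ
          · exact integrable_const _
      _ ≤ _ := by linarith
  -- the weights
  have hSZ : ∀ N : ℕ, N₀ ≤ N → N ∉ E → ∀ h ∈ 𝓗,
      ∫ η : UnitAddCircle, ‖TP S c η‖ ^ 2 * ‖SZ (ext0 h) N η‖ ^ 2 ≤ 4 * δ * N := by
    intro N hN hNE' h hh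
    have hp : ∫ η : UnitAddCircle, ‖SZ (ext0 h) N η‖ ^ 2 ≤ N := by
      rw [SZ_eq_TP, pars]
      calc ∑ k ∈ Ioc (0 : ℤ) N, ‖ext0 h k‖ ^ 2 ≤ ∑ _k ∈ Ioc (0 : ℤ) (N : ℤ), (1 : ℝ) :=
            sum_le_sum fun m _ => pow_le_one₀ (norm_nonneg _) (ext0_le (h𝓗 h hh) m)
        _ = N := by rw [sum_const, nsmul_eq_mul, mul_one, Int.card_Ioc]; simp
    have hcS : Continuous fun η => ‖SZ (ext0 h) N η‖ ^ 2 := by
      rw [SZ_eq_TP]
      exact (TP_cont _ _).norm.pow 2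
    calc ∫ η : UnitAddCircle, ‖TP S c η‖ ^ 2 * ‖SZ (ext0 h) N η‖ ^ 2 ≤
        ∫ η : UnitAddCircle, (2 * (f η ^ 2 * ‖SZ (ext0 h) N η‖ ^ 2) + 2 * δ ^ 2 * ‖SZ (ext0 h) N η‖ ^ 2) := by
          apply integral_mono
          · exact int_of_cont (((TP_cont S c).norm.pow 2).mul hcS) _
          · exact int_of_cont (by fun_prop) _
          intro η
          simp only
          have h1 : ‖TP S c η‖ ≤ f η + δ := by
            have h2 : TP S c η = ((f η : ℝ) : ℂ) + (TP S c η - (f η : ℂ)) := by ring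
            rw [h2]
            refine (norm_add_le _ _).trans (add_le_add ?_ (hSc η))
            rw [Complex.norm_real, Real.norm_eq_abs, abs_of_nonneg (hf0 η).1]
          have h3 : ‖TP S c η‖ ^ 2 ≤ 2 * f η ^ 2 + 2 * δ ^ 2 :=
            (pow_le_pow_left₀ (norm_nonneg _) h1 2).trans (sq_two _ _)
          calc ‖TP S c η‖ ^ 2 * ‖SZ (ext0 h) N η‖ ^ 2 ≤ (2 * f η ^ 2 + 2 * δ ^ 2) * ‖SZ (ext0 h) N η‖ ^ 2 :=
                mul_le_mul_of_nonneg_right h3 (sq_nonneg _)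
            _ = _ := by ring
      _ = 2 * (∫ η : UnitAddCircle, f η ^ 2 * ‖SZ (ext0 h) N η‖ ^ 2) +
          2 * δ ^ 2 * (∫ η : UnitAddCircle, ‖SZ (ext0 h) N η‖ ^ 2) := by
          rw [integral_add, integral_const_mul, integral_const_mul]
          · exact int_of_cont (by fun_prop) _
          · exact int_of_cont (continuous_const.mul hcS) _
      _ ≤ 2 * (δ * N) + 2 * δ ^ 2 * N := by
          have h1 := hfN N hN hNE' h hh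
          have h2 : 2 * δ ^ 2 * (∫ η : UnitAddCircle, ‖SZ (ext0 h) N η‖ ^ 2) ≤ 2 * δ ^ 2 * N :=
            mul_le_mul_of_nonneg_left hp (by positivity)
          linarith
      _ ≤ 4 * δ * N := by
          have h1 : δ ^ 2 ≤ δ := by nlinarith
          have h2 : 2 * δ ^ 2 * N ≤ 2 * δ * (N : ℝ) := mul_le_mul_of_nonneg_right (by linarith) (Nat.cast_nonneg _)
          linarith
  -- the limit
  have hlim := spec_zw hy h𝒰1 hspec S c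
  have hev1 : ∀ᶠ N : ℕ in (𝒰 : Filter ℕ), (1 / (N : ℝ)) * ∑ m ∈ Ioc (0 : ℤ) N, ‖zw S c y m‖ ^ 2 <
      2 * δ + 2 * δ ^ 2 * s + δ := hlim.eventually (gt_mem_nhds (by linarith))
  have hev2 : ∀ᶠ j : ℕ in (𝒱 : Filter ℕ), (1 / (a j : ℝ)) * ∑ m ∈ Ioc (0 : ℤ) (a j), ‖zw S c y m‖ ^ 2 <
      2 * δ + 2 * δ ^ 2 * s + δ := by
    rw [h𝒰] at hev1
    exact hev1
  obtain ⟨Mz, hMz⟩ : ∃ Mz : ℝ, Mz = (B * (1 + C1)) ^ 2 := ⟨_, rfl⟩
  obtain ⟨R, hR⟩ : ∃ R : ℝ, R = (2 * D * B * C1) ^ 2 := ⟨_, rfl⟩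
  have hMz0 : 0 ≤ Mz := by rw [hMz]; positivity
  have hR0 : 0 ≤ R := by rw [hR]; positivity
  obtain ⟨Q, hQ⟩ : ∃ Q : ℝ, Q = Mz + B ^ 2 * C1 ^ 2 * (D + 1) + R := ⟨_, rfl⟩
  have hQ0 : 0 ≤ Q := by rw [hQ]; positivity
  have hev3 : ∀ᶠ j : ℕ in (𝒱 : Filter ℕ), N₀ ≤ j ∧ Q / δ ≤ j :=
    h𝒱 ((eventually_ge_atTop N₀).and ((tendsto_natCast_atTop_atTop (R := ℝ)).eventually_ge_atTop (Q / δ)))
  obtain ⟨j, hj1, hj2, hj3⟩ := (hev2.and hev3).exists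
  -- the inequality at `j`
  obtain ⟨X, hX⟩ : ∃ X : ℕ, X = a j := ⟨_, rfl⟩
  obtain ⟨H, hH⟩ : ∃ H : ℕ, H = Hf (j + 1) := ⟨_, rfl⟩
  obtain ⟨h, hh⟩ : ∃ h : ℕ → ℂ, h = hf (j + 1) := ⟨_, rfl⟩
  have hXH : (j + 1) * H ≤ X := by rw [hX, ha, hH]; exact hN1 (j + 1) (by omega)
  have hHj : j + 1 ≤ H := by rw [hH]; exact hH1 (j + 1) (by omega)
  have hXE : X ∉ E := by rw [hX, ha]; exact hNE (j + 1) (by omega)
  have hh𝓗 : h ∈ 𝓗 := by rw [hh]; exact hf1 (j + 1) (by omega)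
  have hbig : ε * H ^ 2 * X < ∑ x ∈ range X, ‖∑ m ∈ Ioc (x : ℤ) (x + H), ext0 h m • y m‖ ^ 2 := by
    rw [hX, ha, hH, hh]; exact hf2 (j + 1) (by omega)
  have hXj : j + 1 ≤ X := by rw [hX]; exact haj j
  have hXr : (0 : ℝ) < X := by exact_mod_cast (by omega : 0 < X)
  have hHr : (0 : ℝ) < H := by exact_mod_cast (by omega : 0 < H)
  have w1 := windows_le S c D hD (ext0 h) (ext0_le (h𝓗 h hh𝓗)) y B hy X H
  have w2 := tail_le (fun m => ‖zw S c y m‖ ^ 2) Mz (fun m => by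
    rw [hMz, hC1]
    exact pow_le_pow_left₀ (norm_nonneg _) (zw_le S c y B hy m) 2) X H
  have w3 := tail_le (fun m => ‖gw S c (ext0 h) m‖ ^ 2) (C1 ^ 2) (fun m => by
    rw [hC1]
    exact pow_le_pow_left₀ (norm_nonneg _) (gw_le S c (ext0 h) (ext0_le (h𝓗 h hh𝓗)) m) 2) X H
  have w4 := gw_sq S c D hD (ext0 h) (ext0_le (h𝓗 h hh𝓗)) (fun m hm => by
    unfold ext0; rw [if_neg (by omega)]) X
  have w5 := hSZ X (by omega) hXE h hh𝓗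
  rw [← hC1] at w1 w4
  rw [← hR] at w1
  rw [← hX] at hj1
  have w6 : ∑ m ∈ Ioc (0 : ℤ) X, ‖zw S c y m‖ ^ 2 ≤ (2 * δ + 2 * δ ^ 2 * s + δ) * X := by
    rw [one_div, inv_mul_lt_iff₀ hXr] at hj1
    linarith
  have e1 : (H : ℝ) * (j + 1) ≤ X := by
    have : (((j + 1) * H : ℕ) : ℝ) ≤ X := by exact_mod_cast hXH
    push_cast at this
    linarith
  have hQδ : Q ≤ δ * j := by
    rw [div_le_iff₀ hδ0] at hj3
    linarith
  have f7 := arith hs0 hδ0 hδ1 hδ2 hMz0 hR0 hQ hXr.le (Nat.cast_nonneg j) (by exact_mod_cast (by omega : 1 ≤ H))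
    (by exact_mod_cast (by omega : j ≤ H)) (Nat.cast_nonneg D) e1 hQδ w1 w2 w3 w4 w5 w6
  linarith

end

end

end Pool.Agent.R296.SM
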