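import Pool.Agent.R296.SM.StateU
import Pool.Agent.R296.SM.Cmn

set_option autoImplicit false

/-! # Disjointness in norm -/

namespace Pool.Agent.R296.SM

open Finset MeasureTheory Filter Topology
open scoped ComplexOrder InnerProductSpace

noncomputable section

universe u v

/-- a faithful representation -/
lemma exists_faithful (A : Type u) [NonUnitalCStarAlgebra A] :
    ∃ (K : Type u) (_ : NormedAddCommGroup K) (_ : InnerProductSpace ℂ K) (_ : CompleteSpace K)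
      (π : A →⋆ₙₐ[ℂ] (K →L[ℂ] K)), ∀ a, ‖π a‖ = ‖a‖ := by
  obtain ⟨K, i1, i2, i3, π, hπ⟩ := H759R2.Kad.prove7_rep H759R2.Kad.prove7_jord
    (H759R2.Kad.prove7_univ H759R2.Kad.prove7_gns) (Unitization ℂ A)
  have hinj : Function.Injective
      ((π : Unitization ℂ A →⋆ₙₐ[ℂ] (K →L[ℂ] K)).comp (Unitization.inrNonUnitalStarAlgHom ℂ A)) := by
    rw [injective_iff_map_eq_zero]
    intro a ha
    have h1 : π (Unitization.inr a) = 0 := ha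
    by_contra hne
    have h2 : ‖(Unitization.inr a : Unitization ℂ A)‖ ≠ 0 := by
      rw [Unitization.norm_inr, norm_ne_zero_iff]
      exact hne
    obtain ⟨f, hf1, hf2⟩ := exists_dual_vector ℂ (Unitization.inr a : Unitization ℂ A) h2
    obtain ⟨ζ, ω, h3, -⟩ := hπ f.toLinearMap ‖f‖ (norm_nonneg _) fun x => f.le_opNorm x
    have h4 := h3 (Unitization.inr a)
    rw [h1, zero_apply, inner_zero_right] at h4
    have h5 : f (Unitization.inr a) = 0 := h4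
    rw [hf2] at h5
    exact h2 (by simpa using h5)
  exact ⟨K, i1, i2, i3, _, fun a => NonUnitalStarAlgHom.norm_map _ hinj a⟩

variable {K : Type v} [NormedAddCommGroup K] [InnerProductSpace ℂ K] [CompleteSpace K]

lemma norm_sq_ops {κ : Type*} (s : Finset κ) (b : κ → K →L[ℂ] K) (C : ℝ) (hC : 0 ≤ C)
    (h : ∀ ξ : K, ‖ξ‖ ≤ 1 → ∑ i ∈ s, ‖b i ξ‖ ^ 2 ≤ C) : ‖∑ i ∈ s, star (b i) * b i‖ ≤ C := by
  have h1 : ∀ ξ : K, ∑ i ∈ s, ‖b i ξ‖ ^ 2 ≤ C * ‖ξ‖ ^ 2 := by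
    intro ξ
    rcases eq_or_ne ξ 0 with rfl | hξ
    · simp
    have hn : 0 < ‖ξ‖ := norm_pos_iff.2 hξ
    have h2 := h (((‖ξ‖⁻¹ : ℝ) : ℂ) • ξ) (by
      rw [norm_smul, Complex.norm_real, norm_inv, norm_norm, inv_mul_cancel₀ hn.ne'])
    have h3 : ∀ i, ‖b i (((‖ξ‖⁻¹ : ℝ) : ℂ) • ξ)‖ ^ 2 = (‖ξ‖ ^ 2)⁻¹ * ‖b i ξ‖ ^ 2 := by
      intro i
      rw [map_smul, norm_smul, Complex.norm_real, norm_inv, norm_norm, mul_pow, inv_pow]
    simp_rw [h3, ← mul_sum] at h2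
    rwa [inv_mul_le_iff₀ (by positivity), mul_comm] at h2
  refine ContinuousLinearMap.opNorm_le_bound _ hC fun η => ?_
  obtain ⟨P, hP⟩ : ∃ P : K →L[ℂ] K, P = ∑ i ∈ s, star (b i) * b i := ⟨_, rfl⟩
  rw [← hP]
  have h2 : ‖P η‖ ^ 2 ≤ C * ‖P η‖ * ‖η‖ := by
    have e1 : (‖P η‖ ^ 2 : ℝ) = ‖(⟪P η, P η⟫_ℂ : ℂ)‖ := by
      rw [inner_self_eq_norm_sq_to_K]
      norm_cast
      rw [abs_of_nonneg (sq_nonneg _)]
    have e2 : (⟪P η, P η⟫_ℂ : ℂ) = ∑ i ∈ s, ⟪b i (P η), b i η⟫_ℂ := by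
      have : P η = ∑ i ∈ s, (star (b i)) (b i η) := by
        rw [hP, _root_.sum_apply]
        rfl
      refine (congrArg (fun z => (⟪P η, z⟫_ℂ : ℂ)) this).trans ?_
      rw [inner_sum]
      refine sum_congr rfl fun i _ => ?_
      rw [ContinuousLinearMap.star_eq_adjoint, ContinuousLinearMap.adjoint_inner_right]
    rw [e1, e2]
    calc ‖∑ i ∈ s, (⟪b i (P η), b i η⟫_ℂ : ℂ)‖ ≤ ∑ i ∈ s, ‖b i (P η)‖ * ‖b i η‖ :=
          (norm_sum_le _ _).trans (sum_le_sum fun i _ => norm_inner_le_norm _ _)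
      _ ≤ Real.sqrt (∑ i ∈ s, ‖b i (P η)‖ ^ 2) * Real.sqrt (∑ i ∈ s, ‖b i η‖ ^ 2) :=
          Real.sum_mul_le_sqrt_mul_sqrt _ _ _
      _ ≤ Real.sqrt (C * ‖P η‖ ^ 2) * Real.sqrt (C * ‖η‖ ^ 2) :=
          mul_le_mul (Real.sqrt_le_sqrt (h1 _)) (Real.sqrt_le_sqrt (h1 _)) (Real.sqrt_nonneg _) (Real.sqrt_nonneg _)
      _ = C * ‖P η‖ * ‖η‖ := by
          rw [Real.sqrt_mul hC, Real.sqrt_mul hC, Real.sqrt_sq (norm_nonneg _), Real.sqrt_sq (norm_nonneg _)]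
          calc Real.sqrt C * ‖P η‖ * (Real.sqrt C * ‖η‖) = (Real.sqrt C * Real.sqrt C) * ‖P η‖ * ‖η‖ := by ring
            _ = _ := by rw [Real.mul_self_sqrt hC]
  rcases (norm_nonneg (P η)).eq_or_lt with h3 | h3
  · rw [← h3]; positivity
  · have : ‖P η‖ * ‖P η‖ ≤ ‖P η‖ * (C * ‖η‖) := by nlinarith
    exact le_of_mul_le_mul_left this h3

lemma norm_op_le (b : K →L[ℂ] K) (C : ℝ) (hC : 0 ≤ C) (h : ∀ ξ : K, ‖ξ‖ ≤ 1 → ‖b ξ‖ ≤ C) : ‖b‖ ≤ C := by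
  refine ContinuousLinearMap.opNorm_le_bound _ hC fun ξ => ?_
  rcases eq_or_ne ξ 0 with rfl | hξ
  · simp
  have hn : 0 < ‖ξ‖ := norm_pos_iff.2 hξ
  have h2 := h (((‖ξ‖⁻¹ : ℝ) : ℂ) • ξ) (by
    rw [norm_smul, Complex.norm_real, norm_inv, norm_norm, inv_mul_cancel₀ hn.ne'])
  rw [map_smul, norm_smul, Complex.norm_real, norm_inv, norm_norm, inv_mul_le_iff₀ hn] at h2
  linarith

/-- positive functionals on a unital algebra come from vectors of one representation -/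
lemma exists_gnsU (B : Type u) [CStarAlgebra B] (S : Set (B →L[ℂ] ℂ)) (hS : ∀ ρ ∈ S, ∀ a, 0 ≤ ρ (star a * a)) :
    ∃ (K : Type u) (_ : NormedAddCommGroup K) (_ : InnerProductSpace ℂ K) (_ : CompleteSpace K)
      (π : B →⋆ₐ[ℂ] (K →L[ℂ] K)) (ξ : S → K), ∀ ρ : S, ∀ a, inner ℂ (ξ ρ) (π a (ξ ρ)) = ρ.1 a := by
  obtain ⟨K, i1, i2, i3, π, Ω, h, -⟩ := (H759R2.Kad.prove7_univ H759R2.Kad.prove7_gns) B S
    (fun ρ => ρ.1.toLinearMap) (fun ρ a => hS ρ.1 ρ.2 a)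
  exact ⟨K, i1, i2, i3, π, Ω, fun ρ a => h ρ a⟩

end

end Pool.Agent.R296.SM
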