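import Pool.Agent.R296.SM.Core

set_option autoImplicit false

/-! # The van der Corput inequality in C*-algebras -/

namespace Pool.Agent.R296.SM

open Finset Filter Topology

noncomputable section

section order

variable {A : Type*} [CStarAlgebra A] [PartialOrder A] [StarOrderedRing A]

lemma op_cs {ι : Type*} (s : Finset ι) (b : ι → A) :
    (∑ x ∈ s, b x) * star (∑ x ∈ s, b x) + (∑ x ∈ s, b x) * star (∑ x ∈ s, b x) ≤
      s.card • (∑ x ∈ s, b x * star (b x)) + s.card • ∑ x ∈ s, b x * star (b x) := by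
  have h0 : 0 ≤ ∑ x ∈ s, ∑ y ∈ s, (b x - b y) * star (b x - b y) :=
    sum_nonneg fun x _ => sum_nonneg fun y _ => mul_star_self_nonneg _
  have h1 : ∑ x ∈ s, ∑ y ∈ s, (b x - b y) * star (b x - b y) =
      (s.card • (∑ x ∈ s, b x * star (b x)) + s.card • ∑ x ∈ s, b x * star (b x)) -
        ((∑ x ∈ s, b x) * star (∑ x ∈ s, b x) + (∑ x ∈ s, b x) * star (∑ x ∈ s, b x)) := by
    have e1 : ∀ x y, (b x - b y) * star (b x - b y) =
        b x * star (b x) + b y * star (b y) - (b x * star (b y) + b y * star (b x)) := by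
      intro x y
      rw [star_sub, sub_mul, mul_sub, mul_sub]
      abel
    simp_rw [e1, sum_sub_distrib, sum_add_distrib, sum_const]
    rw [star_sum, sum_mul_sum]
    have e2 : ∑ x ∈ s, ∑ y ∈ s, b y * star (b x) = ∑ x ∈ s, ∑ y ∈ s, b x * star (b y) := sum_comm
    rw [e2, ← smul_sum]
  rw [h1] at h0
  exact sub_nonneg.1 h0

lemma norm_cs_le {ι : Type*} (s : Finset ι) (b : ι → A) (c : A) (hc : ∑ x ∈ s, b x * star (b x) ≤ c) :
    ‖∑ x ∈ s, b x‖ ^ 2 ≤ s.card * ‖c‖ := by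
  have h1 := op_cs s b
  have h2 : s.card • (∑ x ∈ s, b x * star (b x)) + s.card • (∑ x ∈ s, b x * star (b x)) ≤ s.card • c + s.card • c :=
    add_le_add (nsmul_le_nsmul_right hc _) (nsmul_le_nsmul_right hc _)
  have h3 := CStarAlgebra.norm_le_norm_of_nonneg_of_le (add_nonneg (mul_star_self_nonneg (∑ x ∈ s, b x))
    (mul_star_self_nonneg (∑ x ∈ s, b x))) (h1.trans h2)
  rw [← two_smul ℝ (_ * _), ← two_smul ℝ (_ • _), norm_smul, norm_smul, CStarRing.norm_self_mul_star] at h3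
  have h4 : ‖s.card • c‖ ≤ s.card * ‖c‖ := norm_nsmul_le
  have h5 : ‖(2 : ℝ)‖ = 2 := by norm_num
  rw [h5] at h3
  nlinarith

end order

/-- the correlation -/
def Gk {A : Type*} [CStarAlgebra A] {d : ℕ} (N : ℕ) (a : ℤ → Fin d → A) (k : ℤ) : A :=
  ∑ m ∈ Ioc (0 : ℤ) N, ∑ j, a (m + k) j * star (a m j)

lemma Gk_neg {A : Type*} [CStarAlgebra A] {d : ℕ} (N : ℕ) (a : ℤ → Fin d → A)
    (ha : ∀ m, m ∉ Ioc (0 : ℤ) N → a m = 0) (k : ℤ) : Gk N a (-k) = star (Gk N a k) := by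
  unfold Gk
  rw [star_sum]
  simp_rw [star_sum, star_mul, star_star]
  have e1 : ∑ m ∈ Ioc (0 : ℤ) N, ∑ j, a (m + -k) j * star (a m j) =
      ∑ m ∈ (Ioc (0 : ℤ) N).filter (fun m => m + -k ∈ Ioc (0 : ℤ) N), ∑ j, a (m + -k) j * star (a m j) := by
    rw [sum_filter]
    refine sum_congr rfl fun m _ => ?_
    split_ifs with h
    · rfl
    · rw [ha _ h]; simp
  have e2 : ∑ m ∈ Ioc (0 : ℤ) N, ∑ j, a m j * star (a (m + k) j) =
      ∑ m ∈ (Ioc (0 : ℤ) N).filter (fun m => m + k ∈ Ioc (0 : ℤ) N), ∑ j, a m j * star (a (m + k) j) := by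
    rw [sum_filter]
    refine sum_congr rfl fun m _ => ?_
    split_ifs with h
    · rfl
    · rw [ha _ h]; simp
  rw [e1, e2]
  refine sum_nbij' (fun m => m + -k) (fun m => m + k) ?_ ?_ ?_ ?_ ?_
  · intro m hm
    rw [mem_filter] at hm ⊢
    refine ⟨hm.2, ?_⟩
    have : m + -k + k = m := by ring
    rw [this]; exact hm.1
  · intro m hm
    rw [mem_filter] at hm ⊢
    refine ⟨hm.2, ?_⟩
    have : m + k + -k = m := by ring
    rw [this]; exact hm.1
  · intro m _; ring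
  · intro m _; ring
  · intro m _
    have : m + -k + k = m := by ring
    rw [this]

/-- van der Corput -/
lemma vdc {A : Type*} [CStarAlgebra A] {d : ℕ} (N H : ℕ) (a : ℤ → Fin d → A)
    (ha : ∀ m, m ∉ Ioc (0 : ℤ) N → a m = 0) (M η : ℝ) (hM : 0 ≤ M) (hη : 0 ≤ η) (h0 : ‖Gk N a 0‖ ≤ M)
    (hk : ∀ k : ℕ, 1 ≤ k → k < H → ‖Gk N a k‖ ≤ η) (i : Fin d) :
    (H : ℝ) ^ 2 * ‖∑ m ∈ Ioc (0 : ℤ) N, a m i‖ ^ 2 ≤ (N + H) * (H * M + H ^ 2 * η) := by
  letI : PartialOrder A := CStarAlgebra.spectralOrder A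
  haveI : StarOrderedRing A := CStarAlgebra.spectralOrderedRing A
  obtain ⟨b, hb⟩ : ∃ b : ℤ → Fin d → A, b = fun x j => ∑ h ∈ range H, a (x + h) j := ⟨_, rfl⟩
  have e1 : ∀ j, ∑ x ∈ Ioc (-(H : ℤ)) N, b x j = H • ∑ m ∈ Ioc (0 : ℤ) N, a m j := by
    intro j
    rw [hb]
    simp only
    rw [sum_comm]
    have : ∀ h ∈ range H, ∑ x ∈ Ioc (-(H : ℤ)) N, a (x + h) j = ∑ m ∈ Ioc (0 : ℤ) N, a m j := by
      intro h hh
      rw [mem_range] at hh
      rw [sum_Ioc_shift (fun m => a m j)]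
      symm
      apply sum_subset
      · intro m hm
        rw [mem_Ioc] at hm ⊢
        omega
      · intro m _ hm
        rw [ha m hm]; rfl
    rw [sum_congr rfl this, sum_const, card_range]
  have e2 : ∑ x ∈ Ioc (-(H : ℤ)) N, ∑ j, b x j * star (b x j) =
      ∑ h ∈ range H, ∑ h' ∈ range H, Gk N a ((h : ℤ) - h') := by
    have e3 : ∀ x, ∑ j, b x j * star (b x j) =
        ∑ h ∈ range H, ∑ h' ∈ range H, ∑ j, a (x + h) j * star (a (x + h') j) := by
      intro x
      rw [hb]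
      simp only [star_sum, sum_mul_sum]
      rw [sum_comm]
      refine sum_congr rfl fun h _ => ?_
      rw [sum_comm]
    simp_rw [e3]
    rw [sum_comm]
    refine sum_congr rfl fun h hh => ?_
    rw [sum_comm]
    refine sum_congr rfl fun h' hh' => ?_
    rw [mem_range] at hh hh'
    unfold Gk
    have e4 : ∀ x : ℤ, ∑ j, a (x + h) j * star (a (x + h') j) =
        (fun m : ℤ => ∑ j, a (m + ((h : ℤ) - h')) j * star (a m j)) (x + h') := by
      intro x
      simp only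
      have : x + (h' : ℤ) + (h - h') = x + h := by ring
      rw [this]
    simp_rw [e4]
    rw [sum_Ioc_shift (fun m : ℤ => ∑ j, a (m + ((h : ℤ) - h')) j * star (a m j))]
    symm
    apply sum_subset
    · intro m hm
      rw [mem_Ioc] at hm ⊢
      omega
    · intro m _ hm
      rw [ha m hm]; simp
  have e5 : ∀ j, ∑ x ∈ Ioc (-(H : ℤ)) N, b x j * star (b x j) ≤
      ∑ h ∈ range H, ∑ h' ∈ range H, Gk N a ((h : ℤ) - h') := by
    intro j
    rw [← e2]
    refine sum_le_sum fun x _ => ?_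
    exact single_le_sum (f := fun j => b x j * star (b x j)) (fun j _ => mul_star_self_nonneg _) (mem_univ j)
  have e6 := norm_cs_le (Ioc (-(H : ℤ)) N) (fun x => b x i) _ (e5 i)
  rw [e1] at e6
  have e7 : ‖H • ∑ m ∈ Ioc (0 : ℤ) N, a m i‖ ^ 2 = (H : ℝ) ^ 2 * ‖∑ m ∈ Ioc (0 : ℤ) N, a m i‖ ^ 2 := by
    rw [← Nat.cast_smul_eq_nsmul ℝ, norm_smul, mul_pow, Real.norm_natCast]
  rw [e7] at e6
  refine e6.trans ?_
  have e8 : ((Ioc (-(H : ℤ)) N).card : ℝ) = N + H := by
    rw [Int.card_Ioc]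
    have : ((N : ℤ) - -(H : ℤ)).toNat = N + H := by omega
    rw [this]; push_cast; rfl
  rw [e8]
  apply mul_le_mul_of_nonneg_left _ (by positivity)
  have e9 : ∀ h ∈ range H, ∀ h' ∈ range H, ‖Gk N a ((h : ℤ) - h')‖ ≤ (if h = h' then M else 0) + η := by
    intro h hh h' hh'
    rw [mem_range] at hh hh'
    rcases lt_trichotomy h h' with hlt | heq | hgt
    · have e10 : (h : ℤ) - h' = -((h' - h : ℕ) : ℤ) := by omega
      rw [e10, Gk_neg N a ha, norm_star, if_neg (by omega), zero_add]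
      exact hk _ (by omega) (by omega)
    · rw [heq, sub_self, if_pos rfl]
      linarith
    · have e10 : (h : ℤ) - h' = ((h - h' : ℕ) : ℤ) := by omega
      rw [e10, if_neg (by omega), zero_add]
      exact hk _ (by omega) (by omega)
  calc ‖∑ h ∈ range H, ∑ h' ∈ range H, Gk N a ((h : ℤ) - h')‖ ≤
      ∑ h ∈ range H, ∑ h' ∈ range H, ((if h = h' then M else 0) + η) :=
        (norm_sum_le _ _).trans (sum_le_sum fun h hh => (norm_sum_le _ _).trans (sum_le_sum fun h' hh' => e9 h hh h' hh'))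
    _ = H * M + H ^ 2 * η := by
        simp_rw [sum_add_distrib, sum_ite_eq, sum_const, card_range]
        rw [sum_congr rfl fun x hx => if_pos hx, sum_const, card_range]
        simp only [nsmul_eq_mul]
        ring

end

end Pool.Agent.R296.SM
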