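import Pool.Agent.R296.SM.Main

set_option autoImplicit false

/-! # Isolating weights with vanishing two-point correlations from singular measures -/

namespace Pool.Agent.R296.SM

open Finset MeasureTheory Filter Topology

noncomputable section

/-- the weight twisted by the character `θ` -/
def twist' (g : ℕ → ℂ) (θ : UnitAddCircle) (n : ℕ) : ℂ := g n * fourier (n : ℤ) θ

lemma norm_fourier' (n : ℤ) (θ : UnitAddCircle) : ‖(fourier n θ : ℂ)‖ = 1 := by
  rw [fourier_apply, Circle.norm_coe]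

lemma norm_twist' {g : ℕ → ℂ} (hg : ∀ n, ‖g n‖ ≤ 1) (θ : UnitAddCircle) (n : ℕ) : ‖twist' g θ n‖ ≤ 1 := by
  unfold twist'
  rw [norm_mul, norm_fourier', mul_one]
  exact hg n

lemma ext0_twist' (g : ℕ → ℂ) (θ : UnitAddCircle) (m : ℤ) :
    ext0 (twist' g θ) m = ext0 g m * fourier m θ := by
  unfold ext0 twist'
  split_ifs with h
  · rw [Int.toNat_of_nonneg h.le]
  · rw [zero_mul]

/-- the Fourier coefficients of the square of an exponential sum -/
lemma int_SZ (h : ℤ → ℂ) (N : ℕ) (k : ℤ) :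
    ∫ η : UnitAddCircle, (fourier k η : ℂ) * ((‖SZ h N η‖ ^ 2 : ℝ) : ℂ) =
      ∑ b ∈ Ioc (0 : ℤ) N, if b + k ∈ Ioc (0 : ℤ) N then (starRingEnd ℂ) (h (b + k)) * h b else 0 := by
  have h1 : ∀ η : UnitAddCircle, (fourier k η : ℂ) * ((‖SZ h N η‖ ^ 2 : ℝ) : ℂ) =
      ∑ b ∈ Ioc (0 : ℤ) N, ∑ a ∈ Ioc (0 : ℤ) N, (starRingEnd ℂ) (h a) * h b * (fourier (k + (b - a)) η : ℂ) := by
    intro η
    have : ((‖SZ h N η‖ ^ 2 : ℝ) : ℂ) = (starRingEnd ℂ) (SZ h N η) * SZ h N η := by
      rw [Complex.conj_mul']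
      push_cast
      rfl
    rw [this, SZ, map_sum, sum_mul_sum, sum_comm, mul_sum]
    refine sum_congr rfl fun b _ => ?_
    rw [mul_sum]
    refine sum_congr rfl fun a _ => ?_
    rw [map_mul, fourier_add, ← fourier_mul_conj]
    ring
  simp_rw [h1]
  have hc : ∀ a b : ℤ, Continuous fun η : UnitAddCircle => (starRingEnd ℂ) (h a) * h b * (fourier (k + (b - a)) η : ℂ) :=
    fun a b => continuous_const.mul (map_continuous (fourier (k + (b - a))))
  rw [integral_finsetSum _ fun b _ => int_of_cont (continuous_finsetSum _ fun a _ => hc a b) _]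
  refine sum_congr rfl fun b _ => ?_
  rw [integral_finsetSum _ fun a _ => int_of_cont (hc a b) _]
  simp_rw [integral_const_mul, int_fourier]
  split_ifs with hb
  · rw [sum_eq_single (b + k)]
    · rw [if_pos (by ring), mul_one]
    · intro a _ ha
      rw [if_neg (by omega), mul_zero]
    · intro h'; exact absurd hb h'
  · refine sum_eq_zero fun a ha => ?_
    rw [if_neg, mul_zero]
    intro h'
    apply hb
    have : b + k = a := by omega
    rwa [this]

/-- the correlation of `f` with its shift -/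
def Co (f : ℕ → ℤ) (h N : ℕ) : ℤ := ∑ n ∈ range N, f n * f (n + h)

lemma corr_pos (f : ℕ → ℤ) (hf : ∀ n, |f n| ≤ 1) (θ : UnitAddCircle) (N : ℕ) (k : ℕ) (hk : 1 ≤ k) :
    ‖∑ b ∈ Ioc (0 : ℤ) N, if b + (k : ℤ) ∈ Ioc (0 : ℤ) N then
      (starRingEnd ℂ) (ext0 (twist' (fun n => (f n : ℂ)) θ) (b + k)) * ext0 (twist' (fun n => (f n : ℂ)) θ) b else 0‖ ≤
      |((Co f k N : ℤ) : ℝ)| + (k + 1) := by
  have e1 : ∑ b ∈ Ioc (0 : ℤ) N, (if b + (k : ℤ) ∈ Ioc (0 : ℤ) N then
      (starRingEnd ℂ) (ext0 (twist' (fun n => (f n : ℂ)) θ) (b + k)) * ext0 (twist' (fun n => (f n : ℂ)) θ) b else 0) =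
      (fourier (-(k : ℤ)) θ : ℂ) * ((∑ n ∈ (range N).filter (fun n => 0 < n ∧ n + k ≤ N), f n * f (n + k) : ℤ) : ℂ) := by
    rw [← sum_filter]
    push_cast
    rw [mul_sum]
    symm
    refine sum_nbij' (fun n : ℕ => (n : ℤ)) (fun b : ℤ => b.toNat) ?_ ?_ ?_ ?_ ?_
    · intro n hn
      rw [mem_filter, mem_range] at hn
      rw [mem_filter, mem_Ioc, mem_Ioc]
      omega
    · intro b hb
      rw [mem_filter, mem_Ioc, mem_Ioc] at hb
      rw [mem_filter, mem_range]
      omega
    · intro n _; simp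
    · intro b hb
      rw [mem_filter, mem_Ioc] at hb
      omega
    · intro n hn
      rw [mem_filter, mem_range] at hn
      rw [ext0_twist', ext0_twist', ext0, ext0, if_pos (by omega), if_pos (by omega), map_mul, map_intCast]
      have e2 : ((n : ℤ) + k).toNat = n + k := by omega
      have e3 : (fourier (-(k : ℤ)) θ : ℂ) = (starRingEnd ℂ) (fourier ((n : ℤ) + k) θ : ℂ) * fourier (n : ℤ) θ := by
        rw [fourier_mul_conj]
        congr 2
        omega
      rw [e2, Int.toNat_natCast, e3]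
      ring
  rw [e1, norm_mul, norm_fourier', one_mul, Complex.norm_intCast]
  have e4 : Co f k N = ∑ n ∈ (range N).filter (fun n => 0 < n ∧ n + k ≤ N), f n * f (n + k) +
      ∑ n ∈ (range N).filter (fun n => ¬ (0 < n ∧ n + k ≤ N)), f n * f (n + k) :=
    (sum_filter_add_sum_filter_not _ _ _).symm
  have e5 : |∑ n ∈ (range N).filter (fun n => ¬ (0 < n ∧ n + k ≤ N)), f n * f (n + k)| ≤ ((k + 1 : ℕ) : ℤ) := by
    refine (abs_sum_le_sum_abs _ _).trans ?_
    calc ∑ n ∈ (range N).filter (fun n => ¬ (0 < n ∧ n + k ≤ N)), |f n * f (n + k)| ≤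
        ∑ _n ∈ (range N).filter (fun n => ¬ (0 < n ∧ n + k ≤ N)), (1 : ℤ) := by
          refine sum_le_sum fun n _ => ?_
          rw [abs_mul]
          exact mul_le_one₀ (hf _) (abs_nonneg _) (hf _)
      _ = (((range N).filter (fun n => ¬ (0 < n ∧ n + k ≤ N))).card : ℤ) := by simp
      _ ≤ ((k + 1 : ℕ) : ℤ) := by
          have h1 : (range N).filter (fun n => ¬ (0 < n ∧ n + k ≤ N)) ⊆ insert 0 (Ico (N - k) N) := by
            intro n hn
            rw [mem_filter, mem_range] at hn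
            rw [mem_insert, mem_Ico]
            omega
          have h2 := (card_le_card h1).trans (card_insert_le _ _)
          rw [Nat.card_Ico] at h2
          exact_mod_cast (by omega : ((range N).filter (fun n => ¬ (0 < n ∧ n + k ≤ N))).card ≤ k + 1)
  have e6 : |∑ n ∈ (range N).filter (fun n => 0 < n ∧ n + k ≤ N), f n * f (n + k)| ≤ |Co f k N| + ((k + 1 : ℕ) : ℤ) := by
    have e7 : ∑ n ∈ (range N).filter (fun n => 0 < n ∧ n + k ≤ N), f n * f (n + k) =
        Co f k N - ∑ n ∈ (range N).filter (fun n => ¬ (0 < n ∧ n + k ≤ N)), f n * f (n + k) := by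
      rw [e4]; ring
    rw [e7]
    exact (abs_sub _ _).trans (add_le_add le_rfl e5)
  exact_mod_cast e6

lemma corr_all (f : ℕ → ℤ) (hf : ∀ n, |f n| ≤ 1) (θ : UnitAddCircle) (N : ℕ) (k : ℤ) (hk : k ≠ 0) :
    ‖∑ b ∈ Ioc (0 : ℤ) N, if b + k ∈ Ioc (0 : ℤ) N then
      (starRingEnd ℂ) (ext0 (twist' (fun n => (f n : ℂ)) θ) (b + k)) * ext0 (twist' (fun n => (f n : ℂ)) θ) b else 0‖ ≤
      |((Co f k.natAbs N : ℤ) : ℝ)| + (k.natAbs + 1) := by
  rcases lt_trichotomy k 0 with h | h | h
  · obtain ⟨n, hn⟩ := Int.eq_ofNat_of_zero_le (by omega : 0 ≤ -k)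
    have hkn : k = -n := by omega
    have hna : k.natAbs = n := by omega
    rw [hna]
    refine le_trans (le_of_eq ?_) (corr_pos f hf θ N n (by omega))
    rw [← RCLike.norm_conj]
    congr 1
    rw [map_sum, ← sum_filter, ← Finset.sum_filter_of_ne (p := fun b => b + k ∈ Ioc (0 : ℤ) N)]
    · refine sum_nbij' (fun b : ℤ => b + k) (fun b : ℤ => b - k) ?_ ?_ ?_ ?_ ?_
      · intro b hb
        rw [mem_filter, mem_Ioc, mem_Ioc] at hb
        rw [mem_filter, mem_Ioc, mem_Ioc]
        omega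
      · intro b hb
        rw [mem_filter, mem_Ioc, mem_Ioc] at hb
        rw [mem_filter, mem_Ioc, mem_Ioc]
        omega
      · intro b _; ring
      · intro b _; ring
      · intro b hb
        rw [mem_filter] at hb
        rw [if_pos hb.2, map_mul, Complex.conj_conj]
        have : b + k + n = b := by omega
        rw [this]
        ring
    · intro b _ hb
      by_contra h'
      rw [if_neg h', map_zero] at hb
      exact hb rfl
  · exact absurd h hk
  · obtain ⟨n, hn⟩ := Int.eq_ofNat_of_zero_le h.le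
    have hna : k.natAbs = n := by omega
    rw [hna, hn]
    exact corr_pos f hf θ N n (by omega)

/-- **Isolation** from singular measures -/
theorem iso_sing {f : ℕ → ℤ} (hf : ∀ n, |f n| ≤ 1) {E : Set ℕ}
    (hE : ∀ h : ℕ, 1 ≤ h → ∀ ε : ℝ, 0 < ε → ∃ N₀ : ℕ, ∀ N : ℕ, N₀ ≤ N → N ∉ E → |((Co f h N : ℤ) : ℝ)| ≤ ε * N)
    {σ : Measure UnitAddCircle} [IsFiniteMeasure σ] (hσ : σ ⟂ₘ (volume : Measure UnitAddCircle)) (δ : ℝ) (hδ : 0 < δ) :
    Isolates E (Set.range (twist' (fun n => (f n : ℂ)))) σ δ := by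
  obtain ⟨A, hA, hA1, hA2⟩ := hσ
  -- the compact set
  obtain ⟨L, hLA, hL, hL2⟩ := hA.compl.exists_isCompact_sdiff_lt (μ := σ) (measure_ne_top _ _)
    (show ENNReal.ofReal δ ≠ 0 by rw [Ne, ENNReal.ofReal_eq_zero, not_le]; exact hδ)
  have hLσ : σ.real Lᶜ ≤ δ := by
    have h1 : Lᶜ ⊆ (Aᶜ \ L) ∪ A := by
      intro x hx
      by_cases hxA : x ∈ A
      · exact Or.inr hxA
      · exact Or.inl ⟨hxA, hx⟩
    have h2 : σ Lᶜ ≤ ENNReal.ofReal δ := by
      calc σ Lᶜ ≤ σ ((Aᶜ \ L) ∪ A) := measure_mono h1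
        _ ≤ σ (Aᶜ \ L) + σ A := measure_union_le _ _
        _ ≤ ENNReal.ofReal δ + 0 := add_le_add hL2.le hA1.le
        _ = _ := add_zero _
    exact ENNReal.toReal_le_of_le_ofReal hδ.le h2
  have hLv : (volume : Measure UnitAddCircle) L = 0 := measure_mono_null hLA hA2
  obtain ⟨δ', hδ'⟩ : ∃ δ' : ℝ, δ' = δ / 8 := ⟨_, rfl⟩
  have hδ'0 : 0 < δ' := by rw [hδ']; positivity
  obtain ⟨V, hLV, hV, hV2⟩ := L.exists_isOpen_lt_of_lt (μ := (volume : Measure UnitAddCircle)) (ENNReal.ofReal δ')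
    (by rw [hLv, ENNReal.ofReal_pos]; exact hδ'0)
  have hVr : (volume : Measure UnitAddCircle).real V ≤ δ' := ENNReal.toReal_le_of_le_ofReal hδ'0.le hV2.le
  obtain ⟨φ, hφ0, hφ1, hφ⟩ := exists_continuous_zero_one_of_isClosed hV.isClosed_compl hL.isClosed
    (by rw [Set.disjoint_left]; intro x hx hx2; exact hx (hLV hx2))
  -- the trigonometric polynomial
  obtain ⟨F, hF⟩ : ∃ F : C(UnitAddCircle, ℝ), ∀ η, F η = φ η ^ 2 := ⟨⟨fun η => φ η ^ 2, by fun_prop⟩, fun _ => rfl⟩
  obtain ⟨S, r, hSr⟩ := exists_TP F δ' hδ'0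
  have hφr : ∀ η, 0 ≤ φ η ∧ φ η ≤ 1 := fun η => hφ η
  obtain ⟨C1, hC1⟩ : ∃ C1 : ℝ, C1 = ∑ k ∈ S, ‖r k‖ := ⟨_, rfl⟩
  have hC10 : 0 ≤ C1 := by rw [hC1]; exact sum_nonneg fun _ _ => norm_nonneg _
  -- the zeroth coefficient
  have hr0 : ‖∫ η : UnitAddCircle, TP S r η‖ ≤ 2 * δ' := by
    have h1 : ∀ η : UnitAddCircle, ‖TP S r η‖ ≤ V.indicator (fun _ => (1 : ℝ)) η + δ' := by
      intro η
      have h2 : TP S r η = ((F η : ℝ) : ℂ) + (TP S r η - (F η : ℂ)) := by ring
      rw [h2]
      refine (norm_add_le _ _).trans (add_le_add ?_ (hSr η))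
      rw [Complex.norm_real, Real.norm_eq_abs, hF, abs_of_nonneg (sq_nonneg _)]
      by_cases h : η ∈ V
      · rw [Set.indicator_of_mem h]
        nlinarith [(hφr η).1, (hφr η).2]
      · rw [Set.indicator_of_notMem h]
        have := hφ0 h
        simp only [Pi.zero_apply] at this
        rw [this]; norm_num
    calc ‖∫ η : UnitAddCircle, TP S r η‖ ≤ ∫ η : UnitAddCircle, ‖TP S r η‖ := norm_integral_le_integral_norm _
      _ ≤ ∫ η : UnitAddCircle, (V.indicator (fun _ => (1 : ℝ)) η + δ') := by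
          apply integral_mono
          · exact int_of_cont (TP_cont S r).norm _
          · exact ((integrable_const 1).indicator hV.measurableSet).add (integrable_const _)
          · exact h1
      _ = (volume : Measure UnitAddCircle).real V + δ' := by
          rw [integral_add ((integrable_const 1).indicator hV.measurableSet) (integrable_const _),
            integral_indicator hV.measurableSet, setIntegral_const, integral_const]
          simp
      _ ≤ _ := by linarith
  have hr0' : ∫ η : UnitAddCircle, TP S r η = if (0 : ℤ) ∈ S then r 0 else 0 := by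
    unfold TP
    have hI : ∀ k ∈ S, Integrable (fun η : UnitAddCircle => r k * (fourier k η : ℂ)) (volume : Measure UnitAddCircle) :=
      fun k _ => int_of_cont (continuous_const.mul (map_continuous (fourier k))) _
    rw [integral_finsetSum S hI]
    simp_rw [integral_const_mul, int_fourier]
    simp
  rw [hr0'] at hr0
  -- the scales
  have hsc : ∀ k : ℤ, ∃ N₀ : ℕ, k ≠ 0 → ∀ N : ℕ, N₀ ≤ N → N ∉ E →
      |((Co f k.natAbs N : ℤ) : ℝ)| + (k.natAbs + 1) ≤ δ' / (C1 + 1) * N := by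
    intro k
    by_cases hk : k = 0
    · exact ⟨0, fun h => absurd hk h⟩
    obtain ⟨N₁, hN₁⟩ := hE k.natAbs (by omega) (δ' / (C1 + 1) / 2) (by positivity)
    refine ⟨max N₁ ⌈(k.natAbs + 1) / (δ' / (C1 + 1) / 2)⌉₊, fun _ N hN hNE => ?_⟩
    have h1 := hN₁ N (le_trans (le_max_left _ _) hN) hNE
    have h2 : ((k.natAbs : ℝ) + 1) / (δ' / (C1 + 1) / 2) ≤ N :=
      (Nat.le_ceil _).trans (by exact_mod_cast le_trans (le_max_right _ _) hN)
    rw [div_le_iff₀ (by positivity)] at h2
    linarith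
  choose N₀ hN₀ using hsc
  refine ⟨φ, hφr, ?_, ∑ k ∈ S, N₀ k, ?_⟩
  · calc ∫ η, (1 - φ η) ^ 2 ∂σ ≤ ∫ η, Lᶜ.indicator (fun _ => (1 : ℝ)) η ∂σ := by
          apply integral_mono
          · exact int_of_cont (by fun_prop) σ
          · exact (integrable_const 1).indicator hL.measurableSet.compl
          intro η
          simp only
          by_cases h : η ∈ L
          · rw [hφ1 h, Set.indicator_of_notMem (by simpa using h)]
            simp
          · rw [Set.indicator_of_mem h]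
            nlinarith [(hφr η).1, (hφr η).2]
      _ = σ.real Lᶜ := by
          rw [integral_indicator hL.measurableSet.compl, setIntegral_const, smul_eq_mul, mul_one]
      _ ≤ δ := hLσ
  · intro N hN hNE h hh
    obtain ⟨θ, rfl⟩ := hh
    obtain ⟨g, hg⟩ : ∃ g : ℤ → ℂ, g = ext0 (twist' (fun n => (f n : ℂ)) θ) := ⟨_, rfl⟩
    rw [← hg]
    have hg1 : ∀ m, ‖g m‖ ≤ 1 := by
      rw [hg]
      apply ext0_le
      apply norm_twist'
      intro n
      rw [Complex.norm_intCast]
      exact_mod_cast hf n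
    have hcS : Continuous fun η => ‖SZ g N η‖ ^ 2 := by
      rw [SZ_eq_TP]
      exact (TP_cont _ _).norm.pow 2
    have hp : ∫ η : UnitAddCircle, ‖SZ g N η‖ ^ 2 ≤ N := by
      rw [SZ_eq_TP, pars]
      calc ∑ k ∈ Ioc (0 : ℤ) N, ‖g k‖ ^ 2 ≤ ∑ _k ∈ Ioc (0 : ℤ) (N : ℤ), (1 : ℝ) :=
            sum_le_sum fun m _ => pow_le_one₀ (norm_nonneg _) (hg1 m)
        _ = N := by rw [sum_const, nsmul_eq_mul, mul_one, Int.card_Ioc]; simp
    have hcI : ∀ k : ℤ, Integrable (fun η : UnitAddCircle => r k * ((fourier k η : ℂ) * ((‖SZ g N η‖ ^ 2 : ℝ) : ℂ)))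
        (volume : Measure UnitAddCircle) := fun k =>
      int_of_cont (continuous_const.mul ((map_continuous (fourier k)).mul (Complex.continuous_ofReal.comp hcS))) _
    -- the polynomial part
    have hT : ‖∫ η : UnitAddCircle, TP S r η * ((‖SZ g N η‖ ^ 2 : ℝ) : ℂ)‖ ≤ 3 * δ' * N := by
      have e1 : ∫ η : UnitAddCircle, TP S r η * ((‖SZ g N η‖ ^ 2 : ℝ) : ℂ) =
          ∑ k ∈ S, r k * ∫ η : UnitAddCircle, (fourier k η : ℂ) * ((‖SZ g N η‖ ^ 2 : ℝ) : ℂ) := by
        unfold TP
        simp_rw [sum_mul, mul_assoc]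
        rw [integral_finsetSum _ fun k _ => hcI k]
        exact sum_congr rfl fun k _ => integral_const_mul _ _
      rw [e1]
      have e2 : ∀ k ∈ S, ‖r k * ∫ η : UnitAddCircle, (fourier k η : ℂ) * ((‖SZ g N η‖ ^ 2 : ℝ) : ℂ)‖ ≤
          (if k = 0 then 2 * δ' * N else 0) + ‖r k‖ * (δ' / (C1 + 1) * N) := by
        intro k hk
        have hnn : 0 ≤ ‖r k‖ * (δ' / (C1 + 1) * N) := by positivity
        rw [norm_mul]
        by_cases hk0 : k = 0
        · rw [if_pos hk0]
          subst hk0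
          rw [if_pos hk] at hr0
          have e3 : ‖∫ η : UnitAddCircle, (fourier 0 η : ℂ) * ((‖SZ g N η‖ ^ 2 : ℝ) : ℂ)‖ ≤ N := by
            have e4 : ∫ η : UnitAddCircle, (fourier 0 η : ℂ) * ((‖SZ g N η‖ ^ 2 : ℝ) : ℂ) =
                ((∫ η : UnitAddCircle, ‖SZ g N η‖ ^ 2 : ℝ) : ℂ) := by
              rw [← integral_complex_ofReal]
              refine integral_congr_ae (ae_of_all _ fun η => ?_)
              show (fourier 0 η : ℂ) * _ = _
              rw [fourier_zero, one_mul]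
            rw [e4, Complex.norm_real, Real.norm_eq_abs, abs_of_nonneg (integral_nonneg fun _ => sq_nonneg _)]
            exact hp
          have := mul_le_mul hr0 e3 (norm_nonneg _) (by positivity)
          linarith
        · rw [if_neg hk0, zero_add]
          apply mul_le_mul_of_nonneg_left _ (norm_nonneg _)
          rw [int_SZ, hg]
          refine (corr_all f hf θ N k hk0).trans (hN₀ k hk0 N ?_ hNE)
          exact (single_le_sum (f := N₀) (fun _ _ => Nat.zero_le _) hk).trans hN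
      refine (norm_sum_le _ _).trans ((sum_le_sum e2).trans ?_)
      rw [sum_add_distrib, ← sum_mul, ← hC1]
      have e5 : ∑ k ∈ S, (if k = 0 then 2 * δ' * (N : ℝ) else 0) ≤ 2 * δ' * N := by
        rw [sum_ite_eq' S 0 (fun _ => 2 * δ' * (N : ℝ))]
        split_ifs
        · exact le_rfl
        · positivity
      have e6 : C1 * (δ' / (C1 + 1) * N) ≤ δ' * N := by
        have : C1 * (δ' / (C1 + 1)) ≤ δ' := by
          rw [mul_div_assoc', div_le_iff₀ (by positivity)]
          nlinarith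
        calc C1 * (δ' / (C1 + 1) * N) = C1 * (δ' / (C1 + 1)) * N := by ring
          _ ≤ δ' * N := mul_le_mul_of_nonneg_right this (Nat.cast_nonneg _)
      linarith
    -- conclusion
    have hfin : ∫ η : UnitAddCircle, φ η ^ 2 * ‖SZ g N η‖ ^ 2 ≤ 3 * δ' * N + δ' * N := by
      have e1 : ∀ η : UnitAddCircle, φ η ^ 2 * ‖SZ g N η‖ ^ 2 ≤
          (TP S r η * ((‖SZ g N η‖ ^ 2 : ℝ) : ℂ)).re + δ' * ‖SZ g N η‖ ^ 2 := by
        intro η
        rw [Complex.re_mul_ofReal]
        have e2 : φ η ^ 2 ≤ (TP S r η).re + δ' := by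
          have e3 : |(TP S r η - (F η : ℂ)).re| ≤ δ' := (Complex.abs_re_le_norm _).trans (hSr η)
          rw [Complex.sub_re, Complex.ofReal_re, hF, abs_le] at e3
          linarith
        calc φ η ^ 2 * ‖SZ g N η‖ ^ 2 ≤ ((TP S r η).re + δ') * ‖SZ g N η‖ ^ 2 :=
              mul_le_mul_of_nonneg_right e2 (sq_nonneg _)
          _ = _ := by ring
      have hcT : Continuous fun η => TP S r η * ((‖SZ g N η‖ ^ 2 : ℝ) : ℂ) :=
        (TP_cont S r).mul (Complex.continuous_ofReal.comp hcS)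
      calc ∫ η : UnitAddCircle, φ η ^ 2 * ‖SZ g N η‖ ^ 2 ≤
          ∫ η : UnitAddCircle, ((TP S r η * ((‖SZ g N η‖ ^ 2 : ℝ) : ℂ)).re + δ' * ‖SZ g N η‖ ^ 2) := by
            apply integral_mono
            · exact int_of_cont (((map_continuous φ).pow 2).mul hcS) _
            · exact int_of_cont ((Complex.continuous_re.comp hcT).add (continuous_const.mul hcS)) _
            · exact e1
        _ = (∫ η : UnitAddCircle, TP S r η * ((‖SZ g N η‖ ^ 2 : ℝ) : ℂ)).re +
            δ' * ∫ η : UnitAddCircle, ‖SZ g N η‖ ^ 2 := by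
            have hI1 : Integrable (fun η : UnitAddCircle => (TP S r η * ((‖SZ g N η‖ ^ 2 : ℝ) : ℂ)).re)
              (volume : Measure UnitAddCircle) := int_of_cont (Complex.continuous_re.comp hcT) _
            have hI2 : Integrable (fun η : UnitAddCircle => δ' * ‖SZ g N η‖ ^ 2)
              (volume : Measure UnitAddCircle) := int_of_cont (continuous_const.mul hcS) _
            rw [integral_add hI1 hI2, integral_const_mul]
            congr 1
            exact integral_re (int_of_cont hcT _)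
        _ ≤ 3 * δ' * N + δ' * N := by
            refine add_le_add ((Complex.re_le_norm _).trans hT) ?_
            exact mul_le_mul_of_nonneg_left hp hδ'0.le
    refine hfin.trans ?_
    have : 3 * δ' * (N : ℝ) + δ' * N = δ / 2 * N := by rw [hδ']; ring
    rw [this]
    apply mul_le_mul_of_nonneg_right _ (Nat.cast_nonneg _)
    linarith

end

end Pool.Agent.R296.SM
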