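import Pool.Agent.R296.SM.Main

set_option autoImplicit false

/-! # From invariant functionals to orbits in a representation -/

namespace Pool.Agent.R296.SM

open Finset MeasureTheory Filter Topology
open scoped ComplexOrder

noncomputable section

section Lin

variable {K : Type*} [NormedAddCommGroup K] [InnerProductSpace ℂ K]

/-- the weighted window sums are small in mean square -/
def Dj (E : Set ℕ) (𝓗 : Set (ℕ → ℂ)) (w : ℤ → K) : Prop :=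
  ∀ ε : ℝ, 0 < ε → ∃ H₀ : ℕ, 1 ≤ H₀ ∧ ∀ H : ℕ, H₀ ≤ H → ∀ N : ℕ, H₀ * H ≤ N → N ∉ E → ∀ h ∈ 𝓗,
      ∑ x ∈ range N, ‖∑ m ∈ Ioc (x : ℤ) (x + H), ext0 h m • w m‖ ^ 2 ≤ ε * H ^ 2 * N

variable {E : Set ℕ} {𝓗 : Set (ℕ → ℂ)}

lemma Dj.zero : Dj E 𝓗 (fun _ => (0 : K)) := by
  intro ε hε
  refine ⟨1, le_rfl, fun H _ N _ _ h _ => ?_⟩
  simp only [smul_zero, sum_const_zero, norm_zero, ne_eq, OfNat.ofNat_ne_zero, not_false_eq_true, zero_pow]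
  positivity

lemma norm_add_sq_le (a b : K) : ‖a + b‖ ^ 2 ≤ 2 * ‖a‖ ^ 2 + 2 * ‖b‖ ^ 2 :=
  (pow_le_pow_left₀ (norm_nonneg _) (norm_add_le a b) 2).trans (sq_two _ _)

lemma Dj.add {w w' : ℤ → K} (hw : Dj E 𝓗 w) (hw' : Dj E 𝓗 w') : Dj E 𝓗 (fun m => w m + w' m) := by
  intro ε hε
  obtain ⟨H₁, h11, h1⟩ := hw (ε / 4) (by positivity)
  obtain ⟨H₂, h21, h2⟩ := hw' (ε / 4) (by positivity)
  refine ⟨max H₁ H₂, le_trans h11 (le_max_left _ _), fun H hH N hN hNE h hh => ?_⟩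
  have e1 := h1 H (le_trans (le_max_left _ _) hH) N (le_trans (Nat.mul_le_mul_right _ (le_max_left _ _)) hN) hNE h hh
  have e2 := h2 H (le_trans (le_max_right _ _) hH) N (le_trans (Nat.mul_le_mul_right _ (le_max_right _ _)) hN) hNE h hh
  calc ∑ x ∈ range N, ‖∑ m ∈ Ioc (x : ℤ) (x + H), ext0 h m • (w m + w' m)‖ ^ 2 ≤
      ∑ x ∈ range N, (2 * ‖∑ m ∈ Ioc (x : ℤ) (x + H), ext0 h m • w m‖ ^ 2 +
        2 * ‖∑ m ∈ Ioc (x : ℤ) (x + H), ext0 h m • w' m‖ ^ 2) := by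
        refine sum_le_sum fun x _ => ?_
        simp_rw [smul_add, sum_add_distrib]
        exact norm_add_sq_le _ _
    _ ≤ _ := by
        rw [sum_add_distrib, ← mul_sum, ← mul_sum]
        linarith

lemma Dj.smul {w : ℤ → K} (hw : Dj E 𝓗 w) (c : ℂ) : Dj E 𝓗 (fun m => c • w m) := by
  intro ε hε
  obtain ⟨H₁, h11, h1⟩ := hw (ε / (‖c‖ ^ 2 + 1)) (by positivity)
  refine ⟨H₁, h11, fun H hH N hN hNE h hh => ?_⟩
  have e1 := h1 H hH N hN hNE h hh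
  have e2 : ∑ x ∈ range N, ‖∑ m ∈ Ioc (x : ℤ) (x + H), ext0 h m • c • w m‖ ^ 2 =
      ‖c‖ ^ 2 * ∑ x ∈ range N, ‖∑ m ∈ Ioc (x : ℤ) (x + H), ext0 h m • w m‖ ^ 2 := by
    rw [mul_sum]
    refine sum_congr rfl fun x _ => ?_
    simp_rw [smul_comm _ c, ← smul_sum]
    rw [norm_smul, mul_pow]
  rw [e2]
  calc ‖c‖ ^ 2 * ∑ x ∈ range N, ‖∑ m ∈ Ioc (x : ℤ) (x + H), ext0 h m • w m‖ ^ 2 ≤
      ‖c‖ ^ 2 * (ε / (‖c‖ ^ 2 + 1) * H ^ 2 * N) := mul_le_mul_of_nonneg_left e1 (sq_nonneg _)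
    _ = (‖c‖ ^ 2 / (‖c‖ ^ 2 + 1)) * (ε * H ^ 2 * N) := by ring
    _ ≤ 1 * (ε * H ^ 2 * N) := by
        apply mul_le_mul_of_nonneg_right _ (by positivity)
        rw [div_le_one (by positivity)]
        linarith
    _ = _ := one_mul _

lemma Dj.lim (h𝓗 : ∀ h ∈ 𝓗, ∀ n, ‖h n‖ ≤ 1) {w : ℤ → K}
    (hw : ∀ η : ℝ, 0 < η → ∃ w' : ℤ → K, Dj E 𝓗 w' ∧ ∀ m, ‖w m - w' m‖ ≤ η) : Dj E 𝓗 w := by
  intro ε hε
  obtain ⟨η, hη0, hη⟩ : ∃ η : ℝ, 0 < η ∧ η ^ 2 ≤ ε / 4 := by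
    refine ⟨min 1 (ε / 4), by positivity, ?_⟩
    have h1 : min 1 (ε / 4) ≤ 1 := min_le_left _ _
    have h2 : min 1 (ε / 4) ≤ ε / 4 := min_le_right _ _
    have h3 : 0 < min 1 (ε / 4) := by positivity
    nlinarith
  obtain ⟨w', hw', hd⟩ := hw η hη0
  obtain ⟨H₁, h11, h1⟩ := hw' (ε / 4) (by positivity)
  refine ⟨H₁, h11, fun H hH N hN hNE h hh => ?_⟩
  have e1 := h1 H hH N hN hNE h hh
  have e2 : ∀ x : ℤ, ‖∑ m ∈ Ioc x (x + H), ext0 h m • (w m - w' m)‖ ^ 2 ≤ (H * η) ^ 2 := by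
    intro x
    apply pow_le_pow_left₀ (norm_nonneg _)
    refine (norm_sum_le _ _).trans ?_
    calc ∑ m ∈ Ioc x (x + H), ‖ext0 h m • (w m - w' m)‖ ≤ ∑ _m ∈ Ioc x (x + H), η := by
          refine sum_le_sum fun m _ => ?_
          rw [norm_smul]
          calc _ ≤ 1 * ‖w m - w' m‖ := mul_le_mul_of_nonneg_right (ext0_le (h𝓗 h hh) m) (norm_nonneg _)
            _ ≤ η := by rw [one_mul]; exact hd m
      _ = H * η := by rw [sum_const, nsmul_eq_mul, card_Ioc_window]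
  calc ∑ x ∈ range N, ‖∑ m ∈ Ioc (x : ℤ) (x + H), ext0 h m • w m‖ ^ 2 ≤
      ∑ x ∈ range N, (2 * ‖∑ m ∈ Ioc (x : ℤ) (x + H), ext0 h m • w' m‖ ^ 2 + 2 * (H * η) ^ 2) := by
        refine sum_le_sum fun x _ => ?_
        have e3 : ∑ m ∈ Ioc (x : ℤ) (x + H), ext0 h m • w m = ∑ m ∈ Ioc (x : ℤ) (x + H), ext0 h m • w' m +
            ∑ m ∈ Ioc (x : ℤ) (x + H), ext0 h m • (w m - w' m) := by
          rw [← sum_add_distrib]
          refine sum_congr rfl fun m _ => ?_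
          rw [← smul_add, add_sub_cancel]
        rw [e3]
        refine (norm_add_sq_le _ _).trans ?_
        linarith [e2 x]
    _ = 2 * ∑ x ∈ range N, ‖∑ m ∈ Ioc (x : ℤ) (x + H), ext0 h m • w' m‖ ^ 2 + N * (2 * (H * η) ^ 2) := by
        rw [sum_add_distrib, ← mul_sum, sum_const, card_range, nsmul_eq_mul]
    _ ≤ 2 * (ε / 4 * H ^ 2 * N) + N * (2 * (H ^ 2 * (ε / 4))) := by
        have e4 : (H * η) ^ 2 ≤ (H : ℝ) ^ 2 * (ε / 4) := by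
          rw [mul_pow]
          exact mul_le_mul_of_nonneg_left hη (sq_nonneg _)
        have e5 : (N : ℝ) * (2 * (H * η) ^ 2) ≤ N * (2 * (H ^ 2 * (ε / 4))) :=
          mul_le_mul_of_nonneg_left (by linarith) (Nat.cast_nonneg _)
        linarith
    _ = _ := by ring

/-- long sums and windows -/
lemma long_windows {z : ℤ → K} {M : ℝ} (hz : ∀ m, ‖z m‖ ≤ M) (N H : ℕ) :
    H * ‖∑ m ∈ Ioc (0 : ℤ) N, z m‖ ≤ ∑ x ∈ range N, ‖∑ m ∈ Ioc (x : ℤ) (x + H), z m‖ + 2 * H ^ 2 * M := by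
  have hM : 0 ≤ M := (norm_nonneg _).trans (hz 0)
  have e1 : ∑ x ∈ range N, ∑ m ∈ Ioc (x : ℤ) (x + H), z m =
      ∑ k ∈ Ioc (0 : ℤ) H, ∑ m ∈ Ioc (0 + (k - 1)) ((N : ℤ) + (k - 1)), z m := by
    have e2 : ∀ x : ℕ, ∑ m ∈ Ioc (x : ℤ) (x + H), z m = ∑ k ∈ Ioc (0 : ℤ) H, z (k + x) := by
      intro x
      have := sum_Ioc_shift z 0 H x
      rw [this, zero_add, add_comm (H : ℤ) x]
    simp_rw [e2]
    rw [sum_comm]
    refine sum_congr rfl fun k _ => ?_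
    rw [← sum_Ioc_shift z 0 N (k - 1)]
    refine sum_nbij' (fun x : ℕ => (x : ℤ) + 1) (fun m : ℤ => (m - 1).toNat) ?_ ?_ ?_ ?_ ?_
    · intro x hx
      rw [mem_range] at hx
      rw [mem_Ioc]
      omega
    · intro m hm
      rw [mem_Ioc] at hm
      rw [mem_range]
      omega
    · intro x _
      simp
    · intro m hm
      rw [mem_Ioc] at hm
      omega
    · intro x _
      congr 1
      ring
  have e3 : (H : ℂ) • ∑ m ∈ Ioc (0 : ℤ) N, z m = ∑ x ∈ range N, ∑ m ∈ Ioc (x : ℤ) (x + H), z m -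
      ∑ k ∈ Ioc (0 : ℤ) H, (∑ m ∈ Ioc (0 + (k - 1)) ((N : ℤ) + (k - 1)), z m - ∑ m ∈ Ioc (0 : ℤ) N, z m) := by
    rw [sum_sub_distrib, ← e1, sub_sub_cancel, sum_const, Int.card_Ioc]
    simp only [sub_zero, Int.toNat_natCast]
    rw [← Nat.cast_smul_eq_nsmul ℂ]
  calc H * ‖∑ m ∈ Ioc (0 : ℤ) N, z m‖ = ‖(H : ℂ) • ∑ m ∈ Ioc (0 : ℤ) N, z m‖ := by
        rw [norm_smul, Complex.norm_natCast]
    _ ≤ ‖∑ x ∈ range N, ∑ m ∈ Ioc (x : ℤ) (x + H), z m‖ +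
        ‖∑ k ∈ Ioc (0 : ℤ) H, (∑ m ∈ Ioc (0 + (k - 1)) ((N : ℤ) + (k - 1)), z m - ∑ m ∈ Ioc (0 : ℤ) N, z m)‖ := by
        rw [e3]
        exact norm_sub_le _ _
    _ ≤ ∑ x ∈ range N, ‖∑ m ∈ Ioc (x : ℤ) (x + H), z m‖ + ∑ _k ∈ Ioc (0 : ℤ) (H : ℤ), 2 * H * M := by
        refine add_le_add (norm_sum_le _ _) ((norm_sum_le _ _).trans ?_)
        refine sum_le_sum fun k hk => ?_
        rw [mem_Ioc] at hk
        exact moving' z M hz 0 N (by omega) (k - 1) H (by rw [abs_le]; omega)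
    _ = _ := by
        rw [sum_const, nsmul_eq_mul, Int.card_Ioc]
        simp only [sub_zero, Int.toNat_natCast]
        ring

lemma Dj.long (h𝓗 : ∀ h ∈ 𝓗, ∀ n, ‖h n‖ ≤ 1) {w : ℤ → K} {M : ℝ} (hM : ∀ m, ‖w m‖ ≤ M) (hw : Dj E 𝓗 w) (ε : ℝ)
    (hε : 0 < ε) : ∃ N₀ : ℕ, ∀ N : ℕ, N₀ ≤ N → N ∉ E → ∀ h ∈ 𝓗,
      ‖∑ m ∈ Ioc (0 : ℤ) N, ext0 h m • w m‖ ≤ ε * N := by
  have hM0 : 0 ≤ M := (norm_nonneg _).trans (hM 0)
  obtain ⟨H, hH1, h1⟩ := hw ((ε / 2) ^ 2) (by positivity)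
  refine ⟨max (H * H) ⌈4 * H * M / ε⌉₊, fun N hN hNE h hh => ?_⟩
  have e1 := h1 H le_rfl N (le_trans (le_max_left _ _) hN) hNE h hh
  have hHr : (0 : ℝ) < H := by exact_mod_cast hH1
  have e2 : ∑ x ∈ range N, ‖∑ m ∈ Ioc (x : ℤ) (x + H), ext0 h m • w m‖ ≤ ε / 2 * H * N := by
    have e3 : (∑ x ∈ range N, ‖∑ m ∈ Ioc (x : ℤ) (x + H), ext0 h m • w m‖) ^ 2 ≤
        (ε / 2 * H * N) ^ 2 := by
      calc (∑ x ∈ range N, ‖∑ m ∈ Ioc (x : ℤ) (x + H), ext0 h m • w m‖) ^ 2 ≤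
          (range N).card * ∑ x ∈ range N, ‖∑ m ∈ Ioc (x : ℤ) (x + H), ext0 h m • w m‖ ^ 2 :=
            sq_sum_le_card_mul_sum_sq
        _ ≤ N * ((ε / 2) ^ 2 * H ^ 2 * N) := by
            rw [card_range]
            exact mul_le_mul_of_nonneg_left e1 (Nat.cast_nonneg _)
        _ = _ := by ring
    exact le_of_sq_le_sq e3 (by positivity)
  have e4 := long_windows (z := fun m => ext0 h m • w m) (M := M) (fun m => by
    rw [norm_smul]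
    calc _ ≤ 1 * ‖w m‖ := mul_le_mul_of_nonneg_right (ext0_le (h𝓗 h hh) m) (norm_nonneg _)
      _ ≤ M := by rw [one_mul]; exact hM m) N H
  have e5 : 4 * H * M / ε ≤ N := (Nat.le_ceil _).trans (by exact_mod_cast le_trans (le_max_right _ _) hN)
  rw [div_le_iff₀ hε] at e5
  have e6 : H * ‖∑ m ∈ Ioc (0 : ℤ) N, ext0 h m • w m‖ ≤ H * (ε * N) := by
    refine e4.trans ?_
    have e7 : 2 * (H : ℝ) ^ 2 * M ≤ H * (ε / 2 * N) := by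
      calc 2 * (H : ℝ) ^ 2 * M = H * (4 * H * M / 2) := by ring
        _ ≤ H * (ε / 2 * N) := mul_le_mul_of_nonneg_left (by linarith) hHr.le
    calc _ ≤ ε / 2 * H * N + H * (ε / 2 * N) := add_le_add e2 e7
      _ = _ := by ring
  exact le_of_mul_le_mul_left e6 hHr

end Lin

section Cst

universe u v

variable {A : Type u} [NonUnitalCStarAlgebra A] (α : A ≃⋆ₐ[ℂ] A)

open scoped InnerProductSpace

lemma norm_pow_apply (n : ℕ) (a : A) : ‖(α ^ n) a‖ = ‖a‖ := by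
  induction n with
  | zero => rfl
  | succ n ih =>
    rw [pow_succ']
    show ‖α ((α ^ n) a)‖ = _
    rw [StarAlgEquiv.norm_map, ih]

/-- the averages of `ρ` along the orbit -/
def av (ρ : A → ℂ) (N : ℕ) (a : A) : ℂ := (1 / (N : ℂ)) * ∑ n ∈ Icc 1 N, ρ ((α ^ n) a)

/-- `φ` is a cluster point of the averages of `ρ` -/
def Clu (ρ : A → ℂ) (φ : A →L[ℂ] ℂ) : Prop :=
  ∀ (F : Finset A) (ε : ℝ), 0 < ε → ∀ N₀ : ℕ, ∃ N ≥ N₀, ∀ a ∈ F, ‖av α ρ N a - φ a‖ < ε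

variable {K : Type v} [NormedAddCommGroup K] [InnerProductSpace ℂ K] [CompleteSpace K]
variable (π : A →⋆ₙₐ[ℂ] (K →L[ℂ] K)) (ξ : K)

/-- the orbit -/
def yy (u : A) (m : ℤ) : K := π ((α ^ m.toNat) u) ξ

lemma pi_le (a : A) : ‖π a ξ‖ ≤ ‖ξ‖ * ‖a‖ := by
  refine (ContinuousLinearMap.le_opNorm _ _).trans ?_
  rw [mul_comm]
  exact mul_le_mul_of_nonneg_left (NonUnitalStarAlgHom.norm_apply_le π a) (norm_nonneg _)

lemma yy_le (u : A) (m : ℤ) : ‖yy α π ξ u m‖ ≤ ‖ξ‖ * ‖u‖ := by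
  refine (pi_le π ξ _).trans ?_
  rw [norm_pow_apply]

/-- the vector functional -/
def rr (a : A) : ℂ := ⟪ξ, π a ξ⟫_ℂ

lemma rr_le (a : A) : ‖rr π ξ a‖ ≤ ‖ξ‖ ^ 2 * ‖a‖ := by
  refine (norm_inner_le_norm _ _).trans ?_
  calc ‖ξ‖ * ‖π a ξ‖ ≤ ‖ξ‖ * (‖ξ‖ * ‖a‖) := mul_le_mul_of_nonneg_left (pi_le π ξ a) (norm_nonneg _)
    _ = _ := by ring

lemma av_le (N : ℕ) (a : A) : ‖av α (rr π ξ) N a‖ ≤ ‖ξ‖ ^ 2 * ‖a‖ := by
  unfold av
  rw [norm_mul, norm_div, norm_one, Complex.norm_natCast]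
  rcases Nat.eq_zero_or_pos N with rfl | hN
  · simp only [CharP.cast_eq_zero, div_zero, zero_mul]; positivity
  have hNr : (0 : ℝ) < N := by exact_mod_cast hN
  rw [one_div, inv_mul_le_iff₀ hNr]
  refine (norm_sum_le _ _).trans ?_
  calc ∑ n ∈ Icc 1 N, ‖rr π ξ ((α ^ n) a)‖ ≤ ∑ _n ∈ Icc 1 N, ‖ξ‖ ^ 2 * ‖a‖ := by
        refine sum_le_sum fun n _ => ?_
        refine (rr_le π ξ _).trans ?_
        rw [norm_pow_apply]
    _ = _ := by rw [sum_const, Nat.card_Icc, nsmul_eq_mul, Nat.add_sub_cancel]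

lemma rr_add (a b : A) : rr π ξ (a + b) = rr π ξ a + rr π ξ b := by
  unfold rr; rw [map_add, add_apply, inner_add_right]

lemma rr_smul (c : ℂ) (a : A) : rr π ξ (c • a) = c * rr π ξ a := by
  unfold rr; rw [map_smul, smul_apply, inner_smul_right]

lemma rr_mul (a b : A) : rr π ξ (star a * b) = ⟪π a ξ, π b ξ⟫_ℂ := by
  unfold rr
  rw [map_mul, map_star]
  show ⟪ξ, (star (π a)) (π b ξ)⟫_ℂ = _
  rw [ContinuousLinearMap.star_eq_adjoint, ContinuousLinearMap.adjoint_inner_right]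

lemma av_add (N : ℕ) (a b : A) : av α (rr π ξ) N (a + b) = av α (rr π ξ) N a + av α (rr π ξ) N b := by
  unfold av
  simp_rw [map_add, rr_add, sum_add_distrib, mul_add]

lemma av_smul (N : ℕ) (c : ℂ) (a : A) : av α (rr π ξ) N (c • a) = c * av α (rr π ξ) N a := by
  unfold av
  simp_rw [map_smul, rr_smul, ← mul_sum]
  ring

lemma exists_ulim (𝒰 : Ultrafilter ℕ) (z : ℕ → ℂ) (C : ℝ) (hz : ∀ N, ‖z N‖ ≤ C) :
    ∃ l : ℂ, Tendsto z 𝒰 (𝓝 l) ∧ ‖l‖ ≤ C := by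
  have hc : IsCompact (Metric.closedBall (0 : ℂ) C) := isCompact_closedBall 0 C
  obtain ⟨l, hl, hl2⟩ := hc.ultrafilter_le_nhds (𝒰.map z) (by
    rw [le_principal_iff]
    refine mem_map.2 (univ_mem' fun N => ?_)
    simpa using hz N)
  refine ⟨l, hl2, by simpa using hl⟩

/-- the limit functional -/
lemma exists_phi (𝒰 : Ultrafilter ℕ) : ∃ φ : A →L[ℂ] ℂ,
    ∀ a, Tendsto (fun N => av α (rr π ξ) N a) 𝒰 (𝓝 (φ a)) := by
  choose l hl hl2 using fun a : A => exists_ulim 𝒰 (fun N => av α (rr π ξ) N a) (‖ξ‖ ^ 2 * ‖a‖)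
    (fun N => av_le α π ξ N a)
  have hadd : ∀ a b, l (a + b) = l a + l b := by
    intro a b
    refine tendsto_nhds_unique (hl (a + b)) (((hl a).add (hl b)).congr fun N => ?_)
    rw [av_add]
  have hsmul : ∀ (c : ℂ) a, l (c • a) = c * l a := by
    intro c a
    refine tendsto_nhds_unique (hl (c • a)) (((hl a).const_mul c).congr fun N => ?_)
    rw [av_smul]
  let φ₀ : A →ₗ[ℂ] ℂ := { toFun := l, map_add' := hadd, map_smul' := fun c a => by simpa using hsmul c a }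
  exact ⟨φ₀.mkContinuous (‖ξ‖ ^ 2) hl2, hl⟩

variable {π ξ}

lemma phi_pos {𝒰 : Ultrafilter ℕ} {φ : A →L[ℂ] ℂ} (h : ∀ a, Tendsto (fun N => av α (rr π ξ) N a) 𝒰 (𝓝 (φ a)))
    (a : A) : 0 ≤ φ (star a * a) := by
  refine ge_of_tendsto (h (star a * a)) (Eventually.of_forall fun N => ?_)
  unfold av
  have h1 : ∀ n : ℕ, rr π ξ ((α ^ n) (star a * a)) = ((‖π ((α ^ n) a) ξ‖ ^ 2 : ℝ) : ℂ) := by
    intro n
    rw [map_mul, map_star, rr_mul, inner_self_eq_norm_sq_to_K]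
    norm_cast
  simp_rw [h1]
  have h2 : (1 / (N : ℂ)) * ∑ n ∈ Icc 1 N, ((‖π ((α ^ n) a) ξ‖ ^ 2 : ℝ) : ℂ) =
      (((1 / (N : ℝ)) * ∑ n ∈ Icc 1 N, ‖π ((α ^ n) a) ξ‖ ^ 2 : ℝ) : ℂ) := by
    push_cast; ring
  rw [h2, Complex.zero_le_real]
  positivity

lemma phi_inv {𝒰 : Ultrafilter ℕ} (h𝒰 : (𝒰 : Filter ℕ) ≤ atTop) {φ : A →L[ℂ] ℂ}
    (h : ∀ a, Tendsto (fun N => av α (rr π ξ) N a) 𝒰 (𝓝 (φ a))) (a : A) : φ (α a) = φ a := by
  have h1 : Tendsto (fun N : ℕ => (1 / (N : ℂ)) * (rr π ξ ((α ^ (N + 1)) a) - rr π ξ (α a))) 𝒰 (𝓝 0) := by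
    refine tendsto_inv_mul h𝒰 _ (2 * (‖ξ‖ ^ 2 * ‖a‖)) fun N => ?_
    refine (norm_sub_le _ _).trans ?_
    have e1 := rr_le π ξ ((α ^ (N + 1)) a)
    have e2 := rr_le π ξ (α a)
    rw [norm_pow_apply] at e1
    rw [StarAlgEquiv.norm_map] at e2
    linarith
  refine tendsto_nhds_unique (h (α a)) ?_
  have h2 := h1.add (h a)
  rw [zero_add] at h2
  refine h2.congr fun N => ?_
  unfold av
  rw [← mul_add]
  congr 1
  have e : ∀ n : ℕ, (α ^ n) (α a) = (α ^ (n + 1)) a := by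
    intro n; rw [pow_succ]; rfl
  simp_rw [e]
  clear h2 h1 h
  induction N with
  | zero => simp [rr, pow_one]
  | succ N ih =>
    rw [sum_Icc_succ_top (by omega), sum_Icc_succ_top (by omega), ← ih]
    ring

lemma phi_clu {𝒰 : Ultrafilter ℕ} (h𝒰 : (𝒰 : Filter ℕ) ≤ atTop) {φ : A →L[ℂ] ℂ}
    (h : ∀ a, Tendsto (fun N => av α (rr π ξ) N a) 𝒰 (𝓝 (φ a))) : Clu α (rr π ξ) φ := by
  intro F ε hε N₀
  have h1 : ∀ᶠ N : ℕ in (𝒰 : Filter ℕ), ∀ a ∈ F, ‖av α (rr π ξ) N a - φ a‖ < ε := by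
    rw [eventually_all_finset]
    intro a _
    have := (tendsto_iff_norm_sub_tendsto_zero.1 (h a)).eventually (gt_mem_nhds hε)
    exact this
  have h2 : ∀ᶠ N : ℕ in (𝒰 : Filter ℕ), N₀ ≤ N := h𝒰 (eventually_ge_atTop N₀)
  obtain ⟨N, hN1, hN2⟩ := (h2.and h1).exists
  exact ⟨N, hN1, hN2⟩

lemma phi_spec {𝒰 : Ultrafilter ℕ} {φ : A →L[ℂ] ℂ}
    (h : ∀ a, Tendsto (fun N => av α (rr π ξ) N a) 𝒰 (𝓝 (φ a))) (u : A) {σ : Measure UnitAddCircle}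
    (hσ : ∀ k : ℕ, φ (star u * (α ^ k) u) = ∫ η, (fourier (k : ℤ) η : ℂ) ∂σ) :
    IsSpec (yy α π ξ u) 𝒰 σ := by
  intro k
  rw [← hσ k]
  refine (h _).congr fun N => ?_
  unfold av
  congr 1
  symm
  refine sum_nbij' (fun m : ℤ => m.toNat) (fun n : ℕ => (n : ℤ)) ?_ ?_ ?_ ?_ ?_
  · intro m hm
    rw [mem_Ioc] at hm
    rw [mem_Icc]
    omega
  · intro n hn
    rw [mem_Icc] at hn
    rw [mem_Ioc]
    omega
  · intro m hm
    rw [mem_Ioc] at hm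
    omega
  · intro n _
    simp
  · intro m hm
    rw [mem_Ioc] at hm
    rw [map_mul, map_star, rr_mul]
    unfold yy
    have e1 : (m + (k : ℤ)).toNat = m.toNat + k := by omega
    rw [e1, pow_add]
    rfl

/-- **The criterion for orbits in a representation** -/
theorem Dj_orbit (E : Set ℕ) (𝓗 : Set (ℕ → ℂ)) (h𝓗 : ∀ h ∈ 𝓗, ∀ n, ‖h n‖ ≤ 1) (u : A)
    (H : ∀ φ : A →L[ℂ] ℂ, (∀ a, 0 ≤ φ (star a * a)) → (∀ a, φ (α a) = φ a) → Clu α (rr π ξ) φ →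
      ∃ σ : Measure UnitAddCircle, IsFiniteMeasure σ ∧
        (∀ k : ℕ, φ (star u * (α ^ k) u) = ∫ η, (fourier (k : ℤ) η : ℂ) ∂σ) ∧ ∀ δ : ℝ, 0 < δ → Isolates E 𝓗 σ δ) :
    Dj E 𝓗 (yy α π ξ u) := by
  intro ε hε
  refine criterion (yy α π ξ u) _ (yy_le α π ξ u) E 𝓗 h𝓗 ?_ ε hε
  intro 𝒰 h𝒰 _
  obtain ⟨φ, hφ⟩ := exists_phi α π ξ 𝒰
  obtain ⟨σ, h1, h2, h3⟩ := H φ (phi_pos α hφ) (phi_inv α h𝒰 hφ) (phi_clu α h𝒰 hφ)
  exact ⟨σ, h1, phi_spec α hφ u h2, h3⟩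

variable (π ξ)

/-- the elements with a small orbit form a closed subspace -/
def DjSub (E : Set ℕ) (𝓗 : Set (ℕ → ℂ)) : Submodule ℂ A where
  carrier := {u | Dj E 𝓗 (yy α π ξ u)}
  zero_mem' := by
    have : yy α π ξ (0 : A) = fun _ => 0 := by
      funext m; simp [yy]
    rw [Set.mem_ofPred_eq, this]
    exact Dj.zero
  add_mem' := by
    intro a b ha hb
    have : yy α π ξ (a + b) = fun m => yy α π ξ a m + yy α π ξ b m := by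
      funext m; simp [yy]
    rw [Set.mem_ofPred_eq, this]
    exact Dj.add ha hb
  smul_mem' := by
    intro c a ha
    have : yy α π ξ (c • a) = fun m => c • yy α π ξ a m := by
      funext m; simp [yy]
    rw [Set.mem_ofPred_eq, this]
    exact Dj.smul ha c

variable {π ξ}

lemma Dj_closure {E : Set ℕ} {𝓗 : Set (ℕ → ℂ)} (h𝓗 : ∀ h ∈ 𝓗, ∀ n, ‖h n‖ ≤ 1) {D : Set A}
    (hD : ∀ u ∈ D, Dj E 𝓗 (yy α π ξ u)) {u : A} (hu : u ∈ closure (Submodule.span ℂ D : Set A)) :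
    Dj E 𝓗 (yy α π ξ u) := by
  have h1 : Submodule.span ℂ D ≤ DjSub α π ξ E 𝓗 := Submodule.span_le.2 hD
  refine Dj.lim h𝓗 fun η hη => ?_
  obtain ⟨v, hv, hvu⟩ := Metric.mem_closure_iff.1 hu (η / (‖ξ‖ + 1)) (by positivity)
  refine ⟨yy α π ξ v, h1 hv, fun m => ?_⟩
  have e : yy α π ξ u m - yy α π ξ v m = yy α π ξ (u - v) m := by simp [yy]
  rw [e]
  refine (yy_le α π ξ _ m).trans ?_
  rw [dist_eq_norm] at hvu
  calc ‖ξ‖ * ‖u - v‖ ≤ ‖ξ‖ * (η / (‖ξ‖ + 1)) := mul_le_mul_of_nonneg_left hvu.le (norm_nonneg _)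
    _ = η * (‖ξ‖ / (‖ξ‖ + 1)) := by ring
    _ ≤ η * 1 := by
        apply mul_le_mul_of_nonneg_left _ hη.le
        rw [div_le_one (by positivity)]
        linarith
    _ = η := mul_one _

end Cst

end

end Pool.Agent.R296.SM
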