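import Pool.Agent.R296.SM.LimU
import Pool.Agent.R296.SM.Fin

set_option autoImplicit false

/-! # From invariant functionals to orbits in a representation, uniformly -/

namespace Pool.Agent.R296.SM

open Finset MeasureTheory Filter Topology
open scoped ComplexOrder

noncomputable section

section Lin

variable {K : Type*} [NormedAddCommGroup K] [InnerProductSpace ℂ K] {ι : Type*}

/-- the weighted window sums are small in mean square, uniformly in the family -/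
def DjU (E : Set ℕ) (𝓗 : Set (ℕ → ℂ)) (w : ι → ℤ → K) : Prop :=
  ∀ ε : ℝ, 0 < ε → ∃ H₀ : ℕ, 1 ≤ H₀ ∧ ∀ H : ℕ, H₀ ≤ H → ∀ N : ℕ, H₀ * H ≤ N → N ∉ E → ∀ h ∈ 𝓗, ∀ i,
      ∑ x ∈ range N, ‖∑ m ∈ Ioc (x : ℤ) (x + H), ext0 h m • w i m‖ ^ 2 ≤ ε * H ^ 2 * N

variable {E : Set ℕ} {𝓗 : Set (ℕ → ℂ)}

lemma DjU.zero : DjU E 𝓗 (fun (_ : ι) _ => (0 : K)) := by
  intro ε hε
  refine ⟨1, le_rfl, fun H _ N _ _ h _ i => ?_⟩
  simp only [smul_zero, sum_const_zero, norm_zero, ne_eq, OfNat.ofNat_ne_zero, not_false_eq_true, zero_pow]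
  positivity

lemma DjU.add {w w' : ι → ℤ → K} (hw : DjU E 𝓗 w) (hw' : DjU E 𝓗 w') : DjU E 𝓗 (fun i m => w i m + w' i m) := by
  intro ε hε
  obtain ⟨H₁, h11, h1⟩ := hw (ε / 4) (by positivity)
  obtain ⟨H₂, h21, h2⟩ := hw' (ε / 4) (by positivity)
  refine ⟨max H₁ H₂, le_trans h11 (le_max_left _ _), fun H hH N hN hNE h hh i => ?_⟩
  have e1 := h1 H (le_trans (le_max_left _ _) hH) N (le_trans (Nat.mul_le_mul_right _ (le_max_left _ _)) hN) hNE h hh i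
  have e2 := h2 H (le_trans (le_max_right _ _) hH) N (le_trans (Nat.mul_le_mul_right _ (le_max_right _ _)) hN) hNE h hh i
  calc ∑ x ∈ range N, ‖∑ m ∈ Ioc (x : ℤ) (x + H), ext0 h m • (w i m + w' i m)‖ ^ 2 ≤
      ∑ x ∈ range N, (2 * ‖∑ m ∈ Ioc (x : ℤ) (x + H), ext0 h m • w i m‖ ^ 2 +
        2 * ‖∑ m ∈ Ioc (x : ℤ) (x + H), ext0 h m • w' i m‖ ^ 2) := by
        refine sum_le_sum fun x _ => ?_
        simp_rw [smul_add, sum_add_distrib]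
        exact norm_add_sq_le _ _
    _ ≤ _ := by
        rw [sum_add_distrib, ← mul_sum, ← mul_sum]
        linarith

lemma DjU.smul {w : ι → ℤ → K} (hw : DjU E 𝓗 w) (c : ℂ) : DjU E 𝓗 (fun i m => c • w i m) := by
  intro ε hε
  obtain ⟨H₁, h11, h1⟩ := hw (ε / (‖c‖ ^ 2 + 1)) (by positivity)
  refine ⟨H₁, h11, fun H hH N hN hNE h hh i => ?_⟩
  have e1 := h1 H hH N hN hNE h hh i
  have e2 : ∑ x ∈ range N, ‖∑ m ∈ Ioc (x : ℤ) (x + H), ext0 h m • c • w i m‖ ^ 2 =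
      ‖c‖ ^ 2 * ∑ x ∈ range N, ‖∑ m ∈ Ioc (x : ℤ) (x + H), ext0 h m • w i m‖ ^ 2 := by
    rw [mul_sum]
    refine sum_congr rfl fun x _ => ?_
    simp_rw [smul_comm _ c, ← smul_sum]
    rw [norm_smul, mul_pow]
  rw [e2]
  calc ‖c‖ ^ 2 * ∑ x ∈ range N, ‖∑ m ∈ Ioc (x : ℤ) (x + H), ext0 h m • w i m‖ ^ 2 ≤
      ‖c‖ ^ 2 * (ε / (‖c‖ ^ 2 + 1) * H ^ 2 * N) := mul_le_mul_of_nonneg_left e1 (sq_nonneg _)
    _ = (‖c‖ ^ 2 / (‖c‖ ^ 2 + 1)) * (ε * H ^ 2 * N) := by ring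
    _ ≤ 1 * (ε * H ^ 2 * N) := by
        apply mul_le_mul_of_nonneg_right _ (by positivity)
        rw [div_le_one (by positivity)]
        linarith
    _ = _ := one_mul _

lemma DjU.lim (h𝓗 : ∀ h ∈ 𝓗, ∀ n, ‖h n‖ ≤ 1) {w : ι → ℤ → K}
    (hw : ∀ η : ℝ, 0 < η → ∃ w' : ι → ℤ → K, DjU E 𝓗 w' ∧ ∀ i m, ‖w i m - w' i m‖ ≤ η) : DjU E 𝓗 w := by
  intro ε hε
  obtain ⟨η, hη0, hη⟩ : ∃ η : ℝ, 0 < η ∧ η ^ 2 ≤ ε / 4 := by
    refine ⟨min 1 (ε / 4), by positivity, ?_⟩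
    have h1 : min 1 (ε / 4) ≤ 1 := min_le_left _ _
    have h2 : min 1 (ε / 4) ≤ ε / 4 := min_le_right _ _
    have h3 : 0 < min 1 (ε / 4) := by positivity
    nlinarith
  obtain ⟨w', hw', hd⟩ := hw η hη0
  obtain ⟨H₁, h11, h1⟩ := hw' (ε / 4) (by positivity)
  refine ⟨H₁, h11, fun H hH N hN hNE h hh i => ?_⟩
  have e1 := h1 H hH N hN hNE h hh i
  have e2 : ∀ x : ℤ, ‖∑ m ∈ Ioc x (x + H), ext0 h m • (w i m - w' i m)‖ ^ 2 ≤ (H * η) ^ 2 := by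
    intro x
    apply pow_le_pow_left₀ (norm_nonneg _)
    refine (norm_sum_le _ _).trans ?_
    calc ∑ m ∈ Ioc x (x + H), ‖ext0 h m • (w i m - w' i m)‖ ≤ ∑ _m ∈ Ioc x (x + H), η := by
          refine sum_le_sum fun m _ => ?_
          rw [norm_smul]
          calc _ ≤ 1 * ‖w i m - w' i m‖ := mul_le_mul_of_nonneg_right (ext0_le (h𝓗 h hh) m) (norm_nonneg _)
            _ ≤ η := by rw [one_mul]; exact hd i m
      _ = H * η := by rw [sum_const, nsmul_eq_mul, card_Ioc_window]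
  calc ∑ x ∈ range N, ‖∑ m ∈ Ioc (x : ℤ) (x + H), ext0 h m • w i m‖ ^ 2 ≤
      ∑ x ∈ range N, (2 * ‖∑ m ∈ Ioc (x : ℤ) (x + H), ext0 h m • w' i m‖ ^ 2 + 2 * (H * η) ^ 2) := by
        refine sum_le_sum fun x _ => ?_
        have e3 : ∑ m ∈ Ioc (x : ℤ) (x + H), ext0 h m • w i m = ∑ m ∈ Ioc (x : ℤ) (x + H), ext0 h m • w' i m +
            ∑ m ∈ Ioc (x : ℤ) (x + H), ext0 h m • (w i m - w' i m) := by
          rw [← sum_add_distrib]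
          refine sum_congr rfl fun m _ => ?_
          rw [← smul_add, add_sub_cancel]
        rw [e3]
        refine (norm_add_sq_le _ _).trans ?_
        linarith [e2 x]
    _ = 2 * ∑ x ∈ range N, ‖∑ m ∈ Ioc (x : ℤ) (x + H), ext0 h m • w' i m‖ ^ 2 + N * (2 * (H * η) ^ 2) := by
        rw [sum_add_distrib, ← mul_sum, sum_const, card_range, nsmul_eq_mul]
    _ ≤ 2 * (ε / 4 * H ^ 2 * N) + N * (2 * (H ^ 2 * (ε / 4))) := by
        have e4 : (H * η) ^ 2 ≤ (H : ℝ) ^ 2 * (ε / 4) := by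
          rw [mul_pow]
          exact mul_le_mul_of_nonneg_left hη (sq_nonneg _)
        have e5 : (N : ℝ) * (2 * (H * η) ^ 2) ≤ N * (2 * (H ^ 2 * (ε / 4))) :=
          mul_le_mul_of_nonneg_left (by linarith) (Nat.cast_nonneg _)
        linarith
    _ = _ := by ring

lemma DjU.long (h𝓗 : ∀ h ∈ 𝓗, ∀ n, ‖h n‖ ≤ 1) {w : ι → ℤ → K} {M : ℝ} (hM : ∀ i m, ‖w i m‖ ≤ M) (hw : DjU E 𝓗 w)
    (ε : ℝ) (hε : 0 < ε) : ∃ N₀ : ℕ, ∀ N : ℕ, N₀ ≤ N → N ∉ E → ∀ h ∈ 𝓗, ∀ i,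
      ‖∑ m ∈ Ioc (0 : ℤ) N, ext0 h m • w i m‖ ≤ ε * N := by
  by_cases hι : Nonempty ι
  swap
  · exact ⟨0, fun N _ _ h _ i => absurd ⟨i⟩ hι⟩
  have hM0 : 0 ≤ M := (norm_nonneg _).trans (hM (Classical.choice hι) 0)
  obtain ⟨H, hH1, h1⟩ := hw ((ε / 2) ^ 2) (by positivity)
  refine ⟨max (H * H) ⌈4 * H * M / ε⌉₊, fun N hN hNE h hh i => ?_⟩
  have e1 := h1 H le_rfl N (le_trans (le_max_left _ _) hN) hNE h hh i
  have hHr : (0 : ℝ) < H := by exact_mod_cast hH1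
  have e2 : ∑ x ∈ range N, ‖∑ m ∈ Ioc (x : ℤ) (x + H), ext0 h m • w i m‖ ≤ ε / 2 * H * N := by
    have e3 : (∑ x ∈ range N, ‖∑ m ∈ Ioc (x : ℤ) (x + H), ext0 h m • w i m‖) ^ 2 ≤
        (ε / 2 * H * N) ^ 2 := by
      calc (∑ x ∈ range N, ‖∑ m ∈ Ioc (x : ℤ) (x + H), ext0 h m • w i m‖) ^ 2 ≤
          (range N).card * ∑ x ∈ range N, ‖∑ m ∈ Ioc (x : ℤ) (x + H), ext0 h m • w i m‖ ^ 2 :=
            sq_sum_le_card_mul_sum_sq
        _ ≤ N * ((ε / 2) ^ 2 * H ^ 2 * N) := by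
            rw [card_range]
            exact mul_le_mul_of_nonneg_left e1 (Nat.cast_nonneg _)
        _ = _ := by ring
    exact le_of_sq_le_sq e3 (by positivity)
  have e4 := long_windows (z := fun m => ext0 h m • w i m) (M := M) (fun m => by
    rw [norm_smul]
    calc _ ≤ 1 * ‖w i m‖ := mul_le_mul_of_nonneg_right (ext0_le (h𝓗 h hh) m) (norm_nonneg _)
      _ ≤ M := by rw [one_mul]; exact hM i m) N H
  have e5 : 4 * H * M / ε ≤ N := (Nat.le_ceil _).trans (by exact_mod_cast le_trans (le_max_right _ _) hN)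
  rw [div_le_iff₀ hε] at e5
  have e6 : H * ‖∑ m ∈ Ioc (0 : ℤ) N, ext0 h m • w i m‖ ≤ H * (ε * N) := by
    refine e4.trans ?_
    have e7 : 2 * (H : ℝ) ^ 2 * M ≤ H * (ε / 2 * N) := by
      calc 2 * (H : ℝ) ^ 2 * M = H * (4 * H * M / 2) := by ring
        _ ≤ H * (ε / 2 * N) := mul_le_mul_of_nonneg_left (by linarith) hHr.le
    calc _ ≤ ε / 2 * H * N + H * (ε / 2 * N) := add_le_add e2 e7
      _ = _ := by ring
  exact le_of_mul_le_mul_left e6 hHr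

/-- without exceptional scales the windows may be as long as the interval -/
lemma DjU.win (h𝓗 : ∀ h ∈ 𝓗, ∀ n, ‖h n‖ ≤ 1) {w : ι → ℤ → K} {M : ℝ} (hM : ∀ i m, ‖w i m‖ ≤ M) (hw : DjU ∅ 𝓗 w)
    (ε : ℝ) (hε : 0 < ε) : ∃ H₀ : ℕ, ∀ H : ℕ, H₀ ≤ H → ∀ N : ℕ, H ≤ N → ∀ h ∈ 𝓗, ∀ i,
      ∑ x ∈ range N, ‖∑ m ∈ Ioc (x : ℤ) (x + H), ext0 h m • w i m‖ ^ 2 ≤ ε * H ^ 2 * N := by
  by_cases hι : Nonempty ι
  swap
  · exact ⟨0, fun H _ N _ h _ i => absurd ⟨i⟩ hι⟩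
  have hM0 : 0 ≤ M := (norm_nonneg _).trans (hM (Classical.choice hι) 0)
  obtain ⟨H₁, h11, h1⟩ := hw ε hε
  obtain ⟨δ, hδ0, hδ1, hδ2⟩ : ∃ δ : ℝ, 0 < δ ∧ δ ≤ 1 ∧ δ ≤ ε := ⟨min 1 ε, by positivity, min_le_left _ _, min_le_right _ _⟩
  obtain ⟨η, hη⟩ : ∃ η : ℝ, η = δ / (2 * H₁ + 3) := ⟨_, rfl⟩
  have hη0 : 0 < η := by rw [hη]; positivity
  obtain ⟨N₀, h2⟩ := hw.long h𝓗 hM η hη0
  have h3 : ∀ N : ℕ, ∀ h ∈ 𝓗, ∀ i, ‖∑ m ∈ Ioc (0 : ℤ) N, ext0 h m • w i m‖ ≤ η * N + M * N₀ := by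
    intro N h hh i
    rcases le_total N₀ N with hN | hN
    · have := h2 N hN (Set.notMem_empty N) h hh i
      have h4 : 0 ≤ M * N₀ := by positivity
      linarith
    · have h5 : ‖∑ m ∈ Ioc (0 : ℤ) N, ext0 h m • w i m‖ ≤ N * M := by
        refine (norm_sum_le _ _).trans ?_
        calc ∑ m ∈ Ioc (0 : ℤ) N, ‖ext0 h m • w i m‖ ≤ ∑ _m ∈ Ioc (0 : ℤ) (N : ℤ), M := by
              refine sum_le_sum fun m _ => ?_
              rw [norm_smul]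
              calc _ ≤ 1 * ‖w i m‖ := mul_le_mul_of_nonneg_right (ext0_le (h𝓗 h hh) m) (norm_nonneg _)
                _ ≤ M := by rw [one_mul]; exact hM i m
          _ = N * M := by rw [sum_const, nsmul_eq_mul, Int.card_Ioc]; simp
      have h6 : (N : ℝ) * M ≤ N₀ * M := mul_le_mul_of_nonneg_right (by exact_mod_cast hN) hM0
      have h7 : 0 ≤ η * N := by positivity
      linarith
  refine ⟨max H₁ ⌈M * N₀ / η⌉₊, fun H hH N hN h hh i => ?_⟩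
  rcases le_total (H₁ * H) N with hN' | hN'
  · exact h1 H (le_trans (le_max_left _ _) hH) N hN' (Set.notMem_empty N) h hh i
  have hH2 : M * N₀ / η ≤ H := (Nat.le_ceil _).trans (by exact_mod_cast le_trans (le_max_right _ _) hH)
  rw [div_le_iff₀ hη0] at hH2
  have hNr : (N : ℝ) ≤ H₁ * H := by exact_mod_cast hN'
  have key : ∀ x ∈ range N, ‖∑ m ∈ Ioc (x : ℤ) (x + H), ext0 h m • w i m‖ ^ 2 ≤ ε * H ^ 2 := by
    intro x hx
    rw [mem_range] at hx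
    have e1 : ∑ m ∈ Ioc (x : ℤ) (x + H), ext0 h m • w i m = ∑ m ∈ Ioc (0 : ℤ) ((x + H : ℕ) : ℤ), ext0 h m • w i m -
        ∑ m ∈ Ioc (0 : ℤ) x, ext0 h m • w i m := by
      have e2 : Ioc (0 : ℤ) ((x + H : ℕ) : ℤ) = Ioc (0 : ℤ) x ∪ Ioc (x : ℤ) (x + H) := by
        ext m
        simp only [mem_Ioc, mem_union]
        omega
      rw [e2, sum_union, add_sub_cancel_left]
      rw [disjoint_left]
      intro m hm hm'
      rw [mem_Ioc] at hm hm'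
      omega
    have e3 : ‖∑ m ∈ Ioc (x : ℤ) (x + H), ext0 h m • w i m‖ ≤ δ * H := by
      rw [e1]
      refine (norm_sub_le _ _).trans ?_
      have e4 := h3 (x + H) h hh i
      have e5 := h3 x h hh i
      push_cast at e4 e5 ⊢
      have hxr : (x : ℝ) ≤ N := by exact_mod_cast hx.le
      calc _ ≤ (η * (x + H) + M * N₀) + (η * x + M * N₀) := add_le_add e4 e5
        _ ≤ η * (2 * (H₁ * H) + H) + 2 * (H * η) := by
            have : η * (x + H) + η * x ≤ η * (2 * (H₁ * H) + H) := by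
              rw [← mul_add]
              exact mul_le_mul_of_nonneg_left (by linarith) hη0.le
            linarith
        _ = η * (2 * H₁ + 3) * H := by ring
        _ = δ * H := by rw [hη, div_mul_cancel₀]; positivity
    calc _ ≤ (δ * H) ^ 2 := pow_le_pow_left₀ (norm_nonneg _) e3 2
      _ = δ * δ * H ^ 2 := by ring
      _ ≤ 1 * ε * H ^ 2 := by
          apply mul_le_mul_of_nonneg_right _ (sq_nonneg _)
          exact mul_le_mul hδ1 hδ2 hδ0.le zero_le_one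
      _ = _ := by ring
  calc _ ≤ ∑ _x ∈ range N, ε * (H : ℝ) ^ 2 := sum_le_sum key
    _ = _ := by rw [sum_const, card_range, nsmul_eq_mul]; ring

/-- bounded functionals -/
lemma DjU.map {w : ι → ℤ → K} (hw : DjU E 𝓗 w) {κ : Type*} (r : κ → ι) (ζ : κ → K) (R : ℝ) (hζ : ∀ k, ‖ζ k‖ ≤ R) :
    DjU E 𝓗 (fun k m => (inner ℂ (ζ k) (w (r k) m) : ℂ)) := by
  intro ε hε
  obtain ⟨H₁, h11, h1⟩ := hw (ε / (R ^ 2 + 1)) (by positivity)
  refine ⟨H₁, h11, fun H hH N hN hNE h hh k => ?_⟩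
  have e1 := h1 H hH N hN hNE h hh (r k)
  have hR : ‖ζ k‖ ^ 2 ≤ R ^ 2 := pow_le_pow_left₀ (norm_nonneg _) (hζ k) 2
  calc ∑ x ∈ range N, ‖∑ m ∈ Ioc (x : ℤ) (x + H), ext0 h m • (inner ℂ (ζ k) (w (r k) m) : ℂ)‖ ^ 2 ≤
      ∑ x ∈ range N, R ^ 2 * ‖∑ m ∈ Ioc (x : ℤ) (x + H), ext0 h m • w (r k) m‖ ^ 2 := by
        refine sum_le_sum fun x _ => ?_
        have e2 : ∑ m ∈ Ioc (x : ℤ) (x + H), ext0 h m • (inner ℂ (ζ k) (w (r k) m) : ℂ) =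
            inner ℂ (ζ k) (∑ m ∈ Ioc (x : ℤ) (x + H), ext0 h m • w (r k) m) := by
          rw [inner_sum]
          exact sum_congr rfl fun m _ => by rw [inner_smul_right, smul_eq_mul]
        rw [e2]
        calc _ ≤ (‖ζ k‖ * ‖∑ m ∈ Ioc (x : ℤ) (x + H), ext0 h m • w (r k) m‖) ^ 2 :=
              pow_le_pow_left₀ (norm_nonneg _) (norm_inner_le_norm _ _) 2
          _ = ‖ζ k‖ ^ 2 * ‖∑ m ∈ Ioc (x : ℤ) (x + H), ext0 h m • w (r k) m‖ ^ 2 := mul_pow _ _ _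
          _ ≤ _ := mul_le_mul_of_nonneg_right hR (sq_nonneg _)
    _ = R ^ 2 * ∑ x ∈ range N, ‖∑ m ∈ Ioc (x : ℤ) (x + H), ext0 h m • w (r k) m‖ ^ 2 := by rw [mul_sum]
    _ ≤ R ^ 2 * (ε / (R ^ 2 + 1) * H ^ 2 * N) := mul_le_mul_of_nonneg_left e1 (sq_nonneg _)
    _ = (R ^ 2 / (R ^ 2 + 1)) * (ε * H ^ 2 * N) := by ring
    _ ≤ 1 * (ε * H ^ 2 * N) := by
        apply mul_le_mul_of_nonneg_right _ (by positivity)
        rw [div_le_one (by positivity)]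
        linarith
    _ = _ := one_mul _

end Lin

section Cst

universe u v

variable {A : Type u} [NonUnitalCStarAlgebra A] (α : A ≃⋆ₐ[ℂ] A) {ι : Type*}

open scoped InnerProductSpace

/-- `φ` is a cluster point of the averages of the functionals `ρ i` -/
def CluU (ρ : ι → A → ℂ) (φ : A →L[ℂ] ℂ) : Prop :=
  ∀ (F : Finset A) (ε : ℝ), 0 < ε → ∀ N₀ : ℕ, ∃ N ≥ N₀, ∃ i, ∀ a ∈ F, ‖av α (ρ i) N a - φ a‖ < ε

variable {K : Type v} [NormedAddCommGroup K] [InnerProductSpace ℂ K] [CompleteSpace K]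
variable (π : A →⋆ₙₐ[ℂ] (K →L[ℂ] K)) (Ξ : ι → K) (R : ℝ)

/-- the limit functional -/
lemma exists_phiU (hR : ∀ i, ‖Ξ i‖ ≤ R) (a : ℕ → ℕ) (s : ℕ → ι) (𝒱 : Ultrafilter ℕ) : ∃ φ : A →L[ℂ] ℂ,
    ∀ c, Tendsto (fun j => av α (rr π (Ξ (s j))) (a j) c) 𝒱 (𝓝 (φ c)) := by
  choose l hl hl2 using fun c : A => exists_ulim 𝒱 (fun j => av α (rr π (Ξ (s j))) (a j) c) (R ^ 2 * ‖c‖)
    (fun j => (av_le α π _ _ c).trans
      (mul_le_mul_of_nonneg_right (pow_le_pow_left₀ (norm_nonneg _) (hR _) 2) (norm_nonneg _)))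
  have hadd : ∀ b c, l (b + c) = l b + l c := by
    intro b c
    refine tendsto_nhds_unique (hl (b + c)) (((hl b).add (hl c)).congr fun j => ?_)
    rw [av_add]
  have hsmul : ∀ (t : ℂ) c, l (t • c) = t * l c := by
    intro t c
    refine tendsto_nhds_unique (hl (t • c)) (((hl c).const_mul t).congr fun j => ?_)
    rw [av_smul]
  let φ₀ : A →ₗ[ℂ] ℂ := { toFun := l, map_add' := hadd, map_smul' := fun t c => by simpa using hsmul t c }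
  exact ⟨φ₀.mkContinuous (R ^ 2) hl2, hl⟩

variable {π Ξ R}

lemma phiU_pos {a : ℕ → ℕ} {s : ℕ → ι} {𝒱 : Ultrafilter ℕ} {φ : A →L[ℂ] ℂ}
    (h : ∀ c, Tendsto (fun j => av α (rr π (Ξ (s j))) (a j) c) 𝒱 (𝓝 (φ c))) (c : A) : 0 ≤ φ (star c * c) := by
  refine ge_of_tendsto (h (star c * c)) (Eventually.of_forall fun j => ?_)
  unfold av
  have h1 : ∀ n : ℕ, rr π (Ξ (s j)) ((α ^ n) (star c * c)) = ((‖π ((α ^ n) c) (Ξ (s j))‖ ^ 2 : ℝ) : ℂ) := by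
    intro n
    rw [map_mul, map_star, rr_mul, inner_self_eq_norm_sq_to_K]
    norm_cast
  simp_rw [h1]
  have h2 : (1 / (a j : ℂ)) * ∑ n ∈ Icc 1 (a j), ((‖π ((α ^ n) c) (Ξ (s j))‖ ^ 2 : ℝ) : ℂ) =
      (((1 / (a j : ℝ)) * ∑ n ∈ Icc 1 (a j), ‖π ((α ^ n) c) (Ξ (s j))‖ ^ 2 : ℝ) : ℂ) := by
    push_cast; ring
  rw [h2, Complex.zero_le_real]
  positivity

lemma phiU_inv (hR : ∀ i, ‖Ξ i‖ ≤ R) {a : ℕ → ℕ} {s : ℕ → ι} {𝒱 : Ultrafilter ℕ} (h𝒱 : Tendsto a 𝒱 atTop)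
    {φ : A →L[ℂ] ℂ} (h : ∀ c, Tendsto (fun j => av α (rr π (Ξ (s j))) (a j) c) 𝒱 (𝓝 (φ c))) (c : A) :
    φ (α c) = φ c := by
  have h1 : Tendsto (fun j : ℕ => (1 / (a j : ℂ)) * (rr π (Ξ (s j)) ((α ^ (a j + 1)) c) - rr π (Ξ (s j)) (α c))) 𝒱
      (𝓝 0) := by
    refine tendsto_inv_mulU h𝒱 _ (2 * (R ^ 2 * ‖c‖)) fun j => ?_
    refine (norm_sub_le _ _).trans ?_
    have e0 : ‖Ξ (s j)‖ ^ 2 * ‖c‖ ≤ R ^ 2 * ‖c‖ :=
      mul_le_mul_of_nonneg_right (pow_le_pow_left₀ (norm_nonneg _) (hR _) 2) (norm_nonneg _)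
    have e1 := rr_le π (Ξ (s j)) ((α ^ (a j + 1)) c)
    have e2 := rr_le π (Ξ (s j)) (α c)
    rw [norm_pow_apply] at e1
    rw [StarAlgEquiv.norm_map] at e2
    linarith
  refine tendsto_nhds_unique (h (α c)) ?_
  have h2 := h1.add (h c)
  rw [zero_add] at h2
  refine h2.congr fun j => ?_
  unfold av
  rw [← mul_add]
  congr 1
  have e : ∀ n : ℕ, (α ^ n) (α c) = (α ^ (n + 1)) c := by
    intro n; rw [pow_succ]; rfl
  simp_rw [e]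
  clear h2 h1 h
  generalize a j = N
  induction N with
  | zero => simp [rr, pow_one]
  | succ N ih =>
    rw [sum_Icc_succ_top (by omega), sum_Icc_succ_top (by omega), ← ih]
    ring

lemma phiU_clu {a : ℕ → ℕ} {s : ℕ → ι} {𝒱 : Ultrafilter ℕ} (h𝒱 : Tendsto a 𝒱 atTop)
    {φ : A →L[ℂ] ℂ} (h : ∀ c, Tendsto (fun j => av α (rr π (Ξ (s j))) (a j) c) 𝒱 (𝓝 (φ c))) :
    CluU α (fun i => rr π (Ξ i)) φ := by
  intro F ε hε N₀
  have h1 : ∀ᶠ j : ℕ in (𝒱 : Filter ℕ), ∀ c ∈ F, ‖av α (rr π (Ξ (s j))) (a j) c - φ c‖ < ε := by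
    rw [eventually_all_finset]
    intro c _
    have := (tendsto_iff_norm_sub_tendsto_zero.1 (h c)).eventually (gt_mem_nhds hε)
    exact this
  have h2 : ∀ᶠ j : ℕ in (𝒱 : Filter ℕ), N₀ ≤ a j := h𝒱.eventually (eventually_ge_atTop N₀)
  obtain ⟨j, hj1, hj2⟩ := (h2.and h1).exists
  exact ⟨a j, hj1, s j, hj2⟩

lemma phiU_spec {a : ℕ → ℕ} {s : ℕ → ι} {𝒱 : Ultrafilter ℕ} {φ : A →L[ℂ] ℂ}
    (h : ∀ c, Tendsto (fun j => av α (rr π (Ξ (s j))) (a j) c) 𝒱 (𝓝 (φ c))) (u : A) {σ : Measure UnitAddCircle}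
    (hσ : ∀ k : ℕ, φ (star u * (α ^ k) u) = ∫ η, (fourier (k : ℤ) η : ℂ) ∂σ) :
    SpecU (fun j => yy α π (Ξ (s j)) u) a 𝒱 σ := by
  intro k
  rw [← hσ k]
  refine (h _).congr fun j => ?_
  unfold av
  congr 1
  symm
  refine sum_nbij' (fun m : ℤ => m.toNat) (fun n : ℕ => (n : ℤ)) ?_ ?_ ?_ ?_ ?_
  · intro m hm
    rw [mem_Ioc] at hm
    rw [mem_Icc]
    omega
  · intro n hn
    rw [mem_Icc] at hn
    rw [mem_Ioc]
    omega
  · intro m hm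
    rw [mem_Ioc] at hm
    omega
  · intro n _
    simp
  · intro m hm
    rw [mem_Ioc] at hm
    rw [map_mul, map_star, rr_mul]
    have e1 : (m + (k : ℤ)).toNat = m.toNat + k := by omega
    show inner ℂ (π ((α ^ m.toNat) u) (Ξ (s j))) (π ((α ^ (m + (k : ℤ)).toNat) u) (Ξ (s j))) = _
    rw [e1, pow_add]
    rfl

/-- **The criterion for orbits in a representation**, uniformly in the vector -/
theorem DjU_orbit (hR : ∀ i, ‖Ξ i‖ ≤ R) (E : Set ℕ) (𝓗 : Set (ℕ → ℂ)) (h𝓗 : ∀ h ∈ 𝓗, ∀ n, ‖h n‖ ≤ 1) (u : A)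
    (H : ∀ φ : A →L[ℂ] ℂ, (∀ a, 0 ≤ φ (star a * a)) → (∀ a, φ (α a) = φ a) → CluU α (fun i => rr π (Ξ i)) φ →
      ∃ σ : Measure UnitAddCircle, IsFiniteMeasure σ ∧
        (∀ k : ℕ, φ (star u * (α ^ k) u) = ∫ η, (fourier (k : ℤ) η : ℂ) ∂σ) ∧ ∀ δ : ℝ, 0 < δ → Isolates E 𝓗 σ δ) :
    DjU E 𝓗 (fun i => yy α π (Ξ i) u) := by
  intro ε hε
  refine criterionU (fun i => yy α π (Ξ i) u) (R * ‖u‖) (fun i m => (yy_le α π (Ξ i) u m).trans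
    (mul_le_mul_of_nonneg_right (hR i) (norm_nonneg _))) E 𝓗 h𝓗 ?_ ε hε
  intro a s 𝒱 _ h𝒱
  obtain ⟨φ, hφ⟩ := exists_phiU α π Ξ R hR a s 𝒱
  obtain ⟨σ, h1, h2, h3⟩ := H φ (phiU_pos α hφ) (phiU_inv α hR h𝒱 hφ) (phiU_clu α h𝒱 hφ)
  exact ⟨σ, h1, phiU_spec α hφ u h2, h3⟩

lemma DjU_closure (hR : ∀ i, ‖Ξ i‖ ≤ R) {E : Set ℕ} {𝓗 : Set (ℕ → ℂ)} (h𝓗 : ∀ h ∈ 𝓗, ∀ n, ‖h n‖ ≤ 1) {D : Set A}
    (hD : ∀ u ∈ D, DjU E 𝓗 (fun i => yy α π (Ξ i) u)) {u : A} (hu : u ∈ closure (Submodule.span ℂ D : Set A)) :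
    DjU E 𝓗 (fun i => yy α π (Ξ i) u) := by
  by_cases hι : Nonempty ι
  swap
  · intro ε hε
    exact ⟨1, le_rfl, fun H _ N _ _ h _ i => absurd ⟨i⟩ hι⟩
  have hR0 : 0 ≤ R := (norm_nonneg _).trans (hR (Classical.choice hι))
  have h1 : ∀ v ∈ Submodule.span ℂ D, DjU E 𝓗 (fun i => yy α π (Ξ i) v) := by
    intro v hv
    induction hv using Submodule.span_induction with
    | mem x hx => exact hD x hx
    | zero =>
      have : (fun i => yy α π (Ξ i) (0 : A)) = fun _ _ => 0 := by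
        funext i m; simp [yy]
      rw [this]
      exact DjU.zero
    | add x y _ _ hx hy =>
      have : (fun i => yy α π (Ξ i) (x + y)) = fun i m => yy α π (Ξ i) x m + yy α π (Ξ i) y m := by
        funext i m; simp [yy]
      rw [this]
      exact hx.add hy
    | smul c x _ hx =>
      have : (fun i => yy α π (Ξ i) (c • x)) = fun i m => c • yy α π (Ξ i) x m := by
        funext i m; simp [yy]
      rw [this]
      exact hx.smul c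
  refine DjU.lim h𝓗 fun η hη => ?_
  obtain ⟨v, hv, hvu⟩ := Metric.mem_closure_iff.1 hu (η / (R + 1)) (by positivity)
  refine ⟨fun i => yy α π (Ξ i) v, h1 v hv, fun i m => ?_⟩
  have e : yy α π (Ξ i) u m - yy α π (Ξ i) v m = yy α π (Ξ i) (u - v) m := by simp [yy]
  rw [e]
  refine (yy_le α π (Ξ i) _ m).trans ?_
  rw [dist_eq_norm] at hvu
  calc ‖Ξ i‖ * ‖u - v‖ ≤ R * (η / (R + 1)) := mul_le_mul (hR i) hvu.le (norm_nonneg _) hR0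
    _ = η * (R / (R + 1)) := by ring
    _ ≤ η * 1 := by
        apply mul_le_mul_of_nonneg_left _ hη.le
        rw [div_le_one (by positivity)]
        linarith
    _ = η := mul_one _

end Cst

end

end Pool.Agent.R296.SM
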